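import Mathlib
import Pool.Agent.P.MP_8707bd_ag.Main

/-!
No fixed curve, by restriction to the line `X 2 = 0` (helper file only).
-/

namespace Pool.Agent.P.MP_8707bd_ag.Win

open MvPolynomial

/-- Restriction to the line `X 2 = 0`. -/
noncomputable def resLine : MvPolynomial (Fin 3) ℂ →ₐ[ℂ] MvPolynomial (Fin 3) ℂ :=
  aeval ![X 0, X 1, 0]

lemma X_dvd_sub_resLine (G : MvPolynomial (Fin 3) ℂ) : X 2 ∣ G - resLine G := by
  induction G using MvPolynomial.induction_on with
  | C a => simp [resLine]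
  | add f g hf hg =>
    rw [map_add, add_sub_add_comm]
    exact dvd_add hf hg
  | mul_X f a hf =>
    have ha : (X 2 : MvPolynomial (Fin 3) ℂ) ∣ X a - resLine (X a) := by
      fin_cases a <;> simp [resLine]
    have e : f * X a - resLine (f * X a) =
        (f - resLine f) * X a + resLine f * (X a - resLine (X a)) := by
      rw [map_mul]; ring
    rw [e]
    exact dvd_add (hf.mul_right _) (ha.mul_left _)

/-- Binary forms of degree `n`. -/
noncomputable def binForms (n : ℕ) : Submodule ℂ (MvPolynomial (Fin 3) ℂ) :=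
  Submodule.span ℂ (Set.range fun a : Fin (n + 1) =>
    (X 0 ^ (a : ℕ) * X 1 ^ (n - a) : MvPolynomial (Fin 3) ℂ))

instance binForms_finite (n : ℕ) : Module.Finite ℂ (binForms n) :=
  Module.Finite.span_of_finite ℂ (Set.finite_range _)

lemma finrank_binForms (n : ℕ) : Module.finrank ℂ (binForms n) ≤ n + 1 := by
  have := finrank_range_le_card (R := ℂ) fun a : Fin (n + 1) =>
    (X 0 ^ (a : ℕ) * X 1 ^ (n - a) : MvPolynomial (Fin 3) ℂ)
  rw [Fintype.card_fin] at this
  exact this

lemma resLine_mem {H : MvPolynomial (Fin 3) ℂ} {n : ℕ} (hH : H.IsHomogeneous n) :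
    resLine H ∈ binForms n := by
  rw [H.as_sum, map_sum]
  refine Submodule.sum_mem _ fun s hs => ?_
  have hdeg : s 0 + s 1 + s 2 = n := by
    rw [← degree_three]
    by_contra hc
    exact mem_support_iff.1 hs (hH.coeff_eq_zero hc)
  rw [resLine, aeval_monomial, Finsupp.prod_fintype _ _ (by simp), Fin.prod_univ_three]
  simp only [Matrix.cons_val_zero, Matrix.cons_val_one, Matrix.cons_val]
  by_cases h2 : s 2 = 0
  · rw [h2, pow_zero, mul_one, ← Algebra.smul_def]
    refine Submodule.smul_mem _ _ (Submodule.subset_span ⟨⟨s 0, by omega⟩, ?_⟩)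
    simp only
    rw [show n - s 0 = s 1 by omega]
  · rw [zero_pow h2, mul_zero, mul_zero]
    exact zero_mem _

lemma X_two_not_mem (p : Fin 3 → ℂ) (hp : p 2 ≠ 0) :
    (X 2 : MvPolynomial (Fin 3) ℂ) ∉ ptIdeal p ^ (0 + 1) := by
  rw [zero_add, pow_one]
  intro h
  have h1 : ptIdeal p ≤ RingHom.ker (eval p) := Ideal.span_le.2 fun L hL => hL.2
  have := h1 h
  rw [RingHom.mem_ker, eval_X] at this
  exact hp this

theorem nofix {r : ℕ} (p : Fin r → Fin 3 → ℂ) (hp : ∀ i, p i 2 ≠ 0) (m d : ℕ)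
    (h : Module.finrank ℂ (fat p (fun _ => m) d) + r * (m + 1).choose 2 ≤ (d + 2).choose 2)
    (F : MvPolynomial (Fin 3) ℂ) (e : ℕ) (he : 0 < e) (hF : F.IsHomogeneous e) :
    ¬ ∀ G ∈ fat p (fun _ => m) (d + 1), F ∣ G := by
  intro hall
  have L := lower_bound p hp m (d + 1)
  have hch : (d + 1 + 2).choose 2 = (d + 2).choose 2 + (d + 2) := by
    rw [show d + 1 + 2 = (d + 2) + 1 by ring, Nat.choose_succ_succ' (d + 2) 1, Nat.choose_one_right]
    ring
  let Λ : fat p (fun _ => m) (d + 1) →ₗ[ℂ] MvPolynomial (Fin 3) ℂ :=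
    resLine.toLinearMap ∘ₗ (fat p (fun _ => m) (d + 1)).subtype
  have h1 := Λ.finrank_range_add_finrank_ker
  have h2 : Module.finrank ℂ (LinearMap.ker Λ) ≤ Module.finrank ℂ (fat p (fun _ => m) d) := by
    rw [← Submodule.finrank_map_subtype_eq]
    refine le_trans (Submodule.finrank_mono ?_)
      (Submodule.finrank_map_le (LinearMap.mulLeft ℂ (X 2 : MvPolynomial (Fin 3) ℂ)) _)
    rintro _ ⟨G, hG, rfl⟩
    have hG0 : resLine G.1 = 0 := LinearMap.mem_ker.1 hG
    have hd := X_dvd_sub_resLine G.1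
    rw [hG0, sub_zero] at hd
    obtain ⟨H, hH⟩ := hd
    have hm := mem_fat.1 G.2
    rw [hH] at hm
    refine ⟨H, mem_fat.2 ⟨?_, fun i => ?_⟩, hH.symm⟩
    · have := (hom_of_mul (isHomogeneous_X ℂ (2 : Fin 3)) (X_ne_zero _) hm.1).1
      rwa [Nat.add_sub_cancel] at this
    · exact mem_pow_of_mul (p i) (hp i) (X 2) H 0 m (X_two_not_mem (p i) (hp i)) (hm.2 i)
  have h3 : Module.finrank ℂ (LinearMap.range Λ) ≤ d + 1 := by
    have h4 : LinearMap.range Λ ≤
        (binForms (d + 1 - e)).map (LinearMap.mulLeft ℂ (resLine F)) := by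
      rintro _ ⟨G, rfl⟩
      obtain ⟨H, hH⟩ := hall G.1 G.2
      have e1 : Λ G = resLine F * resLine H := by
        change resLine G.1 = _
        rw [hH, map_mul]
      rw [e1]
      by_cases hF0 : F = 0
      · rw [hF0, map_zero, zero_mul]
        exact zero_mem _
      · have hm := (mem_fat.1 G.2).1
        rw [hH] at hm
        exact ⟨resLine H, resLine_mem (hom_of_mul hF hF0 hm).1, rfl⟩
    have h5 := (Submodule.finrank_mono h4).trans (Submodule.finrank_map_le _ _)
    have h6 := finrank_binForms (d + 1 - e)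
    omega
  omega

end Pool.Agent.P.MP_8707bd_ag.Win
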