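import Mathlib
import Pool.Agent.P.MP_8707bd_ag.All.Design

/-!
Definitions for the bounded window (helper file only).
-/

namespace Pool.Agent.P.MP_8707bd_ag.Win

open MvPolynomial

/-- Some points of multiplicities `μ i` and `e` further simple points leave no nonzero polynomial
with exponents in `Ω`. -/
def KE {ι : Type} (Ω : Set (Fin 2 →₀ ℕ)) (μ : ι → ℕ) (e : ℕ) : Prop :=
  ∃ (P : ι → Fin 2 → ℂ) (Q : Fin e → Fin 2 → ℂ), ∀ F : MvPolynomial (Fin 2) ℂ,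
    (∀ s ∈ F.support, s ∈ Ω) → (∀ i, F ∈ RingHom.ker (eval (P i)) ^ μ i) →
    (∀ a, eval (Q a) F = 0) → F = 0

/-- Exponents in rows `j ≤ J`, those of row `j` being given by `Ω j`. -/
def strip (J : ℕ) (Ω : ℕ → Finset ℕ) : Set (Fin 2 →₀ ℕ) := {s | s 0 ≤ J ∧ s 1 ∈ Ω (s 0)}

/-- Exponents of degree less than `n`. -/
def tri (n : ℕ) : Set (Fin 2 →₀ ℕ) := {s | s 0 + s 1 < n}

/-- The exponents of row `j` of the polynomials of degree at most `d` in thin coordinates. -/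
def thin (d δ j : ℕ) : Finset ℕ :=
  ((Finset.range δ).sigma fun b => Finset.range (d + 1 - j * δ - b)).image fun ba => δ * ba.2 + ba.1

/-- The set described by `R` contains an open interval of length `len`. -/
def CovL (R : ℝ → Prop) (len : ℝ) : Prop := ∃ lo, ∀ y, lo < y → y < lo + len → R y

/-- Rows in `[0, W]` which are strictly cheaper than the row `x`. -/
def Cheap {p : ℕ} (W : ℝ) (g : ℝ → Fin p → ℝ) (h : Fin p → ℝ) (x y : ℝ) : Prop :=
  0 ≤ y ∧ y ≤ W ∧ ¬ Irr.LexLe (fun i => h i * x + g x i) (fun i => h i * y + g y i)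

lemma strip_finite (J : ℕ) (Ω : ℕ → Finset ℕ) : (strip J Ω).Finite := by
  refine Set.Finite.of_finite_image (f := fun s => (s 0, s 1)) ?_ ?_
  · refine (((Finset.range (J + 1)).sigma Ω).image fun t => (t.1, t.2)).finite_toSet.subset ?_
    rintro _ ⟨s, hs, rfl⟩
    exact Finset.mem_coe.2 (Finset.mem_image.2 ⟨⟨s 0, s 1⟩,
      Finset.mem_sigma.2 ⟨Finset.mem_range.2 (Nat.lt_succ_of_le hs.1), hs.2⟩, rfl⟩)
  · intro s _ t _ h
    simp only [Prod.mk.injEq] at h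
    ext i
    fin_cases i
    · exact h.1
    · exact h.2

lemma tri_finite (n : ℕ) : (tri n).Finite := by
  refine (strip_finite n fun _ => Finset.range n).subset fun s hs => ?_
  have : s 0 + s 1 < n := hs
  exact ⟨by omega, Finset.mem_range.2 (by omega)⟩

lemma KE.mono {ι : Type} {Ω Ω' : Set (Fin 2 →₀ ℕ)} {μ : ι → ℕ} {e : ℕ} (h : KE Ω μ e)
    (h' : Ω' ⊆ Ω) : KE Ω' μ e := by
  obtain ⟨P, Q, h⟩ := h
  exact ⟨P, Q, fun F h1 => h F fun s hs => h' (h1 s hs)⟩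

lemma KE.reindex {ι κ : Type} {Ω : Set (Fin 2 →₀ ℕ)} {μ : ι → ℕ} {e : ℕ} (h : KE Ω μ e)
    (f : κ ≃ ι) (ν : κ → ℕ) (hν : ∀ a, ν a = μ (f a)) : KE Ω ν e := by
  obtain ⟨P, Q, h⟩ := h
  refine ⟨fun a => P (f a), Q, fun F h1 h2 => h F h1 fun i => ?_⟩
  simpa [hν] using h2 (f.symm i)

lemma KE.more {ι : Type} {Ω : Set (Fin 2 →₀ ℕ)} {μ : ι → ℕ} {e e' : ℕ} (h : KE Ω μ e)
    (h' : e ≤ e') : KE Ω μ e' := by
  obtain ⟨P, Q, h⟩ := h
  refine ⟨P, fun a => if ha : (a : ℕ) < e then Q ⟨a, ha⟩ else 0, fun F h1 h2 h3 =>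
    h F h1 h2 fun a => ?_⟩
  simpa using h3 ⟨a, lt_of_lt_of_le a.2 h'⟩

lemma ke_empty {ι : Type} (μ : ι → ℕ) (e : ℕ) : KE (tri 0) μ e := by
  refine ⟨fun _ _ => 0, fun _ _ => 0, fun F h _ _ => ?_⟩
  rw [← support_eq_empty, Finset.eq_empty_iff_forall_notMem]
  exact fun s hs => Nat.not_lt_zero _ (h s hs)

lemma thin_card (d δ j : ℕ) : (thin d δ j).card = rowLen d δ j := by
  rw [thin, Finset.card_image_of_injOn, Finset.card_sigma, rowLen]
  · simp
  · rintro ⟨b, a⟩ h ⟨b', a'⟩ h' hab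
    have hb : b < δ := Finset.mem_range.1 (Finset.mem_sigma.1 (Finset.mem_coe.1 h)).1
    have hb' : b' < δ := Finset.mem_range.1 (Finset.mem_sigma.1 (Finset.mem_coe.1 h')).1
    simp only at hab
    have h1 : b = b' := by
      have := congrArg (· % δ) hab
      simpa [Nat.mul_add_mod, Nat.mod_eq_of_lt hb, Nat.mod_eq_of_lt hb'] using this
    subst h1
    have h3 : a = a' := Nat.eq_of_mul_eq_mul_left (by omega : 0 < δ) (by omega)
    rw [h3]

lemma mem_thin {d δ j α : ℕ} :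
    α ∈ thin d δ j ↔ ∃ a b, b < δ ∧ j * δ + a + b ≤ d ∧ α = δ * a + b := by
  simp only [thin, Finset.mem_image, Finset.mem_sigma, Finset.mem_range]
  constructor
  · rintro ⟨⟨b, a⟩, ⟨h1, h2⟩, rfl⟩
    exact ⟨a, b, h1, by simp only at h2; omega, rfl⟩
  · rintro ⟨a, b, h1, h2, rfl⟩
    exact ⟨⟨b, a⟩, ⟨h1, by simp only; omega⟩, rfl⟩

end Pool.Agent.P.MP_8707bd_ag.Win
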