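import Mathlib
import Pool.Agent.P.MP_8707bd_ag.Win.Defs
import Pool.Agent.P.MP_8707bd_ag.All.Transfer
import Pool.Agent.P.MP_8707bd_ag.Main

/-!
Rank form of the transfer to general complex points (helper file only).
-/

namespace Pool.Agent.P.MP_8707bd_ag.Win

open MvPolynomial Row Irr All

/-- The vanishing conditions at the fat points together with those at the simple points. -/
noncomputable def eMat {A : Type} [CommRing A] {r e : ℕ} (q : Fin r → Fin 3 → A) (μ : Fin r → ℕ)
    (Q : Fin e → Fin 3 → A) (d : ℕ) : Matrix (TRow μ ⊕ Fin e) (TCol d) A :=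
  fun ρ n => Sum.elim (fun ρ' => tMat q μ d ρ' n)
    (fun a => eval (Q a) (monomial n.1 (1 : A))) ρ

lemma eMat_map {A B : Type} [CommRing A] [CommRing B] (f : A →+* B) {r e : ℕ}
    (q : Fin r → Fin 3 → A) (μ : Fin r → ℕ) (Q : Fin e → Fin 3 → A) (d : ℕ) :
    (eMat q μ Q d).map f = eMat (fun i k => f (q i k)) μ (fun a k => f (Q a k)) d := by
  ext ρ n
  rcases ρ with ρ | a
  · have := congrFun (congrFun (tMat_map f q μ d) ρ) n
    simpa [eMat, Matrix.map_apply] using this
  · simp [eMat, Matrix.map_apply, eval_monomial, Finsupp.prod, map_prod]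

lemma eMat_van {A : Type} [CommRing A] {r e : ℕ} (q : Fin r → Fin 3 → A) (μ : Fin r → ℕ)
    (Q : Fin e → Fin 3 → A) (d : ℕ) (c : TCol d → A) :
    (eMat q μ Q d).mulVec c = 0 ↔
      (∀ i, tForm c ∈ RingHom.ker (eval (q i)) ^ μ i) ∧ ∀ a, eval (Q a) (tForm c) = 0 := by
  have h2 : ∀ a, (eMat q μ Q d).mulVec c (Sum.inr a) = eval (Q a) (tForm c) := by
    intro a
    simp only [Matrix.mulVec, dotProduct, eMat, tForm, Sum.elim_inr, map_sum]
    refine Finset.sum_congr rfl fun n _ => ?_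
    simp [eval_monomial, mul_comm]
  have h1 : ∀ ρ, (eMat q μ Q d).mulVec c (Sum.inl ρ) = (tMat q μ d).mulVec c ρ := fun ρ => rfl
  rw [← tMat_van]
  constructor
  · intro h
    refine ⟨funext fun ρ => ?_, fun a => ?_⟩
    · rw [← h1, h]; rfl
    · rw [← h2, h]; rfl
  · rintro ⟨ha, hb⟩
    funext ρ
    rcases ρ with ρ | a
    · rw [h1, ha]; rfl
    · rw [h2, hb]; rfl

lemma inj_of_ke {r e : ℕ} (P : Fin r → Fin 2 → ℂ) (Q : Fin e → Fin 2 → ℂ) (μ : Fin r → ℕ) (d : ℕ)
    (h : ∀ F : MvPolynomial (Fin 2) ℂ, (∀ s ∈ F.support, s ∈ tri (d + 1)) →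
      (∀ i, F ∈ RingHom.ker (eval (P i)) ^ μ i) → (∀ a, eval (Q a) F = 0) → F = 0)
    (c : TCol d → ℂ)
    (hc : (eMat (fun i => ![P i 0, P i 1, 1]) μ (fun a => ![Q a 0, Q a 1, 1]) d).mulVec c = 0) :
    c = 0 := by
  classical
  rw [eMat_van] at hc
  set D : MvPolynomial (Fin 3) ℂ →ₐ[ℂ] MvPolynomial (Fin 2) ℂ :=
    MvPolynomial.aeval ![X 0, X 1, 1] with hD
  have hf : D (tForm c) = ∑ n : TCol d, monomial (tRes n.1) (c n) := by
    rw [tForm, map_sum]
    exact Finset.sum_congr rfl fun n _ => dehom_monomial _ _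
  have hev : ∀ (x : Fin 2 → ℂ) (a : MvPolynomial (Fin 3) ℂ),
      eval x (D a) = eval ![x 0, x 1, 1] a := by
    intro x a
    have h1 : (eval x).comp (D : MvPolynomial (Fin 3) ℂ →+* MvPolynomial (Fin 2) ℂ) =
        eval ![x 0, x 1, 1] := by
      ext1
      · ext a; simp [hD]
      · rename_i k
        fin_cases k <;> simp [hD]
    exact congrArg (fun f : MvPolynomial (Fin 3) ℂ →+* ℂ => f a) h1
  have h0 : D (tForm c) = 0 := by
    refine h _ (fun s hs => ?_) (fun i => ?_) fun a => ?_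
    · rw [hf] at hs
      obtain ⟨n, -, hn⟩ := Finset.mem_biUnion.1 (support_sum hs)
      have h5 : s = tRes n.1 := Finset.mem_singleton.1 (support_monomial_subset hn)
      have := tCol_sum n
      change s 0 + s 1 < d + 1
      rw [h5]
      simp [tRes]
      omega
    · exact pow_map_mem (D : MvPolynomial (Fin 3) ℂ →+* MvPolynomial (Fin 2) ℂ) _ _
        (fun a ha => (hev (P i) a).trans ha) _ _ (hc.1 i)
    · exact (hev (Q a) _).trans (hc.2 a)
  funext n0
  have h3 := congrArg (MvPolynomial.coeff (tRes n0.1)) (hf.symm.trans h0)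
  rw [MvPolynomial.coeff_sum, Finset.sum_eq_single n0] at h3
  · simpa using h3
  · intro n _ hne
    rw [MvPolynomial.coeff_monomial, if_neg fun h4 => hne (tRes_inj h4)]
  · intro h4
    exact absurd (Finset.mem_univ _) h4

theorem transferE {r : ℕ} (μ : Fin r → ℕ) (d e : ℕ) (h : KE (tri (d + 1)) μ e) :
    ∃ Φ : MvPolynomial (Fin r × Fin 3) ℂ, Φ ≠ 0 ∧ ∀ p : Fin r → Fin 3 → ℂ,
      MvPolynomial.eval (fun ij : Fin r × Fin 3 => p ij.1 ij.2) Φ ≠ 0 →
      Module.finrank ℂ (fat p μ d) ≤ e := by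
  classical
  obtain ⟨P, Q, h⟩ := h
  obtain ⟨g, hg⟩ := Row.exists_minor _ (inj_of_ke P Q μ d h)
  set Q3 : Fin e → Fin 3 → ℂ := fun a => ![Q a 0, Q a 1, 1] with hQ3
  set M0 : Matrix (TRow μ ⊕ Fin e) (TCol d) (MvPolynomial (Fin r × Fin 3) ℂ) :=
    eMat (fun i k => X (i, k)) μ (fun a k => C (Q3 a k)) d with hM0
  have key : ∀ p : Fin r → Fin 3 → ℂ,
      eval (fun ij : Fin r × Fin 3 => p ij.1 ij.2) (M0.submatrix g id).det =
        ((eMat p μ Q3 d).submatrix g id).det := by
    intro p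
    have h1 := eMat_map (eval (fun ij : Fin r × Fin 3 => p ij.1 ij.2))
      (fun i k => X (i, k)) μ (fun a k => C (Q3 a k)) d
    simp only [eval_X, eval_C] at h1
    rw [RingHom.map_det, ← h1]
    rfl
  refine ⟨(M0.submatrix g id).det, fun h0 => hg ?_, fun p hp => ?_⟩
  · have h1 := key fun i => ![P i 0, P i 1, 1]
    rw [h0, map_zero] at h1
    exact h1.symm
  · rw [key] at hp
    let L : fat p μ d →ₗ[ℂ] (Fin e → ℂ) :=
      LinearMap.pi fun a => (aeval (Q3 a)).toLinearMap ∘ₗ (fat p μ d).subtype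
    have hL : Function.Injective L := by
      rw [← LinearMap.ker_eq_bot, LinearMap.ker_eq_bot']
      rintro ⟨F, hF⟩ hF0
      obtain ⟨hF1, hF2⟩ := mem_fat.1 hF
      have h2 := tForm_coeff F hF1
      have h3 : (eMat p μ Q3 d).mulVec (fun n : TCol d => F.coeff n.1) = 0 := by
        rw [eMat_van, h2]
        refine ⟨fun i => ?_, fun a => ?_⟩
        · refine Ideal.pow_right_mono ?_ _ (hF2 i)
          unfold ptIdeal
          rw [Ideal.span_le]
          intro L hL
          exact hL.2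
        · have h5 : aeval (Q3 a) F = 0 := congrFun hF0 a
          rwa [aeval_eq_eval] at h5
      have h4 := Row.inj_of_minor _ g hp _ h3
      rw [h4] at h2
      refine Subtype.ext ?_
      change F = 0
      rw [← h2]
      simp [tForm]
    have := LinearMap.finrank_le_finrank_of_injective hL
    simpa using this

end Pool.Agent.P.MP_8707bd_ag.Win
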