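import Mathlib
import Pool.Agent.P.MP_8707bd_ag.Win.Defs
import Pool.Agent.P.MP_8707bd_ag.All.Transfer

/-!
Filling with simple points and specialising to complex points (helper file only).
-/

namespace Pool.Agent.P.MP_8707bd_ag.Win

open MvPolynomial Row Irr All

namespace Fill

lemma fill {K : Type} [Field K] [Infinite K] (e : ℕ) :
    ∀ U : Submodule K (MvPolynomial (Fin 2) K), FiniteDimensional K U → Module.finrank K U ≤ e →
      ∃ Q : Fin e → Fin 2 → K, ∀ F ∈ U, (∀ a, eval (Q a) F = 0) → F = 0 := by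
  induction e with
  | zero =>
    intro U _ hU
    have h0 : U = ⊥ := Submodule.finrank_eq_zero.1 (Nat.le_zero.1 hU)
    exact ⟨fun _ _ => 0, fun F hF _ => by rwa [h0, Submodule.mem_bot] at hF⟩
  | succ e ih =>
    intro U _ hU
    by_cases h0 : ∀ F ∈ U, F = 0
    · exact ⟨fun _ _ => 0, fun F hF _ => h0 F hF⟩
    push Not at h0
    obtain ⟨G, hG, hG0⟩ := h0
    obtain ⟨q, hq⟩ : ∃ q : Fin 2 → K, eval q G ≠ 0 := by
      by_contra hc
      push Not at hc
      exact hG0 (MvPolynomial.funext fun x => by simpa using hc x)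
    set V : Submodule K (MvPolynomial (Fin 2) K) :=
      U ⊓ LinearMap.ker (aeval q : MvPolynomial (Fin 2) K →ₐ[K] K).toLinearMap with hV
    have hlt : V < U := by
      refine lt_of_le_of_ne inf_le_left fun h => hq ?_
      have h1 : G ∈ V := h ▸ hG
      simpa [coe_aeval_eq_eval] using (Submodule.mem_inf.1 h1).2
    have h2 := Submodule.finrank_lt_finrank_of_lt hlt
    obtain ⟨Q, hQ⟩ := ih V (Submodule.finiteDimensional_of_le hlt.le) (by omega)
    refine ⟨Fin.cons q Q, fun F hF h => hQ F (Submodule.mem_inf.2 ⟨hF, ?_⟩) fun a => ?_⟩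
    · simpa [coe_aeval_eq_eval] using h 0
    · simpa using h a.succ

/-- The exponent attached to a row. -/
noncomputable def rExp {ι : Type} {μ : ι → ℕ} (ρ : Σ i : ι, Fin 2 → Fin (μ i)) : Fin 2 →₀ ℕ :=
  Finsupp.equivFunOnFinite.symm fun k => (ρ.2 k : ℕ)

/-- The matrix of the vanishing conditions. -/
noncomputable def mat {A ι : Type} [CommRing A] (S : Finset (Fin 2 →₀ ℕ)) (q : ι → Fin 2 → A)
    (μ : ι → ℕ) : Matrix (Σ i : ι, Fin 2 → Fin (μ i)) S A :=
  fun ρ n => if (rExp ρ).degree < μ ρ.1 then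
    (tr (q ρ.1) (monomial n.1 (1 : A))).coeff (rExp ρ) else 0

/-- The polynomial with prescribed coefficients. -/
noncomputable def form {A : Type} [CommRing A] {S : Finset (Fin 2 →₀ ℕ)} (c : S → A) :
    MvPolynomial (Fin 2) A := ∑ n : S, monomial n.1 (c n)

lemma mat_map {A B ι : Type} [CommRing A] [CommRing B] (f : A →+* B) (S : Finset (Fin 2 →₀ ℕ))
    (q : ι → Fin 2 → A) (μ : ι → ℕ) :
    (mat S q μ).map f = mat S (fun i k => f (q i k)) μ := by
  ext ρ n
  simp only [mat, Matrix.map_apply]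
  split_ifs with h
  · rw [← MvPolynomial.coeff_map, tr_map, MvPolynomial.map_monomial, map_one]
  · simp

lemma mat_mulVec {A ι : Type} [CommRing A] (S : Finset (Fin 2 →₀ ℕ)) (q : ι → Fin 2 → A)
    (μ : ι → ℕ) (c : S → A) (ρ : Σ i : ι, Fin 2 → Fin (μ i)) :
    (mat S q μ).mulVec c ρ = if (rExp ρ).degree < μ ρ.1 then
      (tr (q ρ.1) (form c)).coeff (rExp ρ) else 0 := by
  simp only [Matrix.mulVec, dotProduct, mat, form]
  split_ifs with h
  · rw [map_sum, MvPolynomial.coeff_sum]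
    refine Finset.sum_congr rfl fun n _ => ?_
    have : (monomial n.1 (c n) : MvPolynomial (Fin 2) A) = c n • monomial n.1 (1 : A) := by
      rw [MvPolynomial.smul_monomial, smul_eq_mul, mul_one]
    rw [this, map_smul, MvPolynomial.coeff_smul, smul_eq_mul, mul_comm]
  · simp

lemma mat_van {A ι : Type} [CommRing A] (S : Finset (Fin 2 →₀ ℕ)) (q : ι → Fin 2 → A)
    (μ : ι → ℕ) (c : S → A) :
    (mat S q μ).mulVec c = 0 ↔ ∀ i, form c ∈ RingHom.ker (eval (q i)) ^ μ i := by
  constructor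
  · intro h i
    rw [van_iff]
    intro s hs
    have hk : ∀ k, s k < μ i := fun k => lt_of_le_of_lt (Finsupp.le_degree k s) hs
    have h1 := congrFun h ⟨i, fun k => ⟨s k, hk k⟩⟩
    have h2 : rExp (μ := μ) ⟨i, fun k => ⟨s k, hk k⟩⟩ = s := by
      ext k
      simp [rExp]
    rw [mat_mulVec, h2, if_pos hs] at h1
    exact h1
  · intro h
    ext ρ
    rw [mat_mulVec]
    split_ifs with h1
    · exact (van_iff _ _ _).1 (h ρ.1) _ h1
    · rfl

lemma coeff_form {A : Type} [CommRing A] {S : Finset (Fin 2 →₀ ℕ)} (c : S → A)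
    (s : Fin 2 →₀ ℕ) : (form c).coeff s = if h : s ∈ S then c ⟨s, h⟩ else 0 := by
  classical
  rw [form, MvPolynomial.coeff_sum]
  split_ifs with h
  · rw [Finset.sum_eq_single ⟨s, h⟩]
    · simp
    · intro n _ hne
      rw [MvPolynomial.coeff_monomial, if_neg fun h4 => hne (Subtype.ext h4)]
    · intro h4
      exact absurd (Finset.mem_univ _) h4
  · refine Finset.sum_eq_zero fun n _ => ?_
    rw [MvPolynomial.coeff_monomial, if_neg fun h4 : n.1 = s => h (h4 ▸ n.2)]

lemma spec {K : Type} [Field K] [Algebra ℂ K] {ι : Type} [Fintype ι]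
    (Ω : Set (Fin 2 →₀ ℕ)) (hΩ : Ω.Finite) (P : ι → Fin 2 → K) (μ : ι → ℕ)
    (h : ∀ F : MvPolynomial (Fin 2) K, (∀ s ∈ F.support, s ∈ Ω) →
      (∀ i, F ∈ RingHom.ker (eval (P i)) ^ μ i) → F = 0) :
    ∃ p : ι → Fin 2 → ℂ, ∀ F : MvPolynomial (Fin 2) ℂ, (∀ s ∈ F.support, s ∈ Ω) →
      (∀ i, F ∈ RingHom.ker (eval (p i)) ^ μ i) → F = 0 := by
  classical
  set S := hΩ.toFinset with hS
  have hinj : ∀ c : S → K, (mat S P μ).mulVec c = 0 → c = 0 := by
    intro c hc
    rw [mat_van] at hc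
    have h0 : form c = 0 := by
      refine h _ (fun s hs => ?_) hc
      rw [MvPolynomial.mem_support_iff, coeff_form] at hs
      by_contra hn
      exact hs (dif_neg fun h1 => hn (hΩ.mem_toFinset.1 h1))
    funext n
    have h1 := coeff_form c n.1
    rw [h0, dif_pos n.2] at h1
    simpa using h1.symm
  obtain ⟨g, hg⟩ := Row.exists_minor _ hinj
  set M0 : Matrix (Σ i : ι, Fin 2 → Fin (μ i)) S (MvPolynomial (ι × Fin 2) ℂ) :=
    mat S (fun i k => X (i, k)) μ with hM0
  have key : ∀ {B : Type} [CommRing B] (f : MvPolynomial (ι × Fin 2) ℂ →+* B),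
      f (M0.submatrix g id).det =
        ((mat S (fun i k => f (X (i, k))) μ).submatrix g id).det := by
    intro B _ f
    rw [RingHom.map_det, ← mat_map]
    rfl
  have hne : (M0.submatrix g id).det ≠ 0 := by
    intro h0
    have h1 := key (MvPolynomial.eval₂Hom (algebraMap ℂ K) fun ij : ι × Fin 2 => P ij.1 ij.2)
    rw [h0, map_zero] at h1
    exact hg (by simpa using h1.symm)
  obtain ⟨x, hx⟩ : ∃ x : ι × Fin 2 → ℂ, eval x (M0.submatrix g id).det ≠ 0 := by
    by_contra hc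
    push Not at hc
    exact hne (MvPolynomial.funext fun x => by simpa using hc x)
  rw [key] at hx
  simp only [MvPolynomial.eval_X] at hx
  refine ⟨fun i k => x (i, k), fun F h1 h2 => ?_⟩
  have h3 : form (fun n : S => F.coeff n.1) = F := by
    ext s
    rw [coeff_form]
    split_ifs with h4
    · rfl
    · by_contra h5
      exact h4 (hΩ.mem_toFinset.2 (h1 s (MvPolynomial.mem_support_iff.2 fun h6 => h5 h6.symm)))
  have h4 := Row.inj_of_minor _ g hx (fun n : S => F.coeff n.1) (by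
    rw [mat_van, h3]
    exact h2)
  rw [← h3, h4]
  simp [form]

end Fill

theorem ke_of_fun {K : Type} [Field K] [Algebra ℂ K] {ι κ : Type} [Fintype ι] [Fintype κ]
    (Ω : Set (Fin 2 →₀ ℕ)) (hΩ : Ω.Finite) (P : ι → Fin 2 → K) (μ : ι → ℕ)
    (lam : κ → MvPolynomial (Fin 2) K →ₗ[K] K)
    (h : ∀ F : MvPolynomial (Fin 2) K, (∀ s ∈ F.support, s ∈ Ω) →
      (∀ i, F ∈ RingHom.ker (eval (P i)) ^ μ i) → (∀ a, lam a F = 0) → F = 0) :
    KE Ω μ (Fintype.card κ) := by
  classical
  haveI : Infinite K := Infinite.of_injective _ (algebraMap ℂ K).injective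
  set U : Submodule K (MvPolynomial (Fin 2) K) := restrictSupport K Ω ⊓
    ⨅ i, (RingHom.ker (eval (P i)) ^ μ i).restrictScalars K with hU
  have hmem : ∀ F, F ∈ U ↔ (∀ s ∈ F.support, s ∈ Ω) ∧
      ∀ i, F ∈ RingHom.ker (eval (P i)) ^ μ i := by
    intro F
    rw [hU, Submodule.mem_inf, Submodule.mem_iInf]
    exact Iff.rfl
  have hinj : Function.Injective ((LinearMap.pi lam).comp U.subtype) := by
    rw [injective_iff_map_eq_zero]
    intro F hF
    have h1 := (hmem F.1).1 F.2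
    exact Subtype.ext (h F.1 h1.1 h1.2 fun a => congrFun hF a)
  have hfin : FiniteDimensional K U := FiniteDimensional.of_injective _ hinj
  have hrk := LinearMap.finrank_le_finrank_of_injective hinj
  rw [Module.finrank_fintype_fun_eq_card] at hrk
  obtain ⟨Q, hQ⟩ := Fill.fill (Fintype.card κ) U hfin hrk
  obtain ⟨p, hp⟩ := Fill.spec Ω hΩ (Sum.elim P Q) (Sum.elim μ fun _ => 1) (by
    intro F h1 h2
    refine hQ F ((hmem F).2 ⟨h1, fun i => h2 (Sum.inl i)⟩) fun a => ?_
    simpa using h2 (Sum.inr a))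
  refine ⟨fun i => p (Sum.inl i), fun a => p (Sum.inr a), fun F h1 h2 h3 => hp F h1 ?_⟩
  rintro (i | a)
  · exact h2 i
  · simpa using h3 a

end Pool.Agent.P.MP_8707bd_ag.Win
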