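import Mathlib
import Pool.Agent.P.MP_8707bd_ag.Win.Fill

/-!
Degeneration of the triangle to a strip and a smaller triangle (helper file only).
-/

namespace Pool.Agent.P.MP_8707bd_ag.Win

open MvPolynomial Row Irr All

namespace Horace

open All.Glue

section series

variable {K : Type} [Field K]

lemma ser_mul (x y : HahnSeries ℤ K) (u v : ℤ) (hx : ∀ g < u, x.coeff g = 0)
    (hy : ∀ g < v, y.coeff g = 0) :
    (∀ g < u + v, (x * y).coeff g = 0) ∧ (x * y).coeff (u + v) = x.coeff u * y.coeff v := by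
  constructor
  · intro g hg
    rw [HahnSeries.coeff_mul]
    refine Finset.sum_eq_zero fun ij hij => ?_
    have h3 := (Finset.mem_antidiagonal.1 hij).2.2
    by_cases h1 : ij.1 < u
    · rw [hx _ h1, zero_mul]
    · rw [hy _ (by omega), mul_zero]
  · rw [HahnSeries.coeff_mul, Finset.sum_eq_single (u, v)]
    · intro ij hij hne
      have h3 := (Finset.mem_antidiagonal.1 hij).2.2
      by_cases h1 : ij.1 < u
      · rw [hx _ h1, zero_mul]
      · by_cases h2 : ij.2 < v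
        · rw [hy _ h2, mul_zero]
        · exact absurd (Prod.ext (by simp only; omega) (by simp only; omega)) hne
    · intro hn
      by_contra hc
      apply hn
      refine Finset.mem_antidiagonal.2 ⟨?_, ?_, rfl⟩
      · exact fun h0 => hc (by rw [h0, zero_mul])
      · exact fun h0 => hc (by rw [h0, mul_zero])

/-- All coefficients are of order at least `w`. -/
def Lw (w : ℤ) (F : MvPolynomial (Fin 2) (HahnSeries ℤ K)) : Prop :=
  ∀ s, ∀ g < w, (F.coeff s).coeff g = 0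

lemma Lw.mono {u v : ℤ} {F : MvPolynomial (Fin 2) (HahnSeries ℤ K)} (h : Lw v F) (huv : u ≤ v) :
    Lw u F := fun s g hg => h s g (by omega)

lemma Lw.cf_zero {w g : ℤ} {F : MvPolynomial (Fin 2) (HahnSeries ℤ K)} (h : Lw w F)
    (hg : g < w) : Glue.cf g F = 0 := by
  ext s
  rw [coeff_cf, h s g hg, coeff_zero]

lemma lw_add {w : ℤ} {F G : MvPolynomial (Fin 2) (HahnSeries ℤ K)} (hF : Lw w F) (hG : Lw w G) :
    Lw w (F + G) := by
  intro s g hg
  rw [coeff_add, HahnSeries.coeff_add, hF s g hg, hG s g hg, add_zero]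

lemma lw_sum {α : Type} {w : ℤ} (S : Finset α) (F : α → MvPolynomial (Fin 2) (HahnSeries ℤ K))
    (h : ∀ a ∈ S, Lw w (F a)) : Lw w (∑ a ∈ S, F a) := by
  intro s g hg
  rw [coeff_sum, HahnSeries.coeff_sum]
  exact Finset.sum_eq_zero fun a ha => h a ha s g hg

lemma cf_sum {α : Type} (w : ℤ) (S : Finset α) (F : α → MvPolynomial (Fin 2) (HahnSeries ℤ K)) :
    Glue.cf w (∑ a ∈ S, F a) = ∑ a ∈ S, Glue.cf w (F a) := by
  ext s
  rw [coeff_cf, coeff_sum, HahnSeries.coeff_sum, coeff_sum]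
  exact Finset.sum_congr rfl fun a _ => (coeff_cf _ _ _).symm

lemma lw_mul {u v : ℤ} {F G : MvPolynomial (Fin 2) (HahnSeries ℤ K)} (hF : Lw u F)
    (hG : Lw v G) : Lw (u + v) (F * G) := by
  classical
  intro s g hg
  rw [coeff_mul, HahnSeries.coeff_sum]
  exact Finset.sum_eq_zero fun p _ => (ser_mul _ _ u v (hF p.1) (hG p.2)).1 g hg

lemma cf_mul {u v : ℤ} {F G : MvPolynomial (Fin 2) (HahnSeries ℤ K)} (hF : Lw u F)
    (hG : Lw v G) : Glue.cf (u + v) (F * G) = Glue.cf u F * Glue.cf v G := by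
  classical
  ext s
  rw [coeff_cf, coeff_mul, HahnSeries.coeff_sum, coeff_mul]
  refine Finset.sum_congr rfl fun p _ => ?_
  rw [(ser_mul _ _ u v (hF p.1) (hG p.2)).2, coeff_cf, coeff_cf]

lemma lw_C {w : ℤ} {c : HahnSeries ℤ K} (h : ∀ g < w, c.coeff g = 0) :
    Lw w (C c : MvPolynomial (Fin 2) (HahnSeries ℤ K)) := by
  classical
  intro s g hg
  rw [coeff_C]
  split_ifs
  · exact h g hg
  · rfl

lemma cf_C (w : ℤ) (c : HahnSeries ℤ K) :
    Glue.cf w (C c : MvPolynomial (Fin 2) (HahnSeries ℤ K)) = C (c.coeff w) := by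
  simpa using cf_C_mul w c (1 : MvPolynomial (Fin 2) K)

lemma lw_map (f : MvPolynomial (Fin 2) K) :
    Lw 0 (map (HahnSeries.C : K →+* HahnSeries ℤ K) f) := by
  intro s g hg
  rw [coeff_map, HahnSeries.C_apply, HahnSeries.coeff_single_of_ne (by omega)]

lemma cf_map (f : MvPolynomial (Fin 2) K) :
    Glue.cf 0 (map (HahnSeries.C : K →+* HahnSeries ℤ K) f) = f := by
  ext s
  rw [coeff_cf, coeff_map, HahnSeries.C_apply, HahnSeries.coeff_single_same]

lemma lw_pow {u : ℤ} {F : MvPolynomial (Fin 2) (HahnSeries ℤ K)} (hF : Lw u F) (n : ℕ) :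
    Lw (n * u) (F ^ n) ∧ Glue.cf (n * u) (F ^ n) = Glue.cf u F ^ n := by
  induction n with
  | zero =>
    have h1 := lw_map (1 : MvPolynomial (Fin 2) K)
    have h2 := cf_map (1 : MvPolynomial (Fin 2) K)
    rw [map_one] at h1 h2
    simpa using ⟨h1, h2⟩
  | succ n ih =>
    have e : ((n + 1 : ℕ) : ℤ) * u = n * u + u := by push_cast; ring
    rw [e, pow_succ, pow_succ, cf_mul ih.1 hF, ih.2]
    exact ⟨lw_mul ih.1 hF, rfl⟩

lemma lw_X (k : Fin 2) : Lw 0 (X k : MvPolynomial (Fin 2) (HahnSeries ℤ K)) := by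
  simpa using lw_map (X k : MvPolynomial (Fin 2) K)

lemma cf_X (k : Fin 2) : Glue.cf 0 (X k : MvPolynomial (Fin 2) (HahnSeries ℤ K)) = X k := by
  simpa using cf_map (X k : MvPolynomial (Fin 2) K)

lemma lw_aeval {w : ℤ} (f : Fin 2 → MvPolynomial (Fin 2) (HahnSeries ℤ K)) (hf : ∀ k, Lw 0 (f k))
    {G : MvPolynomial (Fin 2) (HahnSeries ℤ K)} (hG : Lw w G) : Lw w (aeval f G) := by
  rw [G.as_sum, map_sum]
  refine lw_sum _ _ fun s _ => ?_
  rw [aeval_monomial, Finsupp.prod_fintype _ _ (by simp), Fin.prod_univ_two, algebraMap_eq]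
  have h0 := (lw_pow (hf 0) (s 0)).1
  have h1 := (lw_pow (hf 1) (s 1)).1
  simpa using lw_mul (lw_C (hG s)) (lw_mul h0 h1)

lemma exists_lw (F : MvPolynomial (Fin 2) (HahnSeries ℤ K)) : ∃ w, Lw w F := by
  obtain ⟨w, hw⟩ := (F.support.image fun s => (F.coeff s).order).finite_toSet.bddBelow
  refine ⟨w, fun s g hg => ?_⟩
  by_cases hs : s ∈ F.support
  · exact HahnSeries.coeff_eq_zero_of_lt_order
      (hg.trans_le (hw (Finset.mem_coe.2 (Finset.mem_image_of_mem _ hs))))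
  · rw [notMem_support_iff.1 hs]
    rfl

lemma cf_van (w : ℤ) (q : Fin 2 → K) (n : ℕ) (F : MvPolynomial (Fin 2) (HahnSeries ℤ K))
    (h : F ∈ RingHom.ker (eval fun k => (HahnSeries.C (q k) : HahnSeries ℤ K)) ^ n) :
    Glue.cf w F ∈ RingHom.ker (eval q) ^ n := by
  rw [van_iff] at h ⊢
  intro s hs
  rw [← cf_tr, coeff_cf, h s hs]
  rfl

end series

section thin

variable {L : Type} [Field L]

/-- The thin basis. -/
noncomputable def bas (δ : ℕ) (s : Fin 2 →₀ ℕ) : MvPolynomial (Fin 2) L :=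
  (X 0 - X 1 ^ δ) ^ s 0 * (X 0 ^ (s 1 / δ) * X 1 ^ (s 1 % δ))

/-- The linear map sending monomials to the thin basis. -/
noncomputable def lin (δ : ℕ) : MvPolynomial (Fin 2) L →ₗ[L] MvPolynomial (Fin 2) L :=
  (basisMonomials (Fin 2) L).constr L (bas δ)

lemma lin_monomial (δ : ℕ) (s : Fin 2 →₀ ℕ) :
    lin δ (monomial s (1 : L)) = bas (L := L) δ s := by
  have := (basisMonomials (Fin 2) L).constr_basis L (bas (L := L) δ) s
  rwa [coe_basisMonomials] at this

lemma lin_eq (δ : ℕ) (A : MvPolynomial (Fin 2) L) :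
    lin δ A = ∑ s ∈ A.support, C (A.coeff s) * bas (L := L) δ s := by
  conv_lhs => rw [A.as_sum, map_sum]
  refine Finset.sum_congr rfl fun s _ => ?_
  rw [← lin_monomial, ← smul_eq_C_mul, ← map_smul, smul_monomial, smul_eq_mul, mul_one]

lemma decomp (d δ J : ℕ) (hδ : 0 < δ) (F : MvPolynomial (Fin 2) L)
    (hF : ∀ s ∈ F.support, s ∈ tri (d + 1)) :
    ∃ A G : MvPolynomial (Fin 2) L, (∀ s ∈ A.support, s ∈ strip J (thin d δ)) ∧
      (∀ s ∈ G.support, s ∈ tri (d + 1 - (J + 1) * δ)) ∧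
      F = lin δ A + (X 0 - X 1 ^ δ) ^ (J + 1) * G := by
  classical
  set N : Submodule L (MvPolynomial (Fin 2) L) :=
    (restrictSupport L (strip J (thin d δ))).map (lin δ) ⊔
      (restrictSupport L (tri (d + 1 - (J + 1) * δ))).map
        (LinearMap.mulLeft L ((X 0 - X 1 ^ δ) ^ (J + 1))) with hN
  have mono : ∀ (Ω : Set (Fin 2 →₀ ℕ)) (s : Fin 2 →₀ ℕ), s ∈ Ω →
      (monomial s (1 : L) : MvPolynomial (Fin 2) L) ∈ restrictSupport L Ω := by
    intro Ω s hs s' hs'
    have h1 : s' ∈ (monomial s (1 : L) : MvPolynomial (Fin 2) L).support := hs'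
    rw [support_monomial, if_neg one_ne_zero, Finset.mem_singleton] at h1
    rwa [h1]
  have mono2 : ∀ a c : ℕ, (X 0 ^ a * X 1 ^ c : MvPolynomial (Fin 2) L) =
      monomial (Finsupp.single 0 a + Finsupp.single 1 c) 1 := by
    intro a c
    rw [X_pow_eq_monomial, X_pow_eq_monomial, monomial_mul, mul_one]
  have key : ∀ c j a : ℕ, j ≤ J + 1 → j * δ + a + c ≤ d →
      ((X 0 - X 1 ^ δ) ^ j * (X 0 ^ a * X 1 ^ c) : MvPolynomial (Fin 2) L) ∈ N := by
    intro c
    induction c using Nat.strong_induction_on with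
    | _ c ih =>
      intro j a hj hd
      rcases Nat.lt_or_ge j (J + 1) with hj' | hj'
      · rcases Nat.lt_or_ge c δ with hc | hc
        · refine Submodule.mem_sup_left (Submodule.mem_map.2
            ⟨monomial (Finsupp.single 0 j + Finsupp.single 1 (δ * a + c)) 1, mono _ _ ?_, ?_⟩)
          · refine ⟨by simpa using Nat.lt_succ_iff.1 hj', ?_⟩
            simpa using mem_thin.2 ⟨a, c, hc, hd, rfl⟩
          · rw [lin_monomial, bas]
            simp [Nat.mul_add_div hδ, Nat.div_eq_of_lt hc, Nat.mod_eq_of_lt hc]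
        · obtain ⟨c', rfl⟩ := Nat.exists_eq_add_of_le' hc
          have e : ((X 0 - X 1 ^ δ) ^ j * (X 0 ^ a * X 1 ^ (c' + δ)) : MvPolynomial (Fin 2) L) =
              (X 0 - X 1 ^ δ) ^ j * (X 0 ^ (a + 1) * X 1 ^ c') -
                (X 0 - X 1 ^ δ) ^ (j + 1) * (X 0 ^ a * X 1 ^ c') := by ring
          rw [e]
          refine N.sub_mem (ih c' (by omega) j (a + 1) hj (by omega))
            (ih c' (by omega) (j + 1) a hj' ?_)
          rw [add_mul, one_mul]
          omega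
      · have hjj : j = J + 1 := le_antisymm hj hj'
        subst hjj
        refine Submodule.mem_sup_right (Submodule.mem_map.2 ⟨X 0 ^ a * X 1 ^ c, ?_, rfl⟩)
        rw [mono2]
        refine mono _ _ ?_
        simp only [tri, Set.mem_ofPred_eq]
        simp
        omega
  have hFN : F ∈ N := by
    rw [F.as_sum]
    refine Submodule.sum_mem _ fun s hs => ?_
    have h1 : s 0 + s 1 < d + 1 := hF s hs
    have h2 := key (s 1) 0 (s 0) (by omega) (by omega)
    rw [pow_zero, one_mul, mono2] at h2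
    have h3 : Finsupp.single 0 (s 0) + Finsupp.single 1 (s 1) = s := by
      ext k
      fin_cases k <;> simp
    rw [h3] at h2
    have h4 := N.smul_mem (F.coeff s) h2
    rwa [smul_monomial, smul_eq_mul, mul_one] at h4
  obtain ⟨x, hx, y, hy, hxy⟩ := Submodule.mem_sup.1 hFN
  obtain ⟨A, hA, rfl⟩ := Submodule.mem_map.1 hx
  obtain ⟨G, hG, rfl⟩ := Submodule.mem_map.1 hy
  exact ⟨A, G, hA, hG, hxy.symm⟩

lemma tr_supp (v : Fin 2 → L) (n : ℕ) (G : MvPolynomial (Fin 2) L)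
    (hG : ∀ s ∈ G.support, s ∈ tri n) : ∀ s ∈ (tr v G).support, s ∈ tri n := by
  intro s hs
  rcases Nat.eq_zero_or_pos n with rfl | hn
  · have : G = 0 := by
      rw [← support_eq_empty, Finset.eq_empty_iff_forall_notMem]
      exact fun s hs => Nat.not_lt_zero _ (hG s hs)
    simp [this] at hs
  have h1 : (tr v G).totalDegree ≤ n - 1 := by
    rw [G.as_sum, map_sum]
    refine totalDegree_finsetSum_le fun s' hs' => ?_
    have h2 : s' 0 + s' 1 < n := hG s' hs'
    rw [tr, aeval_monomial, Finsupp.prod_fintype _ _ (by simp), Fin.prod_univ_two, algebraMap_eq]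
    have h3 : ∀ k, (X k + C (v k) : MvPolynomial (Fin 2) L).totalDegree ≤ 1 := fun k =>
      (totalDegree_add _ _).trans (by simp)
    have h4 : ∀ k, ((X k + C (v k) : MvPolynomial (Fin 2) L) ^ s' k).totalDegree ≤ s' k :=
      fun k => (totalDegree_pow _ _).trans (by simpa using Nat.mul_le_mul_left (s' k) (h3 k))
    refine (totalDegree_mul _ _).trans ?_
    have h5 := totalDegree_mul ((X 0 + C (v 0) : MvPolynomial (Fin 2) L) ^ s' 0)
      ((X 1 + C (v 1)) ^ s' 1)
    have h6 := h4 0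
    have h7 := h4 1
    rw [totalDegree_C]
    omega
  have h2 := le_totalDegree hs
  rw [Finsupp.sum_fintype _ _ (by simp), Fin.sum_univ_two] at h2
  change s 0 + s 1 < n
  omega

lemma cancel_pow (q : Fin 2 → L) (z G : MvPolynomial (Fin 2) L) (hz : eval q z ≠ 0) (R n : ℕ)
    (h : z ^ R * G ∈ RingHom.ker (eval q) ^ n) : G ∈ RingHom.ker (eval q) ^ n := by
  have h1 : IsCoprime z (1 - C (eval q z)⁻¹ * z) := ⟨C (eval q z)⁻¹, 1, by ring⟩
  have h2 : 1 - C (eval q z)⁻¹ * z ∈ RingHom.ker (eval q) := by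
    rw [RingHom.mem_ker]
    simp [inv_mul_cancel₀ hz]
  obtain ⟨a, b, hab⟩ := h1.pow (m := R) (n := n)
  have h3 : G = a * (z ^ R * G) + b * G * (1 - C (eval q z)⁻¹ * z) ^ n := by
    linear_combination (-G) * hab
  rw [h3]
  exact Ideal.add_mem _ (Ideal.mul_mem_left _ _ h)
    (Ideal.mul_mem_left _ _ (Ideal.pow_mem_pow h2 n))

end thin

/-- `KE` with the simple points seen as points of multiplicity one. -/
lemma ke_pts {ι : Type} {Ω : Set (Fin 2 →₀ ℕ)} {μ : ι → ℕ} {e : ℕ} (h : KE Ω μ e) :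
    ∃ P : ι ⊕ Fin e → Fin 2 → ℂ, ∀ F : MvPolynomial (Fin 2) ℂ, (∀ s ∈ F.support, s ∈ Ω) →
      (∀ i, F ∈ RingHom.ker (eval (P i)) ^ Sum.elim μ (fun _ => 1) i) → F = 0 := by
  obtain ⟨P, Q, h⟩ := h
  refine ⟨Sum.elim P Q, fun F h1 h2 => h F h1 (fun i => h2 (Sum.inl i)) fun a => ?_⟩
  simpa using h2 (Sum.inr a)

lemma shift {κ : Type} [Finite κ] (δ n : ℕ) (ν : κ → ℕ) (Q : κ → Fin 2 → ℂ)
    (h : ∀ F : MvPolynomial (Fin 2) ℂ, (∀ s ∈ F.support, s ∈ tri n) →
      (∀ i, F ∈ RingHom.ker (eval (Q i)) ^ ν i) → F = 0) :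
    ∃ Q' : κ → Fin 2 → ℂ, (∀ i, eval (Q' i) (X 0 - X 1 ^ δ : MvPolynomial (Fin 2) ℂ) ≠ 0) ∧
      ∀ F : MvPolynomial (Fin 2) ℂ, (∀ s ∈ F.support, s ∈ tri n) →
        (∀ i, F ∈ RingHom.ker (eval (Q' i)) ^ ν i) → F = 0 := by
  obtain ⟨c, hc⟩ := (Set.finite_range fun i => Q i 1 ^ δ - Q i 0).exists_notMem
  refine ⟨fun i => Q i + ![c, 0], fun i h0 => hc ⟨i, ?_⟩, fun F h1 h2 => ?_⟩
  · simp only [map_sub, map_pow, eval_X, Pi.add_apply, Matrix.cons_val_zero, Matrix.cons_val_one,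
      add_zero] at h0
    linear_combination -h0
  · have h3 := h (tr ![c, 0] F) (tr_supp _ _ _ h1) fun i =>
      pow_map_mem (tr ![c, 0] : MvPolynomial (Fin 2) ℂ →+* MvPolynomial (Fin 2) ℂ) _ _
        (fun b hb => by
          change eval _ (tr _ b) = 0
          rw [eval_tr]
          exact hb) _ F (h2 i)
    have h4 := tr_tr (-![c, 0]) ![c, 0] F
    rw [h3, map_zero, neg_add_cancel, tr_zero] at h4
    exact h4.symm

theorem core {K : Type} [Field K] {ι κ : Type} (d δ J : ℕ) (hδ : 0 < δ) (P : ι → Fin 2 → K)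
    (μ : ι → ℕ) (Q : κ → Fin 2 → K) (ν : κ → ℕ)
    (h1 : ∀ F : MvPolynomial (Fin 2) K, (∀ s ∈ F.support, s ∈ strip J (thin d δ)) →
      (∀ i, F ∈ RingHom.ker (eval (P i)) ^ μ i) → F = 0)
    (hz : ∀ i, eval (Q i) (X 0 - X 1 ^ δ : MvPolynomial (Fin 2) K) ≠ 0)
    (h2 : ∀ F : MvPolynomial (Fin 2) K, (∀ s ∈ F.support, s ∈ tri (d + 1 - (J + 1) * δ)) →
      (∀ i, F ∈ RingHom.ker (eval (Q i)) ^ ν i) → F = 0) :
    ∃ (P' : ι → Fin 2 → HahnSeries ℤ K) (Q' : κ → Fin 2 → HahnSeries ℤ K),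
      ∀ F : MvPolynomial (Fin 2) (HahnSeries ℤ K), (∀ s ∈ F.support, s ∈ tri (d + 1)) →
        (∀ i, F ∈ RingHom.ker (eval (P' i)) ^ μ i) →
        (∀ i, F ∈ RingHom.ker (eval (Q' i)) ^ ν i) → F = 0 := by
  classical
  set t : HahnSeries ℤ K := HahnSeries.single 2 1 with ht
  refine ⟨fun i => ![t * HahnSeries.C (P i 0) + HahnSeries.C (P i 1) ^ δ, HahnSeries.C (P i 1)],
    fun i k => HahnSeries.C (Q i k), fun F hF hP hQ => ?_⟩
  obtain ⟨A, G, hA, hG, rfl⟩ := decomp d δ J hδ F hF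
  set f : Fin 2 → MvPolynomial (Fin 2) (HahnSeries ℤ K) := ![C t * X 0 + X 1 ^ δ, X 1] with hf
  have ht2 : Lw 2 (C t : MvPolynomial (Fin 2) (HahnSeries ℤ K)) :=
    lw_C fun g hg => by rw [ht, HahnSeries.coeff_single_of_ne (by omega)]
  have htX : Lw 2 (C t * X 0 : MvPolynomial (Fin 2) (HahnSeries ℤ K)) := by
    simpa using lw_mul ht2 (lw_X 0)
  have htX' : Glue.cf 2 (C t * X 0 : MvPolynomial (Fin 2) (HahnSeries ℤ K)) = X 0 := by
    have := cf_mul ht2 (lw_X 0)
    rw [add_zero, cf_C, cf_X, ht, HahnSeries.coeff_single_same, C_1, one_mul] at this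
    exact this
  have hX1 : ∀ n : ℕ, Lw 0 (X 1 ^ n : MvPolynomial (Fin 2) (HahnSeries ℤ K)) ∧
      Glue.cf 0 (X 1 ^ n : MvPolynomial (Fin 2) (HahnSeries ℤ K)) = X 1 ^ n := by
    intro n
    simpa [cf_X] using lw_pow (lw_X (K := K) 1) n
  have hf0 : Lw 0 (f 0) := lw_add (htX.mono (by norm_num)) (hX1 δ).1
  have hf0' : Glue.cf 0 (f 0) = X 1 ^ δ := by
    change Glue.cf 0 (C t * X 0 + X 1 ^ δ) = _
    rw [cf_add, htX.cf_zero (by norm_num), zero_add, (hX1 δ).2]
  have hfl : ∀ k, Lw 0 (f k) := by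
    intro k
    fin_cases k
    · exact hf0
    · exact lw_X 1
  have hfz : aeval f (X 0 - X 1 ^ δ : MvPolynomial (Fin 2) (HahnSeries ℤ K)) = C t * X 0 := by
    simp [hf]
  have hbas : ∀ s : Fin 2 →₀ ℕ, Lw (2 * s 0) (aeval f (bas (L := HahnSeries ℤ K) δ s)) ∧
      Glue.cf (2 * s 0) (aeval f (bas (L := HahnSeries ℤ K) δ s)) = monomial s 1 := by
    intro s
    have e : aeval f (bas (L := HahnSeries ℤ K) δ s) =
        (C t * X 0) ^ s 0 * (f 0 ^ (s 1 / δ) * X 1 ^ (s 1 % δ)) := by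
      rw [bas, map_mul, map_pow, hfz]
      simp [hf]
    have a1 := lw_pow htX (s 0)
    rw [mul_comm] at a1
    have a2 := lw_pow hf0 (s 1 / δ)
    rw [mul_zero] at a2
    have a3 := lw_mul a2.1 (hX1 (s 1 % δ)).1
    have a4 := cf_mul a2.1 (hX1 (s 1 % δ)).1
    rw [add_zero] at a3 a4
    have a5 := lw_mul a1.1 a3
    have a6 := cf_mul a1.1 a3
    rw [add_zero] at a5 a6
    rw [e]
    refine ⟨a5, ?_⟩
    rw [a6, a1.2, a4, a2.2, (hX1 _).2, htX', hf0', ← pow_mul, ← pow_add, Nat.div_add_mod,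
      X_pow_eq_monomial, X_pow_eq_monomial, monomial_mul, mul_one]
    congr 2
    ext k
    fin_cases k <;> simp
  have hzm : (X 0 - X 1 ^ δ : MvPolynomial (Fin 2) (HahnSeries ℤ K)) ^ (J + 1) =
      map (HahnSeries.C : K →+* HahnSeries ℤ K) ((X 0 - X 1 ^ δ) ^ (J + 1)) := by simp
  have step : ∀ w : ℤ, ((∀ s, ∀ g < w - 2 * s 0, (A.coeff s).coeff g = 0) ∧
      Lw (w - (2 * J + 1)) G) → ((∀ s, ∀ g < w + 1 - 2 * s 0, (A.coeff s).coeff g = 0) ∧
      Lw (w + 1 - (2 * J + 1)) G) := by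
    rintro w ⟨lA, lG⟩
    have e1 : Glue.cf w (aeval f (lin δ A + (X 0 - X 1 ^ δ) ^ (J + 1) * G)) =
        ∑ s ∈ A.support, monomial s ((A.coeff s).coeff (w - 2 * s 0)) := by
      have b1 := lw_mul (lw_pow htX (J + 1)).1 (lw_aeval f hfl lG)
      rw [map_add, cf_add, map_mul, map_pow, hfz, b1.cf_zero (by push_cast; omega), add_zero,
        lin_eq, map_sum, cf_sum]
      refine Finset.sum_congr rfl fun s _ => ?_
      have b2 := cf_mul (lw_C (lA s)) (hbas s).1
      rw [sub_add_cancel, cf_C, (hbas s).2, C_mul_monomial, mul_one] at b2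
      rw [map_mul, aeval_C, algebraMap_eq, b2]
    have e2 : ∀ s, (∑ s ∈ A.support, monomial s ((A.coeff s).coeff (w - 2 * s 0)) :
        MvPolynomial (Fin 2) K).coeff s = (A.coeff s).coeff (w - 2 * s 0) := by
      intro s
      rw [coeff_sum]
      simp only [coeff_monomial]
      rw [Finset.sum_ite_eq']
      split_ifs with hs
      · rfl
      · rw [notMem_support_iff.1 hs]
        rfl
    have e3 : (∑ s ∈ A.support, monomial s ((A.coeff s).coeff (w - 2 * s 0)) :
        MvPolynomial (Fin 2) K) = 0 := by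
      refine h1 _ (fun s hs => hA s ?_) fun i => ?_
      · rw [mem_support_iff] at hs ⊢
        intro h0
        rw [e2, h0] at hs
        exact hs rfl
      · rw [← e1]
        refine cf_van w (P i) _ _ ?_
        refine pow_map_mem (aeval f : MvPolynomial (Fin 2) (HahnSeries ℤ K) →ₐ[HahnSeries ℤ K]
          MvPolynomial (Fin 2) (HahnSeries ℤ K)).toRingHom _ _ (fun b hb => ?_) _ _ (hP i)
        rw [RingHom.mem_ker] at hb ⊢
        rw [← hb]
        have : (eval fun k => (HahnSeries.C (P i k) : HahnSeries ℤ K)).comp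
            (aeval f : MvPolynomial (Fin 2) (HahnSeries ℤ K) →ₐ[HahnSeries ℤ K]
              MvPolynomial (Fin 2) (HahnSeries ℤ K)).toRingHom =
            eval ![t * HahnSeries.C (P i 0) + HahnSeries.C (P i 1) ^ δ,
              HahnSeries.C (P i 1)] := by
          ext1
          · ext1 r
            simp
          · rename_i k
            fin_cases k <;> simp [hf]
        exact congrArg (fun φ : _ →+* _ => φ b) this
    have lA' : ∀ s, ∀ g < w + 1 - 2 * s 0, (A.coeff s).coeff g = 0 := by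
      intro s g hg
      rcases (by omega : g < w - 2 * s 0 ∨ g = w - 2 * s 0) with h | h
      · exact lA s g h
      · rw [h, ← e2, e3, coeff_zero]
    refine ⟨lA', ?_⟩
    have e4 : Lw (w - 2 * J) (lin δ A) := by
      rw [lin_eq]
      refine lw_sum _ _ fun s hs => ?_
      have b1 : s 0 ≤ J := (hA s hs).1
      have b2 : bas (L := HahnSeries ℤ K) δ s =
          map (HahnSeries.C : K →+* HahnSeries ℤ K) (bas δ s) := by simp [bas]
      have b3 := lw_mul (lw_C (lA s)) (lw_map (bas (L := K) δ s))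
      rw [← b2] at b3
      exact b3.mono (by omega)
    have e5 : Glue.cf (w - (2 * J + 1)) (lin δ A + (X 0 - X 1 ^ δ) ^ (J + 1) * G) =
        (X 0 - X 1 ^ δ) ^ (J + 1) * Glue.cf (w - (2 * J + 1)) G := by
      have b1 := cf_mul (lw_map ((X 0 - X 1 ^ δ : MvPolynomial (Fin 2) K) ^ (J + 1))) lG
      rw [zero_add, cf_map] at b1
      rw [cf_add, e4.cf_zero (by omega), zero_add, hzm, b1]
    have e6 : Glue.cf (w - (2 * J + 1)) G = 0 := by
      refine h2 _ (fun s hs => hG s ?_) fun i => ?_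
      · rw [mem_support_iff] at hs ⊢
        intro h0
        rw [coeff_cf, h0] at hs
        exact hs rfl
      · refine cancel_pow (Q i) _ _ (hz i) (J + 1) _ ?_
        rw [← e5]
        exact cf_van _ (Q i) _ _ (hQ i)
    intro s g hg
    rcases (by omega : g < w - (2 * J + 1) ∨ g = w - (2 * J + 1)) with h | h
    · exact lG s g h
    · rw [h, ← coeff_cf, e6, coeff_zero]
  obtain ⟨u, hu⟩ := exists_lw A
  obtain ⟨v, hv⟩ := exists_lw G
  have all : ∀ w : ℤ, min u v ≤ w → ((∀ s, ∀ g < w - 2 * s 0, (A.coeff s).coeff g = 0) ∧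
      Lw (w - (2 * J + 1)) G) := by
    intro w hw
    induction w, hw using Int.leInduction with
    | base => exact ⟨fun s g hg => hu s g (by omega), hv.mono (by omega)⟩
    | succ w _ ih => exact step w ih
  have hA0 : A = 0 := by
    ext s g
    exact (all (max (min u v) (g + 2 * s 0 + 1)) (le_max_left _ _)).1 s g (by omega)
  have hG0 : G = 0 := by
    ext s g
    exact (all (max (min u v) (g + 2 * J + 2)) (le_max_left _ _)).2 s g (by omega)
  rw [hA0, hG0, map_zero, mul_zero, add_zero]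

end Horace

open Horace

theorem horace {ι κ : Type} [Fintype ι] [Fintype κ] (d δ J : ℕ) (hδ : 0 < δ) (μ : ι → ℕ)
    (ν : κ → ℕ) (e e' : ℕ) (h1 : KE (strip J (thin d δ)) μ e)
    (h2 : KE (tri (d + 1 - (J + 1) * δ)) ν e') : KE (tri (d + 1)) (Sum.elim μ ν) (e + e') := by
  classical
  obtain ⟨P, hP⟩ := ke_pts h1
  obtain ⟨Q0, hQ0⟩ := ke_pts h2
  obtain ⟨Q, hz, hQ⟩ := shift δ _ _ Q0 hQ0
  obtain ⟨P', Q', h⟩ := core d δ J hδ P _ Q _ hP hz hQ
  let lam : (Fin e ⊕ Fin e') →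
      MvPolynomial (Fin 2) (HahnSeries ℤ ℂ) →ₗ[HahnSeries ℤ ℂ] HahnSeries ℤ ℂ := fun a =>
    match a with
    | Sum.inl a => (aeval (P' (Sum.inr a))).toLinearMap
    | Sum.inr b => (aeval (Q' (Sum.inr b))).toLinearMap
  have key := ke_of_fun (K := HahnSeries ℤ ℂ) (ι := ι ⊕ κ) (tri (d + 1)) (tri_finite _)
    (Sum.elim (fun i => P' (Sum.inl i)) fun i => Q' (Sum.inl i)) (Sum.elim μ ν) lam
    (fun F g1 g2 g3 => by
      refine h F g1 ?_ ?_
      · rintro (i | a)
        · exact g2 (Sum.inl i)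
        · have h4 := g3 (Sum.inl a)
          change F ∈ _ ^ 1
          rw [pow_one, RingHom.mem_ker, ← coe_aeval_eq_eval]
          exact h4
      · rintro (i | a)
        · exact g2 (Sum.inr i)
        · have h4 := g3 (Sum.inr a)
          change F ∈ _ ^ 1
          rw [pow_one, RingHom.mem_ker, ← coe_aeval_eq_eval]
          exact h4)
  simpa using key

theorem sum_rowLen_add (d δ J : ℕ) :
    ∑ j ∈ Finset.range (J + 1), rowLen d δ j + (d + 1 - (J + 1) * δ + 1).choose 2 =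
      (d + 2).choose 2 := by
  have key : ∀ n, ∑ j ∈ Finset.range n, rowLen d δ j =
      ∑ b ∈ Finset.range (n * δ), (d + 1 - b) := by
    intro n
    induction n with
    | zero => simp
    | succ n ih =>
      rw [Finset.sum_range_succ, ih, add_mul, one_mul, Finset.sum_range_add, rowLen]
      congr 1
      exact Finset.sum_congr rfl fun b _ => by omega
  have key2 : ∀ N, ∑ b ∈ Finset.range N, (d + 1 - b) + (d + 1 - N + 1).choose 2 =
      (d + 2).choose 2 := by
    intro N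
    induction N with
    | zero => simp
    | succ N ih =>
      rw [Finset.sum_range_succ, ← ih, add_assoc]
      congr 1
      rcases Nat.lt_or_ge N (d + 1) with h | h
      · obtain ⟨k, hk⟩ := Nat.exists_eq_add_of_lt h
        rw [show d + 1 - N = k + 1 by omega, show d + 1 - (N + 1) = k by omega,
          Nat.choose_succ_succ' (k + 1) 1]
        simp
      · rw [show d + 1 - N = 0 by omega, show d + 1 - (N + 1) = 0 by omega]
        simp
  rw [key, key2]

end Pool.Agent.P.MP_8707bd_ag.Win
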