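import Mathlib
import Pool.Agent.P.MP_8707bd_ag.Win.Fill

/-!
The criterion with a tree of layers for a strip of monomials (helper file only).
-/

namespace Pool.Agent.P.MP_8707bd_ag.Win

open Polynomial Row Irr All

section rows

variable {L : Type} [Field L]

/-- A polynomial in two variables as a polynomial in the first one. -/
noncomputable def toPP : MvPolynomial (Fin 2) L →ₐ[L] L[X][X] := MvPolynomial.aeval ![X, C X]

lemma toPP_coeff (F : MvPolynomial (Fin 2) L) (s : Fin 2 →₀ ℕ) :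
    ((toPP F).coeff (s 0)).coeff (s 1) = F.coeff s := by
  classical
  induction F using MvPolynomial.induction_on' with
  | add p q hp hq => rw [map_add, coeff_add, coeff_add, hp, hq, MvPolynomial.coeff_add]
  | monomial u a =>
    have h1 : toPP (MvPolynomial.monomial u a) = monomial (u 0) (monomial (u 1) a) := by
      rw [toPP, MvPolynomial.aeval_monomial, Finsupp.prod_fintype _ _ (by simp), Fin.prod_univ_two,
        ← C_mul_X_pow_eq_monomial, ← C_mul_X_pow_eq_monomial]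
      simp only [Matrix.cons_val_zero, Matrix.cons_val_one, Polynomial.algebraMap_apply, map_mul,
        map_pow]
      simp only [Algebra.algebraMap_self, RingHom.id_apply]
      ring
    rw [h1, coeff_monomial, MvPolynomial.coeff_monomial]
    by_cases h : u = s
    · simp [h]
    · rw [if_neg h]
      split_ifs with h0
      · rw [coeff_monomial, if_neg]
        intro h2
        refine h (Finsupp.ext fun i => ?_)
        fin_cases i
        · exact h0
        · exact h2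
      · simp

lemma toPP_mem {J : ℕ} {Ω : ℕ → Finset ℕ} {F : MvPolynomial (Fin 2) L}
    (hF : ∀ s ∈ F.support, s ∈ strip J Ω) {j n : ℕ} (h : ((toPP F).coeff j).coeff n ≠ 0) :
    j ≤ J ∧ n ∈ Ω j := by
  have h1 := toPP_coeff F (Finsupp.single 0 j + Finsupp.single 1 n)
  have h2 : (Finsupp.single 0 j + Finsupp.single 1 n : Fin 2 →₀ ℕ) 0 = j := by simp
  have h3 : (Finsupp.single 0 j + Finsupp.single 1 n : Fin 2 →₀ ℕ) 1 = n := by simp
  rw [h2, h3] at h1
  have h4 := hF _ (MvPolynomial.mem_support_iff.2 (h1 ▸ h))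
  rwa [strip, Set.mem_ofPred_eq, h2, h3] at h4

/-- The derivation `z ∂_z`. -/
noncomputable def Eu (L : Type) [Field L] : Derivation L (R2 L) (R2 L) :=
  MvPolynomial.mkDerivation L ![MvPolynomial.X 0, 0]

lemma toPP_Eu (F : R2 L) : toPP (Eu L F) = X * derivative (toPP F) := by
  induction F using MvPolynomial.induction_on with
  | C a => simp [toPP]
  | add p q hp hq => simp [hp, hq, mul_add]
  | mul_X p k hp =>
    rw [Derivation.leibniz]
    simp only [smul_eq_mul, map_add, map_mul, hp, derivative_mul]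
    fin_cases k <;> simp [toPP, Eu, MvPolynomial.mkDerivation_X] <;> ring

lemma toPP_Eu_pow (k : ℕ) : ∀ (F : R2 L) (j : ℕ),
    (toPP ((((Eu L).toLinearMap : Module.End L (R2 L)) ^ k) F)).coeff j =
      (j : L) ^ k • (toPP F).coeff j := by
  induction k with
  | zero => simp
  | succ k ih =>
    intro F j
    rw [pow_succ, Module.End.mul_apply, ih, pow_succ, mul_smul]
    congr 1
    change (toPP (Eu L F)).coeff j = _
    rw [toPP_Eu]
    rcases j with _ | j
    · simp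
    · rw [coeff_X_mul, coeff_derivative, smul_eq_C_mul, mul_comm]
      simp

lemma row_dvd (J : ℕ) (F : R2 L) (hJ : ∀ j, J < j → (toPP F).coeff j = 0) (z Y : L) (μ k : ℕ)
    (hF : F ∈ RingHom.ker (MvPolynomial.eval ![z, Y]) ^ μ) :
    (X - C Y) ^ (μ - k) ∣
      ∑ j ∈ Finset.range (J + 1), (j : L) ^ k • (C (z ^ j) * (toPP F).coeff j) := by
  have h1 := pow_map_mem ((evalRingHom (C z)).comp (toPP (L := L)).toRingHom) _
    (Ideal.span {X - C Y}) (fun a ha => by
      rw [Ideal.mem_span_singleton, dvd_iff_isRoot]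
      have h2 : (evalRingHom Y).comp ((evalRingHom (C z)).comp (toPP (L := L)).toRingHom) =
          MvPolynomial.eval ![z, Y] := by
        refine MvPolynomial.ringHom_ext (fun a => by simp [toPP]) fun i => ?_
        fin_cases i <;> simp [toPP]
      exact (congrArg (fun φ : R2 L →+* L => φ a) h2).trans ha) _ _
    (der_pow_mem2 (Eu L) _ k μ F hF)
  rw [Ideal.span_singleton_pow, Ideal.mem_span_singleton] at h1
  convert h1 using 1
  change _ = eval (C z) (toPP _)
  rw [eval_eq_sum_range' (n := J + 1) (Nat.lt_succ_of_le (natDegree_le_iff_coeff_eq_zero.2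
    fun j hj => by rw [toPP_Eu_pow, hJ j hj, smul_zero]))]
  refine Finset.sum_congr rfl fun j _ => ?_
  rw [toPP_Eu_pow, smul_mul_assoc, map_pow, mul_comm]

lemma dvd_of_taylor (P : L[X]) (Y : L) (n : ℕ) (h : ∀ l < n, (taylor Y P).coeff l = 0) :
    (X - C Y) ^ n ∣ P := by
  obtain ⟨U, hU⟩ := X_pow_dvd_iff.2 h
  refine ⟨U.comp (X - C Y), ?_⟩
  have h3 := congrArg (fun P : L[X] => P.comp (X - C Y)) hU
  simpa [taylor_apply, comp_assoc] using h3

end rows

lemma red_dvd (P : HL[X]) (a : HL) (η γ : ℝ) (y n : ℕ) (h : (X - C (a + tp η * y)) ^ n ∣ P) :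
    (X - C (y : ℂ)) ^ n ∣ cw (cf γ) (P.comp (C a + C (tp η) * X)) := by
  refine cw_dvd (cf γ) _ (cf_C _) _ _ ?_
  obtain ⟨S, rfl⟩ := h
  have h3 : (X - C (a + tp η * y)).comp (C a + C (tp η) * X) =
      C (tp η) * (X - C (y : ℂ)).map HahnSeries.C := by
    simp only [Polynomial.map_sub, Polynomial.map_X, map_natCast, Polynomial.map_natCast, sub_comp,
      X_comp, C_comp, map_add, map_mul, add_comp, mul_comp, natCast_comp]
    ring
  rw [mul_comp, pow_comp, h3, mul_pow, Polynomial.map_pow]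
  exact ⟨C (tp η) ^ n * S.comp (C a + C (tp η) * X), by ring⟩

lemma point_dvdM (J μ : ℕ) (P : ℕ → HL[X]) (a : HL) (η h ω : ℝ) (y : ℕ) (π : ℕ → ℝ)
    (hc : ∀ k, (X - C (a + tp η * y)) ^ (μ - k) ∣
      ∑ j ∈ Finset.range (J + 1), (j : HL) ^ k • (C (tp h ^ j) * P j))
    (hlow : ∀ j ≤ J, LowP (ω + π j) ((P j).comp (C a + C (tp η) * X))) (j0 : ℕ) (hj0 : j0 ≤ J) :
    (X - C (y : ℂ)) ^ (μ - rk J π h j0) ∣
      cw (cf (ω + π j0)) ((P j0).comp (C a + C (tp η) * X)) := by
  classical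
  set ch : Finset ℕ := (Finset.range (J + 1)).filter
    fun j' : ℕ => j' ≠ j0 ∧ h * j' + π j' ≤ h * j0 + π j0 with hch
  have hrk : rk J π h j0 = ch.card := rfl
  set q : ℂ[X] := ∏ j' ∈ ch, (X - C (j' : ℂ)) with hq
  have hqdeg : q.natDegree = ch.card := by
    rw [hq, natDegree_finsetProd_X_sub_C_eq_card]
  have hq0 : ∀ j' ∈ ch, q.eval (j' : ℂ) = 0 := by
    intro j' hj'
    rw [hq, eval_prod]
    exact Finset.prod_eq_zero hj' (by simp)
  have hq1 : q.eval (j0 : ℂ) ≠ 0 := by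
    rw [hq, eval_prod]
    refine Finset.prod_ne_zero_iff.2 fun j' hj' => ?_
    simp only [eval_sub, eval_X, eval_C]
    exact sub_ne_zero.2 fun h => (Finset.mem_filter.1 hj').2.1 (Nat.cast_injective (R := ℂ) h).symm
  have h1 : (X - C (a + tp η * y)) ^ (μ - ch.card) ∣ ∑ j ∈ Finset.range (J + 1),
      (C (q.eval (j : ℂ))).map HahnSeries.C * (C (tp (h * j)) * P j) := by
    have h2 : ∀ j ∈ Finset.range (J + 1),
        (C (q.eval (j : ℂ))).map HahnSeries.C * (C (tp (h * j)) * P j) =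
        ∑ k ∈ Finset.range (ch.card + 1), C (HahnSeries.C (q.coeff k)) *
          ((j : HL) ^ k • (C (tp h ^ j) * P j)) := by
      intro j _
      rw [eval_eq_sum_range, hqdeg, Polynomial.map_C, map_sum, map_sum, Finset.sum_mul, tp_pow]
      refine Finset.sum_congr rfl fun k _ => ?_
      rw [smul_eq_C_mul, map_mul, map_mul, map_pow, map_natCast, mul_assoc]
    rw [Finset.sum_congr rfl h2, Finset.sum_comm]
    refine Finset.dvd_sum fun k hk => ?_
    rw [← Finset.mul_sum]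
    have := Finset.mem_range.1 hk
    obtain ⟨U, hU⟩ := (pow_dvd_pow _ (show μ - ch.card ≤ μ - k by omega)).trans (hc k)
    exact ⟨C (HahnSeries.C (q.coeff k)) * U, by rw [hU]; ring⟩
  have h4 := red_dvd _ a η (ω + π j0 + h * j0) y _ h1
  rw [sum_comp, cw_sum, Finset.sum_eq_single j0] at h4
  · rw [Polynomial.map_C, mul_comp, C_comp, ← Polynomial.map_C, cw_mul _ _ (cf_C _), mul_comp,
      C_comp, cw_tp, add_sub_cancel_right] at h4
    exact (isUnit_C.2 (Ne.isUnit hq1)).dvd_mul_left.1 h4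
  · intro j hj hj1
    rw [Polynomial.map_C, mul_comp, C_comp, ← Polynomial.map_C, cw_mul _ _ (cf_C _), mul_comp,
      C_comp, cw_tp]
    by_cases hle : h * j + π j ≤ h * j0 + π j0
    · rw [hq0 _ (Finset.mem_filter.2 ⟨hj, hj1, hle⟩), map_zero, zero_mul]
    · rw [(hlow j (by have := Finset.mem_range.1 hj; omega)).cw_eq (by linarith [not_le.1 hle]),
        mul_zero]
  · intro h0
    exact absurd (Finset.mem_range.2 (by omega)) h0

lemma exists_rec {A : Type} [Zero A] [Add A] (s : ℕ) (par : ℕ → ℕ)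
    (hpar : ∀ k, 0 < k → k < s → par k < k) (u : ℕ → A) :
    ∃ f : ℕ → A, f 0 = 0 ∧ ∀ k, 0 < k → k < s → f k = f (par k) + u k := by
  classical
  refine ⟨(wellFounded_lt (α := ℕ)).fix fun k f =>
    if h : 0 < k ∧ k < s then f (par k) (hpar k h.1 h.2) + u k else 0, ?_, fun k h1 h2 => ?_⟩
  · rw [WellFounded.fix_eq, dif_neg (by simp)]
  · rw [WellFounded.fix_eq, dif_pos ⟨h1, h2⟩]

theorem treeM {ι : Type} [Fintype ι] (J s : ℕ) (Ω : ℕ → Finset ℕ) (hs : 0 < s)
    (μ ph : ι → ℕ) (hph : ∀ i, ph i < s) (par : ℕ → ℕ)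
    (hpar : ∀ k, 0 < k → k < s → par k < k) (lam : ℕ → ℝ)
    (hlam : ∀ k, 0 < k → k < s → 0 < lam k) (G E : ℕ → ℕ → ℝ)
    (hG : ∀ k, 0 < k → k < s → ∀ j ≤ J, G k j = G (par k) j + lam k * E k j) (h : ι → ℝ)
    (x : ℕ → ℕ → ℕ)
    (hroot : ∀ j ≤ J, (Ω j).card ≤ x 0 j +
      (∑ i, if ph i = 0 then μ i - rk J (G 0) (h i) j else 0) +
        ∑ k' ∈ Finset.Ioo 0 s, if par k' = 0 then ⌈E k' j⌉₊ else 0)
    (hk : ∀ k, 0 < k → k < s → ∀ j ≤ J, ⌈E k j⌉₊ ≤ x k j +
      (∑ i, if ph i = k then μ i - rk J (G k) (h i) j else 0) +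
        ∑ k' ∈ Finset.Ioo 0 s, if par k' = k then ⌈E k' j⌉₊ else 0) :
    KE (strip J Ω) μ (∑ k ∈ Finset.range s, ∑ j ∈ Finset.range (J + 1), x k j) := by
  classical
  obtain ⟨η, η0, hη⟩ := exists_rec s par hpar lam
  obtain ⟨a, a0, a1⟩ := exists_rec s par hpar fun k => tp (η (par k)) * ((k : ℕ) : HL)
  set y : ι → ℕ := fun i => s + 1 + Fintype.equivFin ι i with hy
  have hcard : Fintype.card (Σ k : Fin s, Σ j : Fin (J + 1), Fin (x k j)) =
      ∑ k ∈ Finset.range s, ∑ j ∈ Finset.range (J + 1), x k j := by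
    rw [Fintype.card_sigma, ← Fin.sum_univ_eq_sum_range
      (fun k => ∑ j ∈ Finset.range (J + 1), x k j)]
    refine Finset.sum_congr rfl fun k _ => ?_
    rw [Fintype.card_sigma, ← Fin.sum_univ_eq_sum_range (fun j => x k j)]
    simp
  rw [← hcard]
  refine ke_of_fun (K := HL) _ (strip_finite J Ω)
    (fun i => ![tp (h i), a (ph i) + tp (η (ph i)) * y i]) μ
    (fun t => lcoeff HL t.2.2 ∘ₗ taylor (a t.1 + tp (η t.1) * (s : ℕ)) ∘ₗ
      (lcoeff HL[X] t.2.1).restrictScalars HL ∘ₗ toPP.toLinearMap) fun F hF hv hd => ?_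
  by_contra hne
  set P : ℕ → HL[X] := fun j => (toPP F).coeff j with hP
  have hPJ : ∀ j, J < j → P j = 0 := fun j hj => Polynomial.ext fun n => by
    by_contra h0
    exact absurd (toPP_mem hF h0).1 (by omega)
  set R : ℕ → ℕ → HL[X] := fun k j => (P j).comp (C (a k) + C (tp (η k)) * X) with hR
  set D := Finset.range s ×ˢ Finset.range (J + 1) with hD
  have hDm : ∀ k j, (k, j) ∈ D ↔ k < s ∧ j ≤ J := fun k j => by simp [hD]
  have hex : (D.sigma fun kj => (R kj.1 kj.2).support).Nonempty := by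
    obtain ⟨e, he⟩ := MvPolynomial.ne_zero_iff.1 hne
    rw [← toPP_coeff] at he
    have h1 : P (e 0) ≠ 0 := fun h0 => he (by simp only [hP] at h0; rw [h0, coeff_zero])
    obtain ⟨n, hn⟩ := support_nonempty.2 (comp_lin_ne h1 (a 0) (η 0))
    exact ⟨⟨(0, e 0), n⟩, Finset.mem_sigma.2 ⟨(hDm _ _).2 ⟨hs, (toPP_mem hF he).1⟩, hn⟩⟩
  obtain ⟨t0, ht0, hmin⟩ := Finset.exists_min_image _
    (fun t : (Σ _ : ℕ × ℕ, ℕ) => ((R t.1.1 t.1.2).coeff t.2).order - G t.1.1 t.1.2) hex
  set ω : ℝ := ((R t0.1.1 t0.1.2).coeff t0.2).order - G t0.1.1 t0.1.2 with hω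
  have hlow : ∀ k < s, ∀ j ≤ J, LowP (ω + G k j) (R k j) := by
    intro k hk j hj n γ hγ
    by_cases h0 : (R k j).coeff n = 0
    · rw [h0]; rfl
    · have := hmin ⟨(k, j), n⟩ (Finset.mem_sigma.2 ⟨(hDm _ _).2 ⟨hk, hj⟩, mem_support_iff.2 h0⟩)
      exact HahnSeries.coeff_eq_zero_of_lt_order (by simp only at this; linarith)
  set Q : ℕ → ℕ → ℂ[X] := fun k j => cw (cf (ω + G k j)) (R k j) with hQ
  have hex2 : (D.filter fun kj => Q kj.1 kj.2 ≠ 0).Nonempty := by
    refine ⟨t0.1, Finset.mem_filter.2 ⟨(Finset.mem_sigma.1 ht0).1, fun h0 => ?_⟩⟩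
    have h1 := congrArg (fun P : ℂ[X] => P.coeff t0.2) h0
    simp only [hQ, cw_coeff, cf_apply, coeff_zero] at h1
    rw [show ω + G t0.1.1 t0.1.2 = ((R t0.1.1 t0.1.2).coeff t0.2).order by rw [hω]; ring] at h1
    exact mem_support_iff.1 (Finset.mem_sigma.1 ht0).2 (HahnSeries.coeff_order_eq_zero.1 h1)
  obtain ⟨⟨k0, j0⟩, hk0, hmin2⟩ := Finset.exists_min_image _ (fun kj : ℕ × ℕ => kj.1) hex2
  have hQ0 : Q k0 j0 ≠ 0 := (Finset.mem_filter.1 hk0).2
  obtain ⟨hk0s, hj0⟩ := (hDm _ _).1 (Finset.mem_filter.1 hk0).1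
  have hchild : ∀ w, 0 < w → w < s → ∀ (n : ℕ) (γ : ℝ),
      ((R w j0).coeff n).coeff (γ + lam w * n) =
        ((cw (cf γ) (R (par w) j0)).comp (X + C (w : ℂ))).coeff n := by
    intro w hw hw' n γ
    simp only [hR, a1 w hw hw']
    rw [← child_coeff _ _ _ (η w), hη w hw hw', add_sub_cancel_left]
  have hT : ∃ T : Finset ℕ, (Q k0 j0).support ⊆ T ∧ T.card ≤ x k0 j0 +
      (∑ i, if ph i = k0 then μ i - rk J (G k0) (h i) j0 else 0) +
        ∑ k' ∈ Finset.Ioo 0 s, if par k' = k0 then ⌈E k' j0⌉₊ else 0 := by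
    rcases Nat.eq_zero_or_pos k0 with rfl | hpos
    · refine ⟨Ω j0, fun n hn => (toPP_mem hF fun h0 => mem_support_iff.1 hn ?_).2, hroot j0 hj0⟩
      simp only [hQ, hR, cw_coeff, a0, map_zero, zero_add]
      rw [comp_C_mul_X_coeff, h0, zero_mul, map_zero]
    refine ⟨Finset.range ⌈E k0 j0⌉₊, fun n hn => ?_, by
      rw [Finset.card_range]; exact hk k0 hpos hk0s j0 hj0⟩
    rw [Finset.mem_range, Nat.lt_ceil]
    by_contra hcon
    apply mem_support_iff.1 hn
    simp only [hQ, cw_coeff, cf_apply]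
    have h1 := hchild k0 hpos hk0s n (ω + G k0 j0 - lam k0 * n)
    have h3 := mul_le_mul_of_nonneg_left (not_lt.1 hcon) (hlam k0 hpos hk0s).le
    have h6 := hG k0 hpos hk0s j0 hj0
    have h7 := hpar k0 hpos hk0s
    rw [sub_add_cancel] at h1
    have h2 : cw (cf (ω + G k0 j0 - lam k0 * n)) (R (par k0) j0) = 0 := by
      rcases h3.lt_or_eq with h3 | h3
      · exact (hlow _ (by omega) _ hj0).cw_eq (by linarith)
      · by_contra h4
        have h5 := hmin2 (par k0, j0) (Finset.mem_filter.2 ⟨(hDm _ _).2 ⟨by omega, hj0⟩, by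
          simp only [hQ]
          rwa [show ω + G (par k0) j0 = ω + G k0 j0 - lam k0 * n by linarith]⟩)
        simp only at h5
        omega
    rw [h1, h2, zero_comp, coeff_zero]
  obtain ⟨T, hT1, hT2⟩ := hT
  refine hQ0 (descartes _ T hT1 (ι := (Unit ⊕ ι) ⊕ Finset.Ioo 0 s)
    (Sum.elim (Sum.elim (fun _ => s) y) fun w => w)
    (Sum.elim (Sum.elim (fun _ => x k0 j0)
      fun i => if ph i = k0 then μ i - rk J (G k0) (h i) j0 else 0)
      fun w => if par w = k0 then ⌈E w j0⌉₊ else 0) ?_ ?_ ?_ ?_)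
  · rintro ((w | i) | w) -
    · exact hs
    · simp [hy]
    · exact (Finset.mem_Ioo.1 w.2).1
  · have hw : ∀ w : Finset.Ioo 0 s, (w : ℕ) < s := fun w => (Finset.mem_Ioo.1 w.2).2
    rintro ((w | i) | w) ((w' | i') | w') - - h1 <;>
      simp only [Sum.elim_inl, Sum.elim_inr, hy] at h1
    · rfl
    · omega
    · exact absurd h1 (hw w').ne'
    · omega
    · rw [(Fintype.equivFin ι).injective (Fin.ext (Nat.add_left_cancel h1))]
    · have := hw w'; omega
    · exact absurd h1 (hw w).ne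
    · have := hw w; omega
    · rw [Subtype.ext h1]
  · rintro ((w | i) | w) <;> simp only [Sum.elim_inl, Sum.elim_inr]
    · exact red_dvd _ _ _ _ _ _ (dvd_of_taylor _ _ _ fun l hl =>
        hd ⟨⟨k0, hk0s⟩, ⟨j0, by omega⟩, ⟨l, hl⟩⟩)
    · split_ifs with hi
      · subst hi
        exact point_dvdM J (μ i) P _ _ (h i) ω (y i) (G (ph i))
          (fun k => row_dvd J F hPJ _ _ _ k (hv i)) (hlow _ hk0s) j0 hj0
      · rw [pow_zero]; exact one_dvd _
    · split_ifs with hw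
      · obtain ⟨hw1, hw2⟩ := Finset.mem_Ioo.1 w.2
        refine dvd_of_taylor _ _ _ fun n hn => ?_
        have h2 := mul_lt_mul_of_pos_left (Nat.lt_ceil.1 hn) (hlam w hw1 hw2)
        simp only [hQ]
        rw [taylor_apply, ← hw, ← hchild w hw1 hw2]
        exact hlow w hw2 j0 hj0 n _ (by linarith [hG w hw1 hw2 j0 hj0])
      · rw [pow_zero]; exact one_dvd _
  · rw [Fintype.sum_sum_type, Fintype.sum_sum_type]
    simp only [Sum.elim_inl, Sum.elim_inr]
    rw [Finset.sum_coe_sort (Finset.Ioo 0 s) fun w => if par w = k0 then ⌈E w j0⌉₊ else 0]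
    simpa using hT2

end Pool.Agent.P.MP_8707bd_ag.Win
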