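import Mathlib
import Pool.Agent.P.MP_8707bd_ag.Win.TreeM
import Pool.Agent.P.MP_8707bd_ag.Win.Horace
import Pool.Agent.P.MP_8707bd_ag.Nag.FinalA

/-!
A square number of points (helper file only).
-/

namespace Pool.Agent.P.MP_8707bd_ag.Win

open MvPolynomial Row Irr All

theorem sq_nag (k m : ℕ) : KE (tri (k * m)) (fun _ : Fin (k ^ 2) => m) 0 := by
  obtain ⟨Q, hQ⟩ := All.square k m
  have h := ke_of_fun (K := HL) (κ := Empty) (tri (k * m)) (tri_finite _) Q (fun _ => m)
    (fun a => a.elim) ?_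
  · simpa using h
  · intro F h1 h2 _
    by_contra hF
    refine hF (hQ F ?_ h2)
    obtain ⟨s, hs, he⟩ := Finset.exists_mem_eq_sup F.support (support_nonempty.2 hF)
      (fun s => s.sum fun _ e => e)
    have h3 : s 0 + s 1 < k * m := h1 s hs
    rw [totalDegree, he, Finsupp.sum_fintype _ _ (fun _ => rfl), Fin.sum_univ_two]
    exact h3

theorem sq_aux {ι : Type} [Fintype ι] (d δ J : ℕ) (hδ : 0 < δ) (hJ : d < (J + 1) * δ) (μ : ι → ℕ)
    (π : ℕ → ℝ) (h : ι → ℝ) (x : ℕ → ℕ)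
    (hroot : ∀ j ≤ J, rowLen d δ j ≤ x j + ∑ i, (μ i - rk J π (h i) j)) :
    KE (tri (d + 1)) μ (∑ j ∈ Finset.range (J + 1), x j) := by
  have h1 := treeM J 1 (thin d δ) one_pos μ (fun _ => 0) (fun _ => one_pos) (fun _ => 0)
    (fun _ _ _ => by omega) (fun _ => 1) (fun _ _ _ => one_pos) (fun _ => π) (fun _ _ => 0)
    (fun _ _ _ => by omega) h (fun _ => x)
    (fun j hj => by simpa [thin_card] using hroot j hj) (fun _ _ _ => by omega)
  have h2 : KE (tri (d + 1 - (J + 1) * δ)) (fun a : Empty => (a.elim : ℕ)) 0 := by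
    rw [show d + 1 - (J + 1) * δ = 0 by omega]
    exact ke_empty _ _
  have h3 := horace d δ J hδ μ _ _ _ h1 h2
  simpa using h3.reindex (Equiv.sumEmpty ι Empty).symm μ (fun _ => rfl)

theorem sq_rk_le {J : ℕ} {π : ℕ → ℝ} {h : ℝ} {j : ℕ} (S : Finset ℕ)
    (hS : ∀ j' ≤ J, j' ≠ j → h * j' + π j' ≤ h * j + π j → j' ∈ S) : rk J π h j ≤ S.card := by
  unfold rk
  refine Finset.card_le_card fun j' hj' => ?_
  rw [Finset.mem_filter, Finset.mem_range] at hj'
  exact hS j' (by omega) hj'.2.1 hj'.2.2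

theorem sq_sum_sub (k c : ℕ) (h : k ≤ c + 1) :
    2 * ∑ b ∈ Finset.range k, (c - b) + k * k = 2 * k * c + k := by
  induction k with
  | zero => simp
  | succ k ih =>
    rw [Finset.sum_range_succ]
    have := ih (by omega)
    obtain ⟨t, rfl⟩ : ∃ t, c = k + t := ⟨c - k, by omega⟩
    rw [Nat.add_sub_cancel_left]
    nlinarith

theorem sq_rowLen (d k j t : ℕ) (h : d + 1 = j * k + t) :
    rowLen d k j = ∑ b ∈ Finset.range k, (t - b) := by
  unfold rowLen
  exact Finset.sum_congr rfl fun b _ => by omega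

theorem sq_low (k m n : ℕ) (hk : 25 ≤ k) (hm : k ^ 2 ≤ 76 * (m + 1))
    (hn : 2 * n + 3 ≤ 2 * k * m + k) : KE (tri n) (fun _ : Fin (k ^ 2) => m) 0 := by
  obtain ⟨e, he⟩ : ∃ e, e = (k - 5) / 2 := ⟨_, rfl⟩
  have hk2 : 625 ≤ k ^ 2 := by nlinarith
  have hm8 : 8 ≤ m := by omega
  have hmr : (8 : ℝ) ≤ m := by exact_mod_cast hm8
  have hpos : (0 : ℝ) < 1 / (4 * m) := by positivity
  have hinv : 1 / (4 * (m : ℝ)) * m = 1 / 4 := by field_simp
  obtain ⟨π, hπ⟩ : ∃ π : ℕ → ℝ, ∀ j, π j = if j < m then (j : ℝ) else m - 1 / 2 :=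
    ⟨_, fun _ => rfl⟩
  have hA : ∀ j < m, rk m π 0 j ≤ j := by
    intro j hj
    refine (sq_rk_le (Finset.range j) fun j' _ h2 h3 => ?_).trans (by simp)
    rw [Finset.mem_range]
    rw [hπ, hπ, if_pos hj] at h3
    have hjr : (j : ℝ) + 1 ≤ m := by exact_mod_cast hj
    split_ifs at h3 with h4
    · have : (j' : ℝ) ≤ j := by linarith
      have : j' ≤ j := by exact_mod_cast this
      omega
    · linarith
  have hB : ∀ j < m, rk m π (-(1 - 1 / (4 * m))) j ≤ j + 1 := by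
    intro j hj
    refine (sq_rk_le (insert m (Finset.range j)) fun j' h1 h2 h3 => ?_).trans
      ((Finset.card_insert_le _ _).trans (by simp))
    rw [Finset.mem_insert, Finset.mem_range]
    rw [hπ, hπ, if_pos hj] at h3
    split_ifs at h3 with h4
    · have h5 : 1 / (4 * (m : ℝ)) * j' ≤ 1 / (4 * (m : ℝ)) * j := by linarith
      have : (j' : ℝ) ≤ j := le_of_mul_le_mul_left h5 hpos
      have : j' ≤ j := by exact_mod_cast this
      omega
    · omega
  have hB' : rk m π (-(1 - 1 / (4 * m))) m ≤ 0 := by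
    refine (sq_rk_le ∅ fun j' h1 h2 h3 => ?_).trans (by simp)
    exfalso
    rw [hπ, hπ, if_pos (by omega), if_neg (lt_irrefl m)] at h3
    have : 0 ≤ 1 / (4 * (m : ℝ)) * j' := by positivity
    linarith
  have h1 := sq_aux (ι := Fin 11 ⊕ Fin (k ^ 2 - 11)) (k * m + e) k m (by omega)
    (by rw [add_mul, mul_comm m k]; omega) (fun _ => m) π
    (Sum.elim (fun _ => -(1 - 1 / (4 * m))) (fun _ => 0)) (fun _ => 0) ?_
  · have h2 : KE (tri (k * m + e + 1)) (fun _ : Fin (k ^ 2) => m) 0 := by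
      simpa using h1.reindex
        (Fintype.equivOfCardEq (α := Fin (k ^ 2)) (by simp; omega)) (fun _ => m) (fun _ => rfl)
    refine h2.mono fun s hs => ?_
    have : s 0 + s 1 < n := hs
    change s 0 + s 1 < k * m + e + 1
    rw [mul_assoc] at hn
    omega
  · intro j hj
    simp only [Fintype.sum_sum_type, Sum.elim_inl, Sum.elim_inr, Finset.sum_const,
      Finset.card_univ, Fintype.card_fin, smul_eq_mul, zero_add]
    rcases hj.lt_or_eq with hj | rfl
    · obtain ⟨t, rfl⟩ : ∃ t, m = j + t + 1 := ⟨m - j - 1, by omega⟩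
      have a1 : t + 1 ≤ j + t + 1 - rk (j + t + 1) π 0 j := by
        have := hA j hj
        omega
      have a2 : t ≤ j + t + 1 - rk (j + t + 1) π (-(1 - 1 / (4 * ((j + t + 1 : ℕ) : ℝ)))) j := by
        have := hB j hj
        omega
      rw [sq_rowLen _ k j (k * (t + 1) + e + 1) (by ring)]
      have a3 := sq_sum_sub k (k * (t + 1) + e + 1) (by nlinarith)
      have a4 := Nat.mul_le_mul_left 11 a2
      have a5 := Nat.mul_le_mul_left (k ^ 2 - 11) a1
      obtain ⟨u, hu⟩ : ∃ u, k ^ 2 = u + 11 := ⟨k ^ 2 - 11, by omega⟩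
      rw [hu, Nat.add_sub_cancel] at a5 ⊢
      have a6 : 2 * e + 5 ≤ k := by omega
      have a7 := Nat.mul_le_mul_left k a6
      have a8 : k * k * (t + 1) = (u + 11) * (t + 1) := by rw [← hu, sq]
      nlinarith
    · rw [sq_rowLen _ k j (e + 1) (by ring), tri_sum _ _ (by omega)]
      have a1 := two_mul_choose (e + 1)
      have a2 : j - rk j π (-(1 - 1 / (4 * (j : ℝ)))) j = j := by omega
      rw [a2]
      have a6 : 2 * e + 5 ≤ k := by omega
      have a7 := Nat.mul_le_mul a6 a6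
      nlinarith [Nat.zero_le ((k ^ 2 - 11) * (j - rk j π 0 j))]

theorem sq_up (k m n : ℕ) (hn : 2 * k * m + k ≤ 2 * n + 1) :
    ∃ e, e + k ^ 2 * (m + 1).choose 2 = (n + 1).choose 2 ∧
      KE (tri n) (fun _ : Fin (k ^ 2) => m) e := by
  rcases n with _ | d
  · refine ⟨0, ?_, ke_empty _ _⟩
    rcases Nat.eq_zero_or_pos k with rfl | hk
    · simp
    · have : m = 0 := by
        by_contra h
        have : 1 ≤ m := by omega
        nlinarith
      subst this
      simp
  obtain ⟨δ, hδ, hδk⟩ : ∃ δ, 0 < δ ∧ (k = 0 ∨ δ = k) := by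
    rcases Nat.eq_zero_or_pos k with h | h
    · exact ⟨1, one_pos, Or.inl h⟩
    · exact ⟨k, h, Or.inr rfl⟩
  have hJ : d < (d + m + 1) * δ := by nlinarith
  have hrow : ∀ j, k ^ 2 * (m - j) ≤ rowLen d δ j := by
    intro j
    rcases hδk with rfl | rfl
    · simp
    rcases le_or_gt m j with hj | hj
    · simp [Nat.sub_eq_zero_of_le hj]
    obtain ⟨t, rfl⟩ : ∃ t, m = j + t + 1 := ⟨m - j - 1, by omega⟩
    have a0 : j * δ + δ * (t + 1) ≤ d + 1 := by nlinarith
    obtain ⟨c, hc⟩ : ∃ c, d + 1 = j * δ + c := ⟨d + 1 - j * δ, by omega⟩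
    rw [sq_rowLen d δ j c hc, show j + t + 1 - j = t + 1 by omega]
    have a1 : δ * (t + 1) ≤ c := by omega
    have a3 := sq_sum_sub δ c (by nlinarith)
    have a4 : 2 * δ * (t + 1) + δ ≤ 2 * c + 1 := by nlinarith
    have a5 := Nat.mul_le_mul_left δ a4
    nlinarith
  have hrk : ∀ j, rk (d + m) (fun j => (j : ℝ)) 0 j ≤ j := by
    intro j
    refine (sq_rk_le (Finset.range j) fun j' _ h2 h3 => ?_).trans (by simp)
    have : (j' : ℝ) ≤ j := by linarith
    have : j' ≤ j := by exact_mod_cast this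
    rw [Finset.mem_range]
    omega
  refine ⟨∑ j ∈ Finset.range (d + m + 1), (rowLen d δ j - k ^ 2 * (m - j)), ?_,
    sq_aux d δ (d + m) hδ hJ _ (fun j => (j : ℝ)) (fun _ => 0) _ fun j _ => ?_⟩
  · rw [← tri_sum m (d + m + 1) (by omega), Finset.mul_sum, ← Finset.sum_add_distrib,
      ← sum_rowLen d δ (d + m) hJ]
    exact Finset.sum_congr rfl fun j _ => Nat.sub_add_cancel (hrow j)
  · simp only [Finset.sum_const, Finset.card_univ, Fintype.card_fin, smul_eq_mul]
    have a1 : m - j ≤ m - rk (d + m) (fun j => (j : ℝ)) 0 j := by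
      have := hrk j
      omega
    have a2 := Nat.mul_le_mul_left (k ^ 2) a1
    have := hrow j
    omega

end Pool.Agent.P.MP_8707bd_ag.Win
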