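import Mathlib
import Pool.Agent.P.MP_8707bd_ag.Win.Defs

/-!
The statement about the strip (helper file only).
-/

namespace Pool.Agent.P.MP_8707bd_ag.Win

/-- What the design of the strip delivers. -/
def StripMain : Prop :=
  ∃ (δ c : ℕ) (W0 η γ : ℝ), 0 < η ∧ η ≤ W0 ∧ 2 ≤ η * δ ∧ 0 < γ ∧
    ∀ (k s : ℕ) (W : ℝ), c ≤ k → |W - W0| < η → (s : ℝ) = 2 * δ * k * W + δ ^ 2 * W ^ 2 →
    ∀ (m J : ℕ) (Ω : ℕ → Finset ℕ), 0 < m →
      (|(J : ℝ) / m - W0| < η → (J : ℝ) / m ≤ W →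
        (∀ j ≤ J, ((Ω j).card : ℝ) ≤ δ * k * m + δ ^ 2 * (J - j) +
          γ * (s - 2 * δ * k * (J / m) - δ ^ 2 * (J / m) ^ 2) * m) →
        KE (strip J Ω) (fun _ : Fin s => m) 0) ∧
      (|(J : ℝ) / (m + 1) - W0| < η → W ≤ (J : ℝ) / (m + 1) →
        (∀ j ≤ J, δ * k * (m + 1) + δ ^ 2 * (J - j) +
          γ * (s - 2 * δ * k * (J / (m + 1)) - δ ^ 2 * (J / (m + 1)) ^ 2) * (m + 1) + c ≤
            ((Ω j).card : ℝ)) →
        ∃ e, e + s * (m + 1).choose 2 = ∑ j ∈ Finset.range (J + 1), (Ω j).card ∧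
          KE (strip J Ω) (fun _ : Fin s => m) e)

end Pool.Agent.P.MP_8707bd_ag.Win
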