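import Mathlib
import Pool.Agent.P.MP_8707bd_ag.Win.Strip
import Pool.Agent.P.MP_8707bd_ag.Win.Horace
import Pool.Agent.P.MP_8707bd_ag.Win.Square
import Pool.Agent.P.MP_8707bd_ag.Nag.FinalA

/-!
From the strip to the triangle (helper file only).
-/

namespace Pool.Agent.P.MP_8707bd_ag.Win

open MvPolynomial Row Irr All

theorem win_sqrt_le (r m : ℕ) : √(r * m * (m + 1) : ℝ) ≤ √(r : ℝ) * (m + 1 / 2) := by
  have h0 : (0 : ℝ) ≤ r := Nat.cast_nonneg _
  rw [Real.sqrt_le_left (by positivity), mul_pow, Real.sq_sqrt h0]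
  nlinarith

theorem win_le_sqrt (r m : ℕ) (h1 : 20 ≤ √(r : ℝ)) (h2 : r < 76 * (m + 1)) :
    √(r : ℝ) * (m + 1 / 2) - 1 ≤ √(r * m * (m + 1) : ℝ) := by
  have h0 : (0 : ℝ) ≤ r := Nat.cast_nonneg _
  have h3 : (r : ℝ) ≤ 76 * (m + 1) := by exact_mod_cast h2.le
  have h4 := Real.sq_sqrt h0
  have hm : (0 : ℝ) ≤ m := Nat.cast_nonneg _
  refine Real.le_sqrt_of_sq_le ?_
  have h5 : (400 : ℝ) ≤ r := by nlinarith
  have h6 : 20 * (2 * (m : ℝ) + 1) ≤ √(r : ℝ) * (2 * m + 1) :=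
    mul_le_mul_of_nonneg_right h1 (by positivity)
  have h7 : (√(r : ℝ) * (m + 1 / 2) - 1) ^ 2
      = r * (m + 1 / 2) ^ 2 - √(r : ℝ) * (2 * m + 1) + 1 := by
    rw [sub_sq, mul_pow, h4]
    ring
  rw [h7]
  nlinarith

theorem win_join {r s k m e : ℕ} {Ω : Set (Fin 2 →₀ ℕ)} (hr : r = s + k ^ 2)
    (h : KE Ω (Sum.elim (fun _ : Fin s => m) (fun _ : Fin (k ^ 2) => m)) e) :
    KE Ω (fun _ : Fin r => m) e := by
  refine h.reindex (Fintype.equivOfCardEq (α := Fin r) (by simp [hr])) _ fun a => ?_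
  generalize (Fintype.equivOfCardEq (α := Fin r) (β := Fin s ⊕ Fin (k ^ 2)) _) a = b
  rcases b with b | b <;> rfl

theorem window (H : StripMain) : ∃ r0 C : ℕ, ∀ r m d : ℕ, r0 ≤ r → r < 76 * (m + 1) →
    ((d : ℝ) + C ≤ √(r * m * (m + 1)) → KE (tri (d + 1)) (fun _ : Fin r => m) 0) ∧
    (√(r * m * (m + 1)) + C ≤ (d : ℝ) → ∃ e, e + r * (m + 1).choose 2 = (d + 2).choose 2 ∧
      KE (tri (d + 1)) (fun _ : Fin r => m) e) := by
  obtain ⟨δ, c, W0, η, γ, hη, hηW, hηδ, hγ, H⟩ := H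
  have hδ : 0 < δ := by
    rcases Nat.eq_zero_or_pos δ with h | h
    · subst h
      simp only [Nat.cast_zero, mul_zero] at hηδ
      linarith
    · exact h
  have hδ1 : (1 : ℝ) ≤ δ := by exact_mod_cast hδ
  have hδ0 : (0 : ℝ) < δ := by linarith
  have hW0 : 0 < W0 := by linarith
  have hc0 : (0 : ℝ) ≤ c := Nat.cast_nonneg _
  obtain ⟨a, ha⟩ : ∃ a : ℕ, 1 / 2 ≤ γ * a := by
    refine ⟨⌈1 / (2 * γ)⌉₊, ?_⟩
    have h1 := mul_le_mul_of_nonneg_left (Nat.le_ceil (1 / (2 * γ))) hγ.le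
    have h2 : γ * (1 / (2 * γ)) = 1 / 2 := by field_simp
    linarith
  have ha0 : (0 : ℝ) ≤ a := Nat.cast_nonneg _
  obtain ⟨m0, hm0⟩ : ∃ m0 : ℕ, 2 * ((a : ℝ) + 1) ≤ η * m0 := by
    refine ⟨⌈2 * ((a : ℝ) + 1) / η⌉₊, ?_⟩
    have h1 := mul_le_mul_of_nonneg_left (Nat.le_ceil (2 * ((a : ℝ) + 1) / η)) hη.le
    have h2 : η * (2 * ((a : ℝ) + 1) / η) = 2 * ((a : ℝ) + 1) := by field_simp
    linarith
  obtain ⟨q, hq⟩ : ∃ q : ℕ, δ * W0 + c + 26 ≤ q := ⟨_, Nat.le_ceil _⟩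
  obtain ⟨C, hC⟩ : ∃ C : ℕ, δ * ((a : ℝ) + 2) + δ * (W0 + η) + c + δ + 3 ≤ C :=
    ⟨_, Nat.le_ceil _⟩
  refine ⟨q ^ 2 + 76 * (m0 + 1), C, fun r m d hr hrm => ?_⟩
  have hr0 : (0 : ℝ) ≤ r := Nat.cast_nonneg _
  have hρ : δ * W0 + c + 26 ≤ √(r : ℝ) := by
    refine hq.trans (Real.le_sqrt_of_sq_le ?_)
    exact_mod_cast (by omega : q ^ 2 ≤ r)
  have hδW : 0 ≤ δ * W0 := by positivity
  have hup := win_sqrt_le r m
  have hlo := win_le_sqrt r m (by linarith) hrm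
  have hsq := Real.sq_sqrt hr0
  have hmm : (m0 : ℝ) ≤ m := by exact_mod_cast (by omega : m0 ≤ m)
  have hmη : 2 * ((a : ℝ) + 1) ≤ η * m := hm0.trans (mul_le_mul_of_nonneg_left hmm hη.le)
  have hm : (0 : ℝ) < m := by
    by_contra h
    have : η * m ≤ 0 := mul_nonpos_of_nonneg_of_nonpos hη.le (not_lt.1 h)
    linarith
  have hm' : 0 < m := by exact_mod_cast hm
  generalize √(r * m * (m + 1) : ℝ) = R at hup hlo ⊢
  generalize √(r : ℝ) = ρ at hρ hup hlo hsq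
  obtain ⟨k, hk1, hk2⟩ : ∃ k : ℕ, (k : ℝ) ≤ ρ - δ * W0 ∧ ρ - δ * W0 < k + 1 :=
    ⟨⌊ρ - δ * W0⌋₊, Nat.floor_le (by linarith), Nat.lt_floor_add_one _⟩
  have hk0 : (0 : ℝ) ≤ k := Nat.cast_nonneg _
  have hkc : c + 25 ≤ k := by
    have : ((c + 25 : ℕ) : ℝ) < k := by push_cast; linarith
    exact_mod_cast this.le
  obtain ⟨W, hW⟩ : ∃ W : ℝ, ρ = k + δ * W := ⟨(ρ - k) / δ, by field_simp; ring⟩
  have hW1 : W0 ≤ W := le_of_mul_le_mul_left (by linarith) hδ0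
  have hW2 : W < W0 + η / 2 := lt_of_mul_lt_mul_left (by linarith) hδ0.le
  have hWp : 0 ≤ W := by linarith
  have hkr : k ^ 2 ≤ r := by
    have : ((k ^ 2 : ℕ) : ℝ) ≤ r := by
      push_cast
      rw [← hsq]
      exact pow_le_pow_left₀ hk0 (by linarith) 2
    exact_mod_cast this
  obtain ⟨s, hs⟩ : ∃ s, r = s + k ^ 2 := ⟨r - k ^ 2, by omega⟩
  have hs' : (s : ℝ) = 2 * δ * k * W + δ ^ 2 * W ^ 2 := by
    have : (r : ℝ) = s + k ^ 2 := by exact_mod_cast hs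
    rw [hW] at hsq
    linarith
  have H' := H k s W (by omega) (abs_lt.2 ⟨by linarith, by linarith⟩) hs'
  have hδk : (0 : ℝ) ≤ δ * k := by positivity
  have hδWb : δ * W ≤ δ * (W0 + η) := mul_le_mul_of_nonneg_left (by linarith) hδ0.le
  have hδWp : 0 ≤ δ * W := by positivity
  have hδa : 0 ≤ (δ : ℝ) * a := by positivity
  have hηm : η * m ≤ W * m := mul_le_mul_of_nonneg_right (by linarith) hm.le
  have hga : δ * k ≤ γ * (2 * (δ * k) * a) := by
    have := mul_le_mul_of_nonneg_left ha hδk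
    linarith only [this]
  constructor
  · intro hd
    obtain ⟨J, hJ1, hJ2⟩ : ∃ J : ℕ, (J : ℝ) ≤ W * m - a ∧ W * m - a < J + 1 :=
      ⟨⌊W * m - a⌋₊, Nat.floor_le (by linarith), Nat.lt_floor_add_one _⟩
    have hJ0 : (0 : ℝ) ≤ J := Nat.cast_nonneg _
    obtain ⟨V, hV⟩ : ∃ V : ℝ, V = J / m := ⟨_, rfl⟩
    have hVm : V * m = J := by rw [hV]; field_simp
    have hV0 : 0 ≤ V := by rw [hV]; positivity
    have hV1 : V ≤ W := le_of_mul_le_mul_right (by linarith) hm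
    have hV2 : W0 - η < V := by
      refine lt_of_mul_lt_mul_right (a := (m : ℝ)) ?_ hm.le
      have := mul_le_mul_of_nonneg_right hW1 hm.le
      linarith
    have hd1 : (d : ℝ) + C ≤ k * m + k / 2 + δ * (J + 1 + a) + δ * W / 2 := by
      have h1 : δ * (W * m) ≤ δ * (J + 1 + a) := mul_le_mul_of_nonneg_left (by linarith) hδ0.le
      rw [hW] at hup
      linarith
    have hΔ : δ * k ≤ γ * (s - 2 * δ * k * V - δ ^ 2 * V ^ 2) * m := by
      have h1 : 0 ≤ (δ : ℝ) ^ 2 * (W ^ 2 - V ^ 2) * m :=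
        mul_nonneg (mul_nonneg (by positivity)
          (sub_nonneg.2 (pow_le_pow_left₀ hV0 hV1 2))) hm.le
      have h2 : 2 * (δ * k) * a ≤ 2 * (δ * k) * (W * m - V * m) :=
        mul_le_mul_of_nonneg_left (by linarith) (by positivity)
      have h3 : 2 * (δ * k) * a ≤ (s - 2 * δ * k * V - δ ^ 2 * V ^ 2) * m := by
        rw [hs']
        linarith
      have h4 := mul_le_mul_of_nonneg_left h3 hγ.le
      linarith
    have h1 := (H' m J (thin d δ) hm').1 (by rw [← hV]; exact abs_lt.2 ⟨by linarith, by linarith⟩)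
      (by rw [← hV]; exact hV1) ?_
    · have h2 := sq_low k m (d + 1 - (J + 1) * δ) (by omega) (by omega) ?_
      · exact win_join hs (horace d δ J hδ _ _ 0 0 h1 h2)
      · rcases le_total (d + 1) ((J + 1) * δ) with h | h
        · rw [Nat.sub_eq_zero_of_le h]
          omega
        · have : ((2 * (d + 1 - (J + 1) * δ) + 3 : ℕ) : ℝ) ≤ ((2 * k * m + k : ℕ) : ℝ) := by
            push_cast [Nat.cast_sub h]
            linarith
          exact_mod_cast this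
    · intro j hj
      have hjr : (j : ℝ) ≤ J := by exact_mod_cast hj
      rw [thin_card, ← hV]
      rcases Nag.rowLen_le d δ j with h | h
      · rw [h]
        have a1 : (0 : ℝ) ≤ δ * k * m := by positivity
        have a2 : (0 : ℝ) ≤ δ ^ 2 * (J - j) := mul_nonneg (by positivity) (by linarith)
        push_cast
        linarith
      · have a1 : (δ : ℝ) * (d + 1) ≤ δ * (k * m + δ * J + k) :=
          mul_le_mul_of_nonneg_left (by linarith) hδ0.le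
        linarith
  · intro hd
    have hM : (0 : ℝ) < m + 1 := by linarith
    obtain ⟨J, hJ1, hJ2⟩ : ∃ J : ℕ, W * (m + 1) + a ≤ J ∧ (J : ℝ) < W * (m + 1) + a + 1 :=
      ⟨⌈W * (m + 1) + a⌉₊, Nat.le_ceil _, Nat.ceil_lt_add_one (by positivity)⟩
    obtain ⟨V, hV⟩ : ∃ V : ℝ, V = J / (m + 1) := ⟨_, rfl⟩
    have hVm : V * (m + 1) = J := by rw [hV]; field_simp
    have hV1 : W ≤ V := le_of_mul_le_mul_right (by linarith) hM
    have hV2 : V < W0 + η := by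
      refine lt_of_mul_lt_mul_right (a := (m : ℝ) + 1) ?_ hM.le
      have := mul_le_mul_of_nonneg_right hW2.le hM.le
      linarith
    have hd1 : k * m + k / 2 + δ * (J - 1 - a) - δ * W / 2 + C ≤ (d : ℝ) + 1 := by
      have h1 : δ * (J - 1 - a) ≤ δ * (W * (m + 1)) :=
        mul_le_mul_of_nonneg_left (by linarith) hδ0.le
      rw [hW] at hlo
      linarith
    have hΔ : γ * (s - 2 * δ * k * V - δ ^ 2 * V ^ 2) * (m + 1) ≤ -(δ * k) := by
      have h1 : 0 ≤ (δ : ℝ) ^ 2 * (V ^ 2 - W ^ 2) * (m + 1) :=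
        mul_nonneg (mul_nonneg (by positivity)
          (sub_nonneg.2 (pow_le_pow_left₀ hWp hV1 2))) hM.le
      have h2 : 2 * (δ * k) * a ≤ 2 * (δ * k) * (V * (m + 1) - W * (m + 1)) :=
        mul_le_mul_of_nonneg_left (by linarith) (by positivity)
      have h3 : (s - 2 * δ * k * V - δ ^ 2 * V ^ 2) * (m + 1) ≤ -(2 * (δ * k) * a) := by
        rw [hs']
        linarith
      have h4 := mul_le_mul_of_nonneg_left h3 hγ.le
      linarith
    obtain ⟨e, he, h1⟩ := (H' m J (thin d δ) hm').2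
      (by rw [← hV]; exact abs_lt.2 ⟨by linarith, by linarith⟩) (by rw [← hV]; exact hV1) (by
        intro j hj
        rw [thin_card, ← hV]
        have h := Nag.le_rowLen d δ j
        have a1 : (δ : ℝ) * (k * m + δ * J + c + δ / 2) ≤ δ * (d + 1) :=
          mul_le_mul_of_nonneg_left (by linarith) hδ0.le
        have a2 : (c : ℝ) ≤ δ * c := le_mul_of_one_le_left hc0 hδ1
        linarith)
    obtain ⟨e', he', h2⟩ := sq_up k m (d + 1 - (J + 1) * δ) (by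
      have a1 : d + 1 ≤ (d + 1 - (J + 1) * δ) + (J + 1) * δ := by omega
      have a2 : (d : ℝ) + 1 ≤ ((d + 1 - (J + 1) * δ : ℕ) : ℝ) + (J + 1) * δ := by
        exact_mod_cast a1
      have : ((2 * k * m + k : ℕ) : ℝ) ≤ ((2 * (d + 1 - (J + 1) * δ) + 1 : ℕ) : ℝ) := by
        rw [Nat.cast_add (2 * _), Nat.cast_mul 2 (d + 1 - (J + 1) * δ)]
        generalize ((d + 1 - (J + 1) * δ : ℕ) : ℝ) = n at a2 ⊢
        push_cast
        linarith
      exact_mod_cast this)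
    refine ⟨e + e', ?_, win_join hs (horace d δ J hδ _ _ e e' h1 h2)⟩
    simp only [thin_card] at he
    rw [← sum_rowLen_add d δ J, ← he, ← he', hs]
    ring

end Pool.Agent.P.MP_8707bd_ag.Win
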