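import Mathlib
import Pool.Agent.P.MP_8707bd_ag.Main
import Pool.Agent.P.MP_8707bd_ag.Win.Window
import Pool.Agent.P.MP_8707bd_ag.Win.TransferE
import Pool.Agent.P.MP_8707bd_ag.Win.NoFix

/-!
All degrees outside a bounded window (helper file only).
-/

namespace Pool.Agent.P.MP_8707bd_ag.Win

open MvPolynomial Finset

theorem final_of_strip (H : StripMain) : ∃ r0 C : ℕ, ∀ r m d : ℕ, r0 ≤ r → 1 ≤ m →
    ((d : ℝ) + C ≤ √(r * m * (m + 1)) ∨ √(r * m * (m + 1)) + C ≤ (d : ℝ)) →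
    ∃ Φ : MvPolynomial (Fin r × Fin 3) ℂ, Φ ≠ 0 ∧ ∀ p : Fin r → Fin 3 → ℂ,
      MvPolynomial.eval (fun ij : Fin r × Fin 3 => p ij.1 ij.2) Φ ≠ 0 →
      Module.finrank ℂ (fat p (fun _ => m) d) = (d + 2).choose 2 - r * (m + 1).choose 2 ∧
      ∀ (F : MvPolynomial (Fin 3) ℂ) (e : ℕ) (n : Fin r → ℕ), F ≠ 0 → F.IsHomogeneous e →
        (∀ i, F ∉ ptIdeal (p i) ^ (n i + 1)) → ∑ i, n i + 1 = 3 * e →
        (∀ G ∈ fat p (fun _ => m) d, F ^ 2 ∣ G) → fat p (fun _ => m) d = ⊥ := by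
  obtain ⟨r0, C, H⟩ := window H
  refine ⟨r0, C + 1, fun r m d hr hm hd => ?_⟩
  by_cases h76 : 76 * (m + 1) ≤ r
  · exact main r m d hm h76
  have hX : (∏ i : Fin r, X (i, 2) : MvPolynomial (Fin r × Fin 3) ℂ) ≠ 0 :=
    prod_ne_zero_iff.2 fun i _ => X_ne_zero _
  push_cast at hd
  rcases hd with hd | hd
  · obtain ⟨Φ, h0, hΦ⟩ := transferE _ d 0 ((H r m d hr (by omega)).1 (by linarith))
    refine ⟨(∏ i, X (i, 2)) * Φ, mul_ne_zero hX h0, fun p hp => ?_⟩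
    simp only [map_mul, map_prod, eval_X, mul_ne_zero_iff, prod_ne_zero_iff, mem_univ,
      forall_const] at hp
    have h1 := hΦ p hp.2
    have L := lower_bound p hp.1 m d
    have h2 : Module.finrank ℂ (fat p (fun _ => m) d) = 0 := by omega
    exact ⟨by omega, fun _ _ _ _ _ _ _ _ => Submodule.finrank_eq_zero.1 h2⟩
  · have hC : (0 : ℝ) ≤ C := Nat.cast_nonneg _
    have hs : (0 : ℝ) ≤ √(r * m * (m + 1)) := Real.sqrt_nonneg _
    obtain ⟨d, rfl⟩ : ∃ d', d = d' + 1 := by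
      rcases d with _ | d
      · exfalso
        simp only [Nat.cast_zero] at hd
        linarith
      · exact ⟨d, rfl⟩
    push_cast at hd
    obtain ⟨e1, a1, b1⟩ := (H r m d hr (by omega)).2 (by linarith)
    obtain ⟨e2, a2, b2⟩ := (H r m (d + 1) hr (by omega)).2 (by push_cast; linarith)
    obtain ⟨Φ1, h1, hΦ1⟩ := transferE _ d e1 b1
    obtain ⟨Φ2, h2, hΦ2⟩ := transferE _ (d + 1) e2 b2
    refine ⟨(∏ i, X (i, 2)) * (Φ1 * Φ2), mul_ne_zero hX (mul_ne_zero h1 h2), fun p hp => ?_⟩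
    simp only [map_mul, map_prod, eval_X, mul_ne_zero_iff, prod_ne_zero_iff, mem_univ,
      forall_const] at hp
    have c1 := hΦ1 p hp.2.1
    have c2 := hΦ2 p hp.2.2
    have L := lower_bound p hp.1 m (d + 1)
    refine ⟨by omega, fun F e n _ hF _ hs hall => ?_⟩
    exact absurd (fun G hG => (dvd_pow_self F two_ne_zero).trans (hall G hG))
      (nofix p hp.1 m d (by omega) F e (by omega) hF)

end Pool.Agent.P.MP_8707bd_ag.Win
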