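import Mathlib
import Pool.Agent.P.MP_8707bd_ag.Win.TreeM
import Pool.Agent.P.MP_8707bd_ag.Nag.FinalA

/-!
The continuum forms of the tree criterion on a strip (helper file only).
-/

namespace Pool.Agent.P.MP_8707bd_ag.Win

open MvPolynomial Row Irr All Filter Topology

/-- A small parameter turns the lexicographic prices into real prices. -/
lemma exists_eps {ι : Type} [Fintype ι] {p : ℕ} (J : ℕ) (M : ℝ) (hM : 0 < M)
    (g : ι → ℝ → Fin p → ℝ) (h : ι → Fin p → ℝ) :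
    ∃ ε : ℝ, 0 < ε ∧ ∀ t, ∀ j ≤ J, ∀ j' ≤ J,
      (∑ i : Fin p, ε ^ (i : ℕ) * h t i) * j + ∑ i : Fin p, ε ^ (i : ℕ) * (M * g t (j / M) i) ≤
        (∑ i : Fin p, ε ^ (i : ℕ) * h t i) * j' +
          ∑ i : Fin p, ε ^ (i : ℕ) * (M * g t (j' / M) i) →
      LexLe (fun i => h t i * ((j : ℝ) / M) + g t (j / M) i)
        (fun i => h t i * ((j' : ℝ) / M) + g t (j' / M) i) := by
  have e2 : ∀ᶠ ε in 𝓝[>] (0 : ℝ), ∀ s : ι × Fin (J + 1) × Fin (J + 1),
      ∑ i : Fin p, ε ^ (i : ℕ) *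
          (M * (h s.1 i * ((s.2.1 : ℕ) / M) + g s.1 ((s.2.1 : ℕ) / M) i))
        ≤ ∑ i : Fin p, ε ^ (i : ℕ) *
          (M * (h s.1 i * ((s.2.2 : ℕ) / M) + g s.1 ((s.2.2 : ℕ) / M) i)) →
      LexLe (fun i => M * (h s.1 i * ((s.2.1 : ℕ) / M) + g s.1 ((s.2.1 : ℕ) / M) i))
        (fun i => M * (h s.1 i * ((s.2.2 : ℕ) / M) + g s.1 ((s.2.2 : ℕ) / M) i)) :=
    eventually_all.2 fun s => lex_ev _ _
  obtain ⟨ε, hε2, hε0⟩ := (e2.and self_mem_nhdsWithin).exists
  refine ⟨ε, hε0, fun t j hj j' hj' hle => LexLe.of_smul hM ?_⟩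
  have hHG : ∀ j : ℕ, (∑ i : Fin p, ε ^ (i : ℕ) * h t i) * j +
      ∑ i : Fin p, ε ^ (i : ℕ) * (M * g t (j / M) i) =
      ∑ i : Fin p, ε ^ (i : ℕ) * (M * (h t i * (j / M) + g t (j / M) i)) := by
    intro j
    rw [Finset.sum_mul, ← Finset.sum_add_distrib]
    refine Finset.sum_congr rfl fun i _ => ?_
    field_simp
  refine hε2 (t, ⟨j, by omega⟩, ⟨j', by omega⟩) ?_
  simp only
  rw [← hHG, ← hHG]
  exact hle

/-- The recursion of the prices along the tree. -/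
lemma price_rec {p : ℕ} (ε M : ℝ) (l : ℕ) (hl : l < p) (a b : Fin p → ℝ) (e : ℝ)
    (hab : ∀ i : Fin p, a i = b i + if (i : ℕ) = l then e else 0) :
    ∑ i : Fin p, ε ^ (i : ℕ) * (M * a i) =
      ∑ i : Fin p, ε ^ (i : ℕ) * (M * b i) + ε ^ l * (M * e) := by
  have h1 : ∀ i : Fin p, ε ^ (i : ℕ) * (M * a i) = ε ^ (i : ℕ) * (M * b i) +
      if i = ⟨l, hl⟩ then ε ^ l * (M * e) else 0 := by
    intro i
    rw [hab]
    by_cases hi : (i : ℕ) = l
    · have h2 : i = ⟨l, hl⟩ := Fin.ext hi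
      rw [if_pos hi, if_pos h2, hi]
      ring
    · have h2 : ¬ i = ⟨l, hl⟩ := fun h3 => hi (by rw [h3])
      rw [if_neg hi, if_neg h2]
      ring
  rw [Finset.sum_congr rfl fun i _ => h1 i, Finset.sum_add_distrib,
    Finset.sum_ite_eq' Finset.univ, if_pos (Finset.mem_univ _)]

theorem cont_low {ι : Type} [Fintype ι] (W : ℝ) {p : ℕ} (s : ℕ)
    (hs : 0 < s) (N μ ph : ι → ℕ) (hph : ∀ t, ph t < s) (par : ℕ → ℕ)
    (hpar : ∀ k, 0 < k → k < s → par k < k) (lev : ℕ → ℕ)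
    (hlev : ∀ k, 0 < k → k < s → lev k < p) (g : ℕ → ℝ → Fin p → ℝ) (E : ℕ → ℝ → ℝ)
    (hg : ∀ k, 0 < k → k < s → ∀ x, ∀ i : Fin p,
      g k x i = g (par k) x i + if (i : ℕ) = lev k then E k x else 0)
    (h : ι → Fin p → ℝ) (ℓ : ι → ℝ → ℝ)
    (hℓ : ∀ t x, 0 ≤ x → x ≤ W → ℓ t x ≤ 0 ∨ Irr.Cov (RankRel (g (ph t)) (h t) x) (μ t - ℓ t x))
    (hk : ∀ k, 0 < k → k < s → ∀ x, 0 ≤ x → x ≤ W → E k x ≤
      (∑ t, if ph t = k then N t * ℓ t x else 0) +
        ∑ k' ∈ Finset.Ioo 0 s, if par k' = k then E k' x else 0)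
    (m J : ℕ) (hm : 0 < m) (hJ : (J : ℝ) ≤ W * m) (Ω : ℕ → Finset ℕ)
    (hroot : ∀ j ≤ J, ((Ω j).card : ℝ) ≤ m *
      ((∑ t, if ph t = 0 then N t * ℓ t (j / m) else 0) +
        ∑ k' ∈ Finset.Ioo 0 s, if par k' = 0 then E k' (j / m) else 0)) :
    KE (strip J Ω) (fun a : Σ t, Fin (N t) => μ a.1 * m) 0 := by
  classical
  set M : ℝ := (m : ℝ) with hMdef
  have hM : 0 < M := by rw [hMdef]; exact_mod_cast hm
  obtain ⟨ε, hε, hε2⟩ := exists_eps J M hM (fun t => g (ph t)) h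
  set G : ℕ → ℕ → ℝ := fun k j => ∑ i : Fin p, ε ^ (i : ℕ) * (M * g k (j / M) i) with hG
  set H : ι → ℝ := fun t => ∑ i : Fin p, ε ^ (i : ℕ) * h t i with hH
  have hx0 : ∀ j : ℕ, (0 : ℝ) ≤ j / M := fun j => by positivity
  have hxL : ∀ j ≤ J, (j : ℝ) / M ≤ W := by
    intro j hj
    rw [div_le_iff₀ hM]
    have : (j : ℝ) ≤ J := by exact_mod_cast hj
    linarith
  have hrk : ∀ t, ∀ j ≤ J,
      M * ℓ t (j / M) ≤ ((μ t * m - rk J (G (ph t)) (H t) j : ℕ) : ℝ) := by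
    intro t j hj
    rcases hℓ t _ (hx0 j) (hxL j hj) with h4 | ht
    · have h5 : (0 : ℝ) ≤ ((μ t * m - rk J (G (ph t)) (H t) j : ℕ) : ℝ) := by positivity
      nlinarith [mul_nonneg hM.le (neg_nonneg.2 h4)]
    have h1 : (rk J (G (ph t)) (H t) j : ℝ) + 1 ≤ M * (μ t - ℓ t (j / M)) + 1 := by
      have h2 := card_le_of_cov hM ht (insert j ((Finset.range (J + 1)).filter
        fun j' : ℕ => j' ≠ j ∧ H t * j' + G (ph t) j' ≤ H t * j + G (ph t) j)) (by
          intro j' hj'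
          rcases Finset.mem_insert.1 hj' with rfl | hj'
          · exact ⟨hx0 _, fun i _ => le_rfl⟩
          simp only [Finset.mem_filter, Finset.mem_range] at hj'
          exact ⟨hx0 _, hε2 t j' (by omega) j hj hj'.2.2⟩)
      rw [Finset.card_insert_of_notMem (by simp)] at h2
      push_cast at h2
      exact h2
    have h2 : μ t * m ≤ (μ t * m - rk J (G (ph t)) (H t) j) + rk J (G (ph t)) (H t) j := by omega
    have h3 : (μ t : ℝ) * M ≤
        ((μ t * m - rk J (G (ph t)) (H t) j : ℕ) : ℝ) + rk J (G (ph t)) (H t) j := by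
      rw [hMdef]
      exact_mod_cast h2
    linarith
  have hkey : ∀ k, ∀ j ≤ J,
      M * ((∑ t, if ph t = k then N t * ℓ t (j / M) else 0) +
        ∑ k' ∈ Finset.Ioo 0 s, if par k' = k then E k' (j / M) else 0) ≤
      ((0 + (∑ a : (Σ t, Fin (N t)), if ph a.1 = k then
          μ a.1 * m - rk J (G k) (H a.1) j else 0) +
        ∑ k' ∈ Finset.Ioo 0 s, if par k' = k then ⌈M * E k' (j / M)⌉₊ else 0 : ℕ) : ℝ) := by
    intro k j hj
    rw [zero_add, Nat.cast_add, Nat.cast_sum, Nat.cast_sum, mul_add, Finset.mul_sum,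
      Finset.mul_sum, Fintype.sum_sigma]
    refine add_le_add (Finset.sum_le_sum fun t _ => ?_) (Finset.sum_le_sum fun k' _ => ?_)
    · simp only [Finset.sum_const, Finset.card_univ, Fintype.card_fin, nsmul_eq_mul]
      split_ifs with hp
      · have h5 := hrk t j hj
        rw [hp] at h5
        have hNt : (0 : ℝ) ≤ N t := by positivity
        nlinarith [mul_le_mul_of_nonneg_left h5 hNt]
      · simp
    · split_ifs
      · exact Nat.le_ceil _
      · simp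
  have key := treeM J s Ω hs (fun a : (Σ t, Fin (N t)) => μ a.1 * m) (fun a => ph a.1)
    (fun a => hph a.1) par hpar (fun k => ε ^ lev k) (fun k _ _ => pow_pos hε _) G
    (fun k j => M * E k (j / M))
    (fun k hk0 hks j _ => price_rec ε M (lev k) (hlev k hk0 hks) _ _ _ (hg k hk0 hks _))
    (fun a => H a.1) (fun _ _ => 0)
    (fun j hj => by exact_mod_cast (hroot j hj).trans (hkey 0 j hj))
    (fun k hk0 hks j hj => Nat.ceil_le.2 (le_trans
      (mul_le_mul_of_nonneg_left (hk k hk0 hks _ (hx0 j) (hxL j hj)) hM.le) (hkey k j hj)))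
  simpa using key

/-- A small change of slope keeps strict inequalities and removes ties. -/
lemma exists_theta {ι : Type} [Fintype ι] (J : ℕ) (H : ι → ℝ) (G : ι → ℕ → ℝ) :
    ∃ θ : ℝ, ∀ t, ∀ j ≤ J, ∀ j' ≤ J,
      (H t * j' + G t j' < H t * j + G t j → (H t + θ) * j' + G t j' < (H t + θ) * j + G t j) ∧
      ((H t + θ) * j + G t j = (H t + θ) * j' + G t j' → j = j') := by
  have e1 : ∀ (a b : ℝ), ∀ᶠ θ in 𝓝[>] (0 : ℝ), (0 < a → 0 < a + θ * b) ∧ (a + θ * b = 0 → b = 0) := by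
    intro a b
    have hc : Tendsto (fun θ : ℝ => a + θ * b) (𝓝[>] 0) (𝓝 a) := by
      have h1 : Continuous fun θ : ℝ => a + θ * b := by fun_prop
      have h2 := h1.tendsto 0
      rw [zero_mul, add_zero] at h2
      exact h2.mono_left nhdsWithin_le_nhds
    refine Eventually.and ?_ ?_
    · by_cases ha : 0 < a
      · exact (hc.eventually (lt_mem_nhds ha)).mono fun θ h _ => h
      · exact Eventually.of_forall fun θ h => absurd h ha
    · by_cases ha : a = 0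
      · refine eventually_mem_nhdsWithin.mono fun θ hθ h => ?_
        rw [ha, zero_add] at h
        exact (mul_eq_zero.1 h).resolve_left (ne_of_gt hθ)
      · exact (hc.eventually (eventually_ne_nhds ha)).mono fun θ h h' => absurd h' h
  have e2 : ∀ᶠ θ in 𝓝[>] (0 : ℝ), ∀ s : ι × Fin (J + 1) × Fin (J + 1),
      (0 < H s.1 * (s.2.1 : ℕ) + G s.1 s.2.1 - (H s.1 * (s.2.2 : ℕ) + G s.1 s.2.2) →
        0 < H s.1 * (s.2.1 : ℕ) + G s.1 s.2.1 - (H s.1 * (s.2.2 : ℕ) + G s.1 s.2.2) +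
          θ * (((s.2.1 : ℕ) : ℝ) - (s.2.2 : ℕ))) ∧
      (H s.1 * (s.2.1 : ℕ) + G s.1 s.2.1 - (H s.1 * (s.2.2 : ℕ) + G s.1 s.2.2) +
          θ * (((s.2.1 : ℕ) : ℝ) - (s.2.2 : ℕ)) = 0 → ((s.2.1 : ℕ) : ℝ) - (s.2.2 : ℕ) = 0) :=
    eventually_all.2 fun s => e1 _ _
  obtain ⟨θ, hθ⟩ := e2.exists
  refine ⟨θ, fun t j hj j' hj' => ?_⟩
  obtain ⟨h1, h2⟩ := hθ (t, ⟨j, by omega⟩, ⟨j', by omega⟩)
  simp only at h1 h2
  refine ⟨fun h => by linarith [h1 (by linarith)], fun h => ?_⟩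
  have h3 := h2 (by linarith)
  exact_mod_cast sub_eq_zero.1 h3

/-- Integers in a scaled open interval. -/
lemma le_card_of_covL {R : ℝ → Prop} {len M : ℝ} (hM : 0 < M) (h : CovL R len)
    (h0 : ∀ y, R y → 0 ≤ y) (s : Finset ℕ) (hs : ∀ j : ℕ, R (j / M) → j ∈ s) :
    M * len - 1 ≤ s.card := by
  obtain ⟨lo, h⟩ := h
  rcases le_or_gt len 0 with hl | hl
  · have h1 : (0 : ℝ) ≤ s.card := by positivity
    nlinarith [mul_nonneg hM.le (neg_nonneg.2 hl)]
  have hlo : 0 ≤ lo := by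
    by_contra hc
    push Not at hc
    have h1 : lo < min 0 (lo + len) := lt_min hc (by linarith)
    have h2 := h0 _ (h ((lo + min 0 (lo + len)) / 2) (by linarith)
      (by linarith [min_le_right 0 (lo + len)]))
    linarith [min_le_left 0 (lo + len)]
  have hsub : Finset.Ioo ⌊M * lo⌋₊ ⌈M * (lo + len)⌉₊ ⊆ s := by
    intro j hj
    obtain ⟨h1, h2⟩ := Finset.mem_Ioo.1 hj
    rw [Nat.floor_lt (by positivity)] at h1
    rw [Nat.lt_ceil] at h2
    refine hs j (h _ ?_ ?_)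
    · rw [lt_div_iff₀ hM]; linarith
    · rw [div_lt_iff₀ hM]; linarith
  have h1 := Finset.card_le_card hsub
  rw [Nat.card_Ioo] at h1
  have h2 : ⌈M * (lo + len)⌉₊ ≤ s.card + ⌊M * lo⌋₊ + 1 := by omega
  have h3 : (⌈M * (lo + len)⌉₊ : ℝ) ≤ s.card + ⌊M * lo⌋₊ + 1 := by exact_mod_cast h2
  have h4 := Nat.le_ceil (M * (lo + len))
  have h5 := Nat.floor_le (show 0 ≤ M * lo by positivity)
  linarith

lemma sum_pow_le (s k : ℕ) (hk : k < s) :
    ∑ k' ∈ Finset.Ioo k s, (2 : ℝ) ^ (s - k') = 2 ^ (s - k) - 2 := by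
  obtain ⟨n, rfl⟩ : ∃ n, s = k + n + 1 := ⟨s - k - 1, by omega⟩
  clear hk
  induction n generalizing k with
  | zero =>
    rw [show Finset.Ioo k (k + 0 + 1) = ∅ by ext x; simp]
    simp
  | succ n ih =>
    have h1 : Finset.Ioo k (k + (n + 1) + 1) = insert (k + 1) (Finset.Ioo (k + 1) (k + 1 + n + 1)) := by
      ext x
      simp only [Finset.mem_Ioo, Finset.mem_insert]
      omega
    have h2 := ih (k + 1)
    rw [h1, Finset.sum_insert (by simp), show k + (n + 1) + 1 = k + 1 + n + 1 by omega, h2,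
      show k + 1 + n + 1 - (k + 1) = n + 1 by omega, show k + 1 + n + 1 - k = n + 1 + 1 by omega]
    ring

theorem cont_up {ι : Type} [Fintype ι] (W : ℝ) {p : ℕ} (s : ℕ)
    (hs : 0 < s) (N μ ph : ι → ℕ) (hph : ∀ t, ph t < s) (par : ℕ → ℕ)
    (hpar : ∀ k, 0 < k → k < s → par k < k) (lev : ℕ → ℕ)
    (hlev : ∀ k, 0 < k → k < s → lev k < p) (g : ℕ → ℝ → Fin p → ℝ) (E : ℕ → ℝ → ℝ)
    (hg : ∀ k, 0 < k → k < s → ∀ x, ∀ i : Fin p,
      g k x i = g (par k) x i + if (i : ℕ) = lev k then E k x else 0)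
    (h : ι → Fin p → ℝ) (ℓ : ι → ℝ → ℝ) (hμ : ∀ t, (μ t : ℝ) ≤ W)
    (hℓ : ∀ t x, 0 ≤ x → x ≤ W →
      0 ≤ ℓ t x ∧ CovL (Cheap W (g (ph t)) (h t) x) (μ t - ℓ t x))
    (hE : ∀ k, 0 < k → k < s → ∀ x, 0 ≤ x → x ≤ W → 0 ≤ E k x)
    (hk : ∀ k, 0 < k → k < s → ∀ x, 0 ≤ x → x ≤ W →
      ((∑ t, if ph t = k then N t * ℓ t x else 0) +
        ∑ k' ∈ Finset.Ioo 0 s, if par k' = k then E k' x else 0) ≤ E k x)
    (M J : ℕ) (hM : 0 < M) (hJ : (J : ℝ) = W * M) (Ω : ℕ → Finset ℕ)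
    (hroot : ∀ j ≤ J, M * ((∑ t, if ph t = 0 then N t * ℓ t (j / M) else 0) +
        ∑ k' ∈ Finset.Ioo 0 s, if par k' = 0 then E k' (j / M) else 0) + 2 ^ s ≤
      ((Ω j).card : ℝ)) :
    ∃ e, e + ∑ t, N t * (μ t * M).choose 2 = ∑ j ∈ Finset.range (J + 1), (Ω j).card ∧
      KE (strip J Ω) (fun a : Σ t, Fin (N t) => μ a.1 * M - 1) e := by
  classical
  have hM' : (0 : ℝ) < M := by exact_mod_cast hM
  obtain ⟨ε, hε, hε2⟩ := exists_eps J M hM' (fun t => g (ph t)) h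
  obtain ⟨kap, hkap⟩ := exists_acc' (K := ℕ) 0 (fun k => if k < s then par k else 0) id
    (fun k hk => by
      simp only [id]
      split_ifs with h1
      · exact hpar k (Nat.pos_of_ne_zero hk) h1
      · exact Nat.pos_of_ne_zero hk) fun k => ε ^ lev k * (2 ^ (s - k) - 1)
  set G : ℕ → ℕ → ℝ :=
    fun k j => ∑ i : Fin p, ε ^ (i : ℕ) * (M * g k (j / M) i) + kap k with hG
  set H0 : ι → ℝ := fun t => ∑ i : Fin p, ε ^ (i : ℕ) * h t i with hH0
  obtain ⟨θ, hθ⟩ := exists_theta J H0 fun t => G (ph t)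
  set H : ι → ℝ := fun t => H0 t + θ with hH
  set E' : ℕ → ℕ → ℝ := fun k j => M * E k (j / M) + (2 ^ (s - k) - 1) with hE'
  have hx0 : ∀ j : ℕ, (0 : ℝ) ≤ j / M := fun j => by positivity
  have hxL : ∀ j ≤ J, (j : ℝ) / M ≤ W := by
    intro j hj
    rw [div_le_iff₀ hM']
    have : (j : ℝ) ≤ J := by exact_mod_cast hj
    linarith
  have hrk : ∀ t, ∀ j ≤ J,
      ((μ t * M - 1 - rk J (G (ph t)) (H t) j : ℕ) : ℝ) ≤ M * ℓ t (j / M) := by
    intro t j hj
    obtain ⟨h4, ht⟩ := hℓ t _ (hx0 j) (hxL j hj)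
    have h1 : M * (μ t - ℓ t (j / M)) - 1 ≤ (rk J (G (ph t)) (H t) j : ℝ) := by
      refine le_card_of_covL hM' ht (fun y hy => hy.1) _ fun j' hj' => ?_
      obtain ⟨_, h5, h6⟩ := hj'
      have h7 : j' ≤ J := by
        rw [div_le_iff₀ hM', ← hJ] at h5
        exact_mod_cast h5
      refine Finset.mem_filter.2 ⟨Finset.mem_range.2 (by omega), ?_, ?_⟩
      · rintro rfl
        exact h6 fun i _ => le_rfl
      · refine ((hθ t j hj j' h7).1 ?_).le
        have h8 := mt (hε2 t j hj j' h7) h6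
        simp only [hG, hH0]
        linarith [not_le.1 h8]
    rcases le_or_gt (μ t * M) (1 + rk J (G (ph t)) (H t) j) with h2 | h2
    · rw [show μ t * M - 1 - rk J (G (ph t)) (H t) j = 0 by omega, Nat.cast_zero]
      positivity
    · rw [Nat.sub_sub, Nat.cast_sub h2.le]
      push_cast
      linarith
  set P : ℕ → ℕ → ℕ := fun k j => ∑ a : (Σ t, Fin (N t)),
    if ph a.1 = k then μ a.1 * M - 1 - rk J (G k) (H a.1) j else 0 with hP
  set C : ℕ → ℕ → ℕ := fun k j =>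
    ∑ k' ∈ Finset.Ioo 0 s, if par k' = k then ⌈E' k' j⌉₊ else 0 with hC
  have hkey : ∀ k < s, ∀ j ≤ J, ((P k j + C k j : ℕ) : ℝ) ≤
      M * ((∑ t, if ph t = k then N t * ℓ t (j / M) else 0) +
        ∑ k' ∈ Finset.Ioo 0 s, if par k' = k then E k' (j / M) else 0) + (2 ^ (s - k) - 2) := by
    intro k hks j hj
    have h1 : (P k j : ℝ) ≤ M * ∑ t, if ph t = k then N t * ℓ t (j / M) else 0 := by
      simp only [hP]
      rw [Nat.cast_sum, Finset.mul_sum, Fintype.sum_sigma]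
      refine Finset.sum_le_sum fun t _ => ?_
      simp only [Finset.sum_const, Finset.card_univ, Fintype.card_fin, nsmul_eq_mul]
      split_ifs with hp
      · have h5 := hrk t j hj
        rw [hp] at h5
        have hNt : (0 : ℝ) ≤ N t := by positivity
        nlinarith [mul_le_mul_of_nonneg_left h5 hNt]
      · simp
    have h2 : (C k j : ℝ) ≤ M * (∑ k' ∈ Finset.Ioo 0 s, if par k' = k then E k' (j / M) else 0) +
        ∑ k' ∈ Finset.Ioo 0 s, if par k' = k then (2 : ℝ) ^ (s - k') else 0 := by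
      simp only [hC]
      rw [Nat.cast_sum, Finset.mul_sum, ← Finset.sum_add_distrib]
      refine Finset.sum_le_sum fun k' hk' => ?_
      obtain ⟨h3, h4⟩ := Finset.mem_Ioo.1 hk'
      split_ifs with hp
      · have h5 := hE k' h3 h4 _ (hx0 j) (hxL j hj)
        have h6 : (1 : ℝ) ≤ 2 ^ (s - k') := one_le_pow₀ (by norm_num)
        have h7 : 0 ≤ E' k' j := by
          simp only [hE']
          nlinarith [mul_nonneg hM'.le h5]
        have h8 := Nat.ceil_lt_add_one h7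
        simp only [hE'] at h8 ⊢
        linarith
      · simp
    have h3 : (∑ k' ∈ Finset.Ioo 0 s, if par k' = k then (2 : ℝ) ^ (s - k') else 0) ≤
        2 ^ (s - k) - 2 := by
      rw [← sum_pow_le s k hks, ← Finset.sum_filter]
      refine Finset.sum_le_sum_of_subset_of_nonneg (fun k' hk' => ?_) fun _ _ _ => by positivity
      obtain ⟨h4, h5⟩ := Finset.mem_filter.1 hk'
      obtain ⟨h6, h7⟩ := Finset.mem_Ioo.1 h4
      exact Finset.mem_Ioo.2 ⟨h5 ▸ hpar k' h6 h7, h7⟩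
    rw [Nat.cast_add, mul_add]
    linarith
  set T : ℕ → ℕ → ℕ := fun k j => if k = 0 then (Ω j).card else ⌈E' k j⌉₊ with hT
  have hle : ∀ k < s, ∀ j ≤ J, P k j + C k j ≤ T k j := by
    intro k hks j hj
    have h1 := hkey k hks j hj
    have h2 : ((P k j + C k j : ℕ) : ℝ) ≤ T k j := by
      simp only [hT]
      split_ifs with h0
      · subst h0
        have h3 := hroot j hj
        rw [Nat.sub_zero] at h1
        linarith
      · have h3 := mul_le_mul_of_nonneg_left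
          (hk k (Nat.pos_of_ne_zero h0) hks _ (hx0 j) (hxL j hj)) hM'.le
        have h4 := Nat.le_ceil (E' k j)
        simp only [hE'] at h4 ⊢
        linarith
    exact_mod_cast h2
  set x : ℕ → ℕ → ℕ := fun k j => T k j - (P k j + C k j) with hx
  refine ⟨∑ k ∈ Finset.range s, ∑ j ∈ Finset.range (J + 1), x k j, ?_, ?_⟩
  · have h1 : ∀ j ≤ J, ∑ k ∈ Finset.range s, x k j +
        ∑ a : (Σ t, Fin (N t)), (μ a.1 * M - 1 - rk J (G (ph a.1)) (H a.1) j) = (Ω j).card := by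
      intro j hj
      have e1 : ∑ k ∈ Finset.range s, x k j + (∑ k ∈ Finset.range s, P k j +
          ∑ k ∈ Finset.range s, C k j) = ∑ k ∈ Finset.range s, T k j := by
        rw [← Finset.sum_add_distrib, ← Finset.sum_add_distrib]
        refine Finset.sum_congr rfl fun k hk' => ?_
        have := hle k (Finset.mem_range.1 hk') j hj
        simp only [hx]
        omega
      have e2 : ∑ k ∈ Finset.range s, P k j =
          ∑ a : (Σ t, Fin (N t)), (μ a.1 * M - 1 - rk J (G (ph a.1)) (H a.1) j) := by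
        simp only [hP]
        rw [Finset.sum_comm]
        refine Finset.sum_congr rfl fun a _ => ?_
        rw [Finset.sum_ite_eq, if_pos (Finset.mem_range.2 (hph a.1))]
      have e3 : ∑ k ∈ Finset.range s, C k j = ∑ k ∈ Finset.Ioo 0 s, ⌈E' k j⌉₊ := by
        simp only [hC]
        rw [Finset.sum_comm]
        refine Finset.sum_congr rfl fun k' hk' => ?_
        obtain ⟨h6, h7⟩ := Finset.mem_Ioo.1 hk'
        rw [Finset.sum_ite_eq, if_pos (Finset.mem_range.2 ((hpar k' h6 h7).trans h7))]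
      have e4 : ∑ k ∈ Finset.range s, T k j = (Ω j).card + ∑ k ∈ Finset.Ioo 0 s, ⌈E' k j⌉₊ := by
        have h5 : Finset.range s = insert 0 (Finset.Ioo 0 s) := by
          ext k
          simp only [Finset.mem_range, Finset.mem_insert, Finset.mem_Ioo]
          omega
        rw [h5, Finset.sum_insert (by simp)]
        simp only [hT, if_true]
        congr 1
        refine Finset.sum_congr rfl fun k hk' => ?_
        rw [if_neg (Finset.mem_Ioo.1 hk').1.ne']
      omega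
    have h2 : ∀ t, ∑ j ∈ Finset.range (J + 1), (μ t * M - 1 - rk J (G (ph t)) (H t) j) =
        (μ t * M).choose 2 := by
      intro t
      have h3 : μ t * M ≤ J := by
        have h4 : (μ t : ℝ) * M ≤ J := by
          rw [hJ]
          exact mul_le_mul_of_nonneg_right (hμ t) hM'.le
        exact_mod_cast h4
      rw [Nag.sum_rk (by omega) fun j hj j' hj' => (hθ t j hj j' hj').2]
      rcases Nat.eq_zero_or_pos (μ t * M) with h5 | h5
      · rw [h5]; rfl
      · rw [Nat.sub_add_cancel h5]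
    rw [← Finset.sum_congr rfl fun j hj => h1 j (Nat.lt_succ_iff.1 (Finset.mem_range.1 hj)),
      Finset.sum_add_distrib, Finset.sum_comm]
    congr 1
    rw [Finset.sum_comm, Finset.sum_congr rfl fun (a : Σ t, Fin (N t)) _ => h2 a.1,
      Fintype.sum_sigma]
    simp
  · refine treeM J s Ω hs (fun a : (Σ t, Fin (N t)) => μ a.1 * M - 1) (fun a => ph a.1)
      (fun a => hph a.1) par hpar (fun k => ε ^ lev k) (fun k _ _ => pow_pos hε _) G E'
      (fun k hk0 hks j _ => ?_) (fun a => H a.1) x (fun j hj => ?_) fun k hk0 hks j hj => ?_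
    · simp only [hG, hE']
      rw [price_rec ε M (lev k) (hlev k hk0 hks) _ _ _ (hg k hk0 hks _), hkap k hk0.ne',
        if_pos hks]
      ring
    · have h1 := hle 0 hs j hj
      change (Ω j).card ≤ (T 0 j - (P 0 j + C 0 j)) + P 0 j + C 0 j
      have h2 : T 0 j = (Ω j).card := by simp only [hT, if_true]
      omega
    · have h1 := hle k hks j hj
      change ⌈E' k j⌉₊ ≤ (T k j - (P k j + C k j)) + P k j + C k j
      have h2 : T k j = ⌈E' k j⌉₊ := by simp only [hT, if_neg hk0.ne']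
      omega

end Pool.Agent.P.MP_8707bd_ag.Win
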