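import Mathlib
import Pool.Agent.P.MP_8707bd_ag.Win.Fill

/-!
Gluing lemma with supports and additional simple points (helper file only).
-/

namespace Pool.Agent.P.MP_8707bd_ag.Win

open MvPolynomial Row Irr All

namespace GlueE

open All.Glue

/-- The support form of `All.glue`. -/
theorem glueS {K : Type} [Field K] {ι : Type} {κ : ι → Type} (Ω : Set (Fin 2 →₀ ℕ))
    (P : ι → Fin 2 → K) (μ : ι → ℕ)
    (h : ∀ F : MvPolynomial (Fin 2) K, (∀ s ∈ F.support, s ∈ Ω) →
      (∀ i, F ∈ RingHom.ker (eval (P i)) ^ μ i) → F = 0)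
    (Q : ∀ i, κ i → Fin 2 → K) (ν : ∀ i, κ i → ℕ)
    (hQ : ∀ i, Emp (Q i) (ν i) (μ i)) :
    ∃ P' : (Σ i, κ i) → Fin 2 → HahnSeries ℤ K, ∀ F : MvPolynomial (Fin 2) (HahnSeries ℤ K),
      (∀ s ∈ F.support, s ∈ Ω) → (∀ a, F ∈ RingHom.ker (eval (P' a)) ^ ν a.1 a.2) → F = 0 := by
  set t : HahnSeries ℤ K := HahnSeries.single 1 1 with ht
  refine ⟨fun a k => t * HahnSeries.C (Q a.1 a.2 k) + HahnSeries.C (P a.1 k), ?_⟩
  intro F hd hF
  by_contra hne
  obtain ⟨s0, hs0, hmin⟩ := Finset.exists_min_image F.support (fun s => (F.coeff s).order)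
    (support_nonempty.mpr hne)
  set w := (F.coeff s0).order with hw
  have hlow : ∀ g < w, Glue.cf g F = 0 := by
    intro g hg
    ext s
    rw [coeff_cf, coeff_zero]
    by_cases hs : s ∈ F.support
    · exact HahnSeries.coeff_eq_zero_of_lt_order (hg.trans_le (hmin s hs))
    · rw [notMem_support_iff.mp hs]
      rfl
  have hF0 : Glue.cf w F ≠ 0 := by
    intro h0
    have := congrArg (fun G : MvPolynomial (Fin 2) K => G.coeff s0) h0
    simp only [coeff_cf, coeff_zero] at this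
    exact mem_support_iff.mp hs0 (HahnSeries.coeff_order_eq_zero.mp this)
  apply hF0
  apply h
  · intro s hs
    apply hd
    rw [mem_support_iff] at hs ⊢
    intro h0
    rw [coeff_cf, h0] at hs
    exact hs rfl
  · intro i
    rw [van_iff]
    intro s hs
    set φ := sc t (tr (fun k => (HahnSeries.C (P i k) : HahnSeries ℤ K)) F) with hφ
    have hco : ∀ (g : ℤ) (s' : Fin 2 →₀ ℕ),
        (Glue.cf g φ).coeff s' = (tr (P i) (Glue.cf (g - s'.degree) F)).coeff s' := by
      intro g s'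
      rw [← cf_tr, coeff_cf, coeff_cf, hφ, coeff_sc, ht, HahnSeries.single_pow,
        HahnSeries.coeff_single_mul]
      simp
    have hG : Glue.cf (w + s.degree) φ = 0 := by
      apply hQ i
      · refine lt_of_le_of_lt (totalDegree_le_of _ s.degree fun s' hs' => ?_) hs
        rw [hco, hlow _ (by omega), map_zero, coeff_zero]
      · intro a
        have h1 : φ ∈ RingHom.ker
            (eval fun k => (HahnSeries.C (Q i a k) : HahnSeries ℤ K)) ^ ν i a := by
          refine pow_map_mem (((sc t).comp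
            (tr fun k => (HahnSeries.C (P i k) : HahnSeries ℤ K))).toRingHom) _ _
            (fun b hb => ?_) _ F (hF ⟨i, a⟩)
          change eval _ (sc t (tr _ b)) = 0
          rw [eval_sc, eval_tr]
          exact hb
        rw [van_iff] at h1 ⊢
        intro s' hs'
        rw [← cf_tr, coeff_cf, h1 s' hs']
        rfl
    have := hco (w + s.degree) s
    rw [hG, coeff_zero, add_sub_cancel_right] at this
    exact this.symm

/-- `KE` with the simple points seen as points of multiplicity one. -/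
lemma ke_sum {ι : Type} {Ω : Set (Fin 2 →₀ ℕ)} {μ : ι → ℕ} {e : ℕ} (h : KE Ω μ e) :
    ∃ P : ι ⊕ Fin e → Fin 2 → ℂ, ∀ F : MvPolynomial (Fin 2) ℂ, (∀ s ∈ F.support, s ∈ Ω) →
      (∀ i, F ∈ RingHom.ker (eval (P i)) ^ Sum.elim μ (fun _ => 1) i) → F = 0 := by
  obtain ⟨P, Q, h⟩ := h
  refine ⟨Sum.elim P Q, fun F h1 h2 => h F h1 (fun i => h2 (Sum.inl i)) fun a => ?_⟩
  simpa using h2 (Sum.inr a)

lemma supp_tri {n : ℕ} {F : MvPolynomial (Fin 2) ℂ} (h : F.totalDegree < n) :
    ∀ s ∈ F.support, s ∈ tri n := by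
  intro s hs
  have h1 := le_totalDegree hs
  rw [Finsupp.sum_fintype _ _ (by simp), Fin.sum_univ_two] at h1
  exact lt_of_le_of_lt h1 h

end GlueE

open GlueE

theorem glueE {ι : Type} [Fintype ι] (Ω : Set (Fin 2 →₀ ℕ)) (hΩ : Ω.Finite) (μ : ι → ℕ) (e : ℕ)
    (h : KE Ω μ e) (n f : ι → ℕ) (m : ℕ) (hQ : ∀ i, KE (tri (μ i)) (fun _ : Fin (n i) => m) (f i))
    (r : ℕ) (hr : r = ∑ i, n i) : KE Ω (fun _ : Fin r => m) (e + ∑ i, f i) := by
  classical
  obtain ⟨P, hP⟩ := ke_sum h
  choose Q hQ' using fun i => ke_sum (hQ i)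
  let κ : ι ⊕ Fin e → Type := fun a => match a with
    | Sum.inl i => Fin (n i) ⊕ Fin (f i)
    | Sum.inr _ => Unit
  let Q' : ∀ a, κ a → Fin 2 → ℂ := fun a => match a with
    | Sum.inl i => Q i
    | Sum.inr _ => fun _ => 0
  let ν : ∀ a, κ a → ℕ := fun a => match a with
    | Sum.inl i => Sum.elim (fun _ => m) (fun _ => 1)
    | Sum.inr _ => fun _ => 1
  have hE : ∀ a, Emp (Q' a) (ν a) (Sum.elim μ (fun _ => 1) a) := by
    rintro (i | a)
    · intro F h1 h2
      exact hQ' i F (supp_tri h1) h2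
    · intro F h1 h2
      have h3 : F.totalDegree = 0 := by
        have : F.totalDegree < 1 := h1
        omega
      have h4 : eval (0 : Fin 2 → ℂ) F = 0 := by
        have := h2 ()
        simpa [ν, Q'] using this
      rw [totalDegree_eq_zero_iff_eq_C] at h3
      rw [h3, eval_C] at h4
      rw [h3, h4, map_zero]
  obtain ⟨P', hP'⟩ := glueS Ω P _ hP Q' ν hE
  let lam : (Fin e ⊕ Σ i, Fin (f i)) →
      MvPolynomial (Fin 2) (HahnSeries ℤ ℂ) →ₗ[HahnSeries ℤ ℂ] HahnSeries ℤ ℂ := fun a =>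
    match a with
    | Sum.inl a => (aeval (P' ⟨Sum.inr a, ()⟩)).toLinearMap
    | Sum.inr b => (aeval (P' ⟨Sum.inl b.1, Sum.inr b.2⟩)).toLinearMap
  have key := ke_of_fun (K := HahnSeries ℤ ℂ) (ι := Σ i, Fin (n i)) Ω hΩ
    (fun a => P' ⟨Sum.inl a.1, Sum.inl a.2⟩) (fun _ => m) lam (fun F h1 h2 h3 => by
      refine hP' F h1 ?_
      rintro ⟨i | a, b⟩
      · rcases b with b | b
        · exact h2 ⟨i, b⟩
        · have h4 := h3 (Sum.inr ⟨i, b⟩)
          change F ∈ _ ^ 1
          rw [pow_one, RingHom.mem_ker, ← coe_aeval_eq_eval]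
          exact h4
      · have h4 := h3 (Sum.inl a)
        change F ∈ _ ^ 1
        rw [pow_one, RingHom.mem_ker, ← coe_aeval_eq_eval]
        exact h4)
  have hc : Fintype.card (Fin e ⊕ Σ i, Fin (f i)) = e + ∑ i, f i := by simp
  rw [hc] at key
  have hc2 : Fintype.card (Fin r) = Fintype.card (Σ i, Fin (n i)) := by simp [hr]
  exact key.reindex (Fintype.equivOfCardEq hc2) _ fun _ => rfl

end Pool.Agent.P.MP_8707bd_ag.Win
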