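import Mathlib
import Pool.Agent.P.MP_8707bd_ag.Win.Defs

/-!
Rows which are strictly cheaper than a given row (helper file only).
-/

namespace Pool.Agent.P.MP_8707bd_ag.Win

open MvPolynomial Row Irr All

lemma covl_of {R : ℝ → Prop} {len : ℝ} (lo hi : ℝ) (h1 : len = hi - lo)
    (h : ∀ y, lo < y → y < hi → R y) : CovL R len :=
  ⟨lo, fun y a b => h y a (by linarith)⟩

theorem covl_tent {P : ℕ} (n : ℕ) (X : ℕ → ℝ) (X0 : X 0 = 0)
    (hX : ∀ a b, a < b → b ≤ n → X a < X b) (g : ℝ → Fin (P + 2) → ℝ) (C : Fin (P + 2) → ℝ)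
    (K : ℕ → Fin (P + 2) → ℝ)
    (hg : ∀ x, 0 ≤ x → x ≤ X n → ∀ j,
      g x j = C j + ∑ w ∈ Finset.range n, K w j * pp (x - X w))
    (hK : ∀ w, 0 < w → w < n → LexLe 0 (K w))
    (p z q : ℕ) (hpz : p < z) (hzq : z < q) (hq : q ≤ n) (i : Fin (P + 2))
    (z1 : ∀ j, j < i → ∀ w, p < w → w < q → K w j = 0)
    (z2 : ∀ w, p < w → w < q → w ≠ z → K w i = 0) (z3 : 0 < K z i) (μ A0 e1 e2 : ℝ)
    (hshape : (p = 0 ∧ A0 = μ - X q ∧ e1 = 0 ∧ e2 = μ ∧ X q ≤ μ) ∨
      (q = n ∧ A0 = 0 ∧ e1 = X n - μ ∧ e1 ≤ X p ∧ e2 = X n) ∨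
      (A0 = 0 ∧ e1 = X p ∧ e2 = X q ∧ X q = X p + μ)) :
    ∃ h : Fin (P + 2) → ℝ, ∀ x, 0 ≤ x → x ≤ X n →
      0 ≤ U A0 e1 (X p) (X z) (X q) e2 x ∧
        CovL (Cheap (X n) g h x) (μ - U A0 e1 (X p) (X z) (X q) e2 x) := by
  have hle : ∀ a b, a ≤ b → b ≤ n → X a ≤ X b := fun a b h1 h2 =>
    h1.eq_or_lt.elim (fun e => e ▸ le_rfl) fun h => (hX a b h h2).le
  have x1 : X p < X z := hX p z hpz (by omega)
  have x2 : X z < X q := hX z q hzq hq
  have x3 : X q ≤ X n := hle q n hq le_rfl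
  have x0 : 0 ≤ X p := X0 ▸ hle 0 p (Nat.zero_le _) (by omega)
  set B := K z i with hB
  set V : ℝ → ℝ := fun t => -(B * (X q - X z) / (X q - X p) * t) + B * pp (t - X z) with hV
  set φ : ℕ → ℝ → ℝ := fun w t => if w ≤ p then pp (X w - t) else if q ≤ w then pp (t - X w) else 0
    with hφ
  set h : Fin (P + 2) → ℝ := fun j => -(∑ w ∈ Finset.range n, if w ≤ p then K w j else 0) -
    if j = i then B * (X q - X z) / (X q - X p) else 0 with hh
  have hF : ∀ t, 0 ≤ t → t ≤ X n → ∀ j, j ≤ i → h j * t + g t j =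
      C j - (∑ w ∈ Finset.range n, if w ≤ p then K w j * X w else 0) +
        ∑ w ∈ Finset.range n, K w j * φ w t + if j = i then V t else 0 := by
    intro t t0 t1 j hj
    have e1 : ∀ w ∈ Finset.range n, K w j * pp (t - X w) = (if w ≤ p then K w j else 0) * t -
        (if w ≤ p then K w j * X w else 0) + K w j * φ w t +
        if w = z then (if j = i then B * pp (t - X z) else 0) else 0 := by
      intro w _
      by_cases a : w ≤ p
      · simp only [hφ, a, if_true, if_neg (show w ≠ z by omega)]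
        rw [pp_flip]; ring
      · by_cases b : q ≤ w
        · simp only [hφ, a, b, if_true, if_false, if_neg (show w ≠ z by omega)]
          ring
        · simp only [hφ, a, b, if_false]
          by_cases c : j = i
          · by_cases d : w = z
            · simp only [c, d, if_true, ← hB]; ring
            · rw [c, z2 w (by omega) (by omega) d, if_neg d]; ring
          · rw [z1 j (lt_of_le_of_ne hj c) w (by omega) (by omega)]
            simp [c]
    rw [hg t t0 t1 j, Finset.sum_congr rfl e1, Finset.sum_add_distrib, Finset.sum_add_distrib,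
      Finset.sum_sub_distrib, ← Finset.sum_mul, Finset.sum_ite_eq',
      if_pos (Finset.mem_range.2 (by omega))]
    simp only [hh, hV]
    split_ifs <;> ring
  have hR : ∀ x y, 0 ≤ x → x ≤ X n → 0 ≤ y → y ≤ X n → (∀ w, w ≤ n → φ w y ≤ φ w x) →
      V y < V x → Cheap (X n) g h x y := by
    intro x y h0 h1 y0 a1 hc hlt
    refine ⟨y0, a1, fun hy => ?_⟩
    have a2 := Shape.lex_sum (Finset.range n) (fun w => φ w x - φ w y) K fun w hw => by
      rcases Nat.eq_zero_or_pos w with e | e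
      · left
        simp only [hφ, e, Nat.zero_le, if_true, X0, pp_of_le y0, pp_of_le h0, sub_self]
      · exact Or.inr ⟨sub_nonneg.2 (hc w (Finset.mem_range.1 hw).le),
          hK w e (Finset.mem_range.1 hw)⟩
    have a3 := Shape.lex_at hy a2 i fun j hj => by
      simp only [hF y y0 a1 j hj.le, hF x h0 h1 j hj.le, if_neg hj.ne, mul_sub,
        Finset.sum_sub_distrib]
      ring
    simp only [hF y y0 a1 i le_rfl, hF x h0 h1 i le_rfl, if_true, mul_sub,
      Finset.sum_sub_distrib] at a3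
    linarith
  have φ0 : ∀ w t, 0 ≤ φ w t := fun w t => by
    simp only [hφ]; split_ifs; exacts [pp_nonneg _, pp_nonneg _, le_rfl]
  have φl : ∀ x y, x ≤ y → y ≤ X q → ∀ w, w ≤ n → φ w y ≤ φ w x := by
    intro x y hxy hy w hw
    by_cases a : w ≤ p
    · simp only [hφ, a, if_true]; exact pp_mono (by linarith)
    · by_cases b : q ≤ w
      · refine le_trans (le_of_eq ?_) (φ0 w x)
        simp only [hφ, a, b, if_true, if_false]
        exact pp_of_le (by linarith [hle q w b hw])
      · simp only [hφ, a, b, if_false, le_refl]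
  have φr : ∀ x y, y ≤ x → X p ≤ y → ∀ w, w ≤ n → φ w y ≤ φ w x := by
    intro x y hxy hy w hw
    by_cases a : w ≤ p
    · refine le_trans (le_of_eq ?_) (φ0 w x)
      simp only [hφ, a, if_true]
      exact pp_of_le (by linarith [hle w p a (by omega)])
    · by_cases b : q ≤ w
      · simp only [hφ, a, b, if_true, if_false]; exact pp_mono (by linarith)
      · simp only [hφ, a, b, if_false, le_refl]
  have n1 : X z - X p ≠ 0 := by linarith
  have n2 : X q - X z ≠ 0 := by linarith
  have n3 : X q - X p ≠ 0 := by linarith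
  have k1 : 0 < B * (X q - X z) / (X q - X p) :=
    div_pos (mul_pos z3 (by linarith)) (by linarith)
  have k2 : B * (X q - X z) / (X q - X p) < B := by
    rw [div_lt_iff₀ (by linarith)]
    exact mul_lt_mul_of_pos_left (by linarith) z3
  have Vdec : ∀ x y, x < y → y ≤ X z → V y < V x := by
    intro x y a b
    simp only [hV, pp_of_le b, pp_of_le (by linarith : x ≤ X z)]
    nlinarith
  have Vinc : ∀ x y, y < x → X z ≤ y → V y < V x := by
    intro x y a b
    simp only [hV, pp_of_ge b, pp_of_ge (by linarith : X z ≤ x)]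
    nlinarith
  have Vin : ∀ lo hi, V lo = V hi → ∀ y, lo < y → y < hi → V y < V lo := by
    intro lo hi e y a b
    rcases le_total y (X z) with c | c
    · exact Vdec lo y a c
    · exact e ▸ Vinc hi y b c
  have Vpq : V (X p) = V (X q) := by
    simp only [hV, pp_of_le x1.le, pp_of_ge x2.le]
    field_simp
    ring
  have Vl : ∀ x y, x < X p → x < y → y < X q → V y < V x := by
    intro x y a b c
    rcases le_or_gt y (X p) with d | d
    · exact Vdec x y b (by linarith)
    · exact (Vin _ _ Vpq y d c).trans (Vdec x _ a x1.le)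
  have Vr : ∀ x y, X q < x → y < x → X p < y → V y < V x := by
    intro x y a b c
    rcases le_or_gt (X q) y with d | d
    · exact Vinc x y b (by linarith)
    · exact (Vpq ▸ Vin _ _ Vpq y c d).trans (Vinc x _ a x2.le)
  have s1 : ∀ x, X p ≤ x → A0 + pp (x - e1) = μ - (X q - X p) + (x - X p) := by
    intro x hx
    rcases hshape with ⟨a, b, c, -, -⟩ | ⟨a, b, c, d, -⟩ | ⟨b, c, -, d⟩
    · rw [a, X0] at hx ⊢
      rw [b, c, pp_of_ge hx]; ring
    · rw [pp_of_ge (d.trans hx), a, b, c]; ring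
    · rw [b, c, pp_of_ge hx, d]; ring
  have s2 : X q ≤ e2 := by
    rcases hshape with ⟨-, -, -, a, b⟩ | ⟨a, -, -, -, b⟩ | ⟨-, -, a, -⟩
    · rw [a]; exact b
    · rw [a, b]
    · rw [a]
  have s3 : X q - X p ≤ μ := by
    rcases hshape with ⟨-, -, -, -, b⟩ | ⟨a, -, b, c, -⟩ | ⟨-, -, -, a⟩
    · linarith
    · rw [a]; linarith
    · linarith
  refine ⟨h, fun x h0 h1 => ?_⟩
  rcases lt_or_ge x (X p) with c1 | c1
  · have eU : U A0 e1 (X p) (X z) (X q) e2 x = A0 + pp (x - e1) := by
      rw [U, pp_of_le c1.le, pp_of_le (by linarith : x ≤ X z), pp_of_le (by linarith : x ≤ X q),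
        pp_of_le (by linarith : x ≤ e2)]
      ring
    rw [eU]
    have key : ∀ y, x < y → y < X q → Cheap (X n) g h x y := fun y a b =>
      hR x y h0 h1 (by linarith) (by linarith) (φl x y a.le b.le) (Vl x y c1 a b)
    rcases hshape with ⟨a, -⟩ | ⟨a, b, c, d, -⟩ | ⟨b, c, -, d⟩
    · rw [a, X0] at c1; linarith
    · refine ⟨by rw [b]; linarith [pp_nonneg (x - e1)], ?_⟩
      rcases le_total x e1 with e | e
      · exact covl_of e1 (X q) (by rw [b, pp_of_le e, c, a]; ring) fun y u v =>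
          key y (by linarith) v
      · exact covl_of x (X q) (by rw [b, pp_of_ge e, c, a]; ring) key
    · refine ⟨by rw [b]; linarith [pp_nonneg (x - e1)], ?_⟩
      exact covl_of (X p) (X q) (by rw [b, c, pp_of_le c1.le, d]; ring) fun y u v =>
        key y (by linarith) v
  rcases lt_or_ge (X q) x with c2 | c2
  · have eU : U A0 e1 (X p) (X z) (X q) e2 x = μ - (X q - X p) - (x - X q) + pp (x - e2) := by
      rw [U, s1 x c1, pp_of_ge c1, pp_of_ge (by linarith : X z ≤ x), pp_of_ge c2.le]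
      field_simp
      ring
    rw [eU]
    have key : ∀ y, X p < y → y < x → Cheap (X n) g h x y := fun y a b =>
      hR x y h0 h1 (by linarith) (by linarith) (φr x y b.le a.le) (Vr x y c2 b a)
    rcases hshape with ⟨a, -, -, b, -⟩ | ⟨a, -⟩ | ⟨-, -, b, c⟩
    · have a' : X p = 0 := by rw [a, X0]
      refine ⟨by rw [a', b]; linarith [le_pp (x - μ)], ?_⟩
      rcases le_total μ x with e | e
      · exact covl_of (X p) μ (by rw [b, pp_of_ge e, a']; ring) fun y u v =>
          key y u (by linarith)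
      · exact covl_of (X p) x (by rw [b, pp_of_le e, a']; ring) key
    · rw [a] at c2; linarith
    · refine ⟨by rw [b, pp_of_ge c2.le]; linarith, ?_⟩
      exact covl_of (X p) (X q) (by rw [b, pp_of_ge c2.le]; ring) fun y u v =>
        key y u (by linarith)
  rcases le_total x (X z) with c3 | c3
  · have eU : μ - U A0 e1 (X p) (X z) (X q) e2 x = (X q - X p) * (X z - x) / (X z - X p) := by
      rw [U, s1 x c1, pp_of_ge c1, pp_of_le c3, pp_of_le c2, pp_of_le (c2.trans s2)]
      field_simp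
      ring
    have b1 : (X q - X p) * (X z - x) / (X z - X p) ≤ X q - X p := by
      rw [div_le_iff₀ (by linarith)]
      exact mul_le_mul_of_nonneg_left (by linarith) (by linarith)
    have b2 : (X q - X z) * (X z - x) / (X z - X p) ≤ X q - X z := by
      rw [div_le_iff₀ (by linarith)]
      exact mul_le_mul_of_nonneg_left (by linarith) (by linarith)
    have b3 : 0 ≤ (X q - X z) * (X z - x) / (X z - X p) :=
      div_nonneg (mul_nonneg (by linarith) (by linarith)) (by linarith)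
    refine ⟨by linarith, ?_⟩
    rw [eU]
    have e : V x = V (X z + (X q - X z) * (X z - x) / (X z - X p)) := by
      simp only [hV, pp_of_le c3,
        pp_of_ge (by linarith : X z ≤ X z + (X q - X z) * (X z - x) / (X z - X p))]
      field_simp
      ring
    exact covl_of x (X z + (X q - X z) * (X z - x) / (X z - X p)) (by field_simp; ring)
      fun y u v => hR x y h0 h1 (by linarith) (by linarith) (φl x y u.le (by linarith))
        (Vin _ _ e y u v)
  · have eU : μ - U A0 e1 (X p) (X z) (X q) e2 x = (X q - X p) * (x - X z) / (X q - X z) := by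
      rw [U, s1 x c1, pp_of_ge c1, pp_of_ge c3, pp_of_le c2, pp_of_le (c2.trans s2)]
      field_simp
      ring
    have b1 : (X q - X p) * (x - X z) / (X q - X z) ≤ X q - X p := by
      rw [div_le_iff₀ (by linarith)]
      exact mul_le_mul_of_nonneg_left (by linarith) (by linarith)
    have b2 : (X z - X p) * (x - X z) / (X q - X z) ≤ X z - X p := by
      rw [div_le_iff₀ (by linarith)]
      exact mul_le_mul_of_nonneg_left (by linarith) (by linarith)
    have b3 : 0 ≤ (X z - X p) * (x - X z) / (X q - X z) :=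
      div_nonneg (mul_nonneg (by linarith) (by linarith)) (by linarith)
    refine ⟨by linarith, ?_⟩
    rw [eU]
    have e : V (X z - (X z - X p) * (x - X z) / (X q - X z)) = V x := by
      simp only [hV, pp_of_ge c3,
        pp_of_le (by linarith : X z - (X z - X p) * (x - X z) / (X q - X z) ≤ X z)]
      field_simp
      ring
    exact covl_of (X z - (X z - X p) * (x - X z) / (X q - X z)) x (by field_simp; ring)
      fun y u v => hR x y h0 h1 (by linarith) (by linarith) (φr x y v.le (by linarith))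
        (e ▸ Vin _ _ e y u v)

theorem covl_left {P : ℕ} (c μ : ℝ) (g : ℝ → Fin (P + 2) → ℝ) (hwall : ∀ x, g x 0 = pp (x - c))
    (h1 : ∀ x, g x 1 = 0) : ∃ h : Fin (P + 2) → ℝ, ∀ x, 0 ≤ x → x ≤ c →
      0 ≤ U μ 0 0 0 0 μ x ∧ CovL (Cheap c g h x) (μ - U μ 0 0 0 0 μ x) := by
  refine ⟨fun j => if j = 1 then 1 else 0, fun x h0 hx => ?_⟩
  have eU : U μ 0 0 0 0 μ x = μ - x + pp (x - μ) := by
    rw [U, pp_of_ge h0]; ring
  rw [eU]
  have key : ∀ y, 0 < y → y < x → Cheap c g (fun j => if j = 1 then 1 else 0) x y := by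
    intro y a b
    refine ⟨a.le, by linarith, fun hy => ?_⟩
    have a1 := hy 1 fun j hj => by
      rw [Shape.lt_one hj]
      simp [hwall, pp_of_le hx, pp_of_le (by linarith : y ≤ c)]
    have a2 : x ≤ y := by simpa [h1] using a1
    linarith
  refine ⟨by linarith [le_pp (x - μ)], ?_⟩
  rcases le_total μ x with e | e
  · exact covl_of 0 μ (by rw [pp_of_ge e]; ring) fun y u v => key y u (by linarith)
  · exact covl_of 0 x (by rw [pp_of_le e]; ring) key

theorem covl_right {P : ℕ} (c μ : ℝ) (g : ℝ → Fin (P + 2) → ℝ) (hwall : ∀ x, g x 0 = pp (x - c))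
    (h1 : ∀ x, g x 1 = 0) : ∃ h : Fin (P + 2) → ℝ, ∀ x, 0 ≤ x → x ≤ c →
      0 ≤ U 0 (c - μ) c c c c x ∧ CovL (Cheap c g h x) (μ - U 0 (c - μ) c c c c x) := by
  refine ⟨fun j => if j = 1 then -1 else 0, fun x h0 hx => ?_⟩
  have eU : U 0 (c - μ) c c c c x = pp (x - (c - μ)) := by
    rw [U, pp_of_le hx]; ring
  rw [eU]
  have key : ∀ y, x < y → y < c → Cheap c g (fun j => if j = 1 then -1 else 0) x y := by
    intro y a b
    refine ⟨by linarith, b.le, fun hy => ?_⟩
    have a1 := hy 1 fun j hj => by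
      rw [Shape.lt_one hj]
      simp [hwall, pp_of_le hx, pp_of_le b.le]
    have a2 : y ≤ x := by simpa [h1] using a1
    linarith
  refine ⟨pp_nonneg _, ?_⟩
  rcases le_total x (c - μ) with e | e
  · exact covl_of (c - μ) c (by rw [pp_of_le e]; ring) fun y u v => key y (by linarith) v
  · exact covl_of x c (by rw [pp_of_ge e]; ring) key

theorem covl_ty {P : ℕ} (n : ℕ) (X : ℕ → ℝ) (X0 : X 0 = 0)
    (hX : ∀ a b, a < b → b ≤ n → X a < X b) (g : ℝ → Fin (P + 2) → ℝ) (C : Fin (P + 2) → ℝ)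
    (K : ℕ → Fin (P + 2) → ℝ) (hwall : ∀ x, g x 0 = pp (x - X n)) (h1 : ∀ x, g x 1 = 0)
    (hK0 : ∀ w, K w 0 = 0)
    (hg : ∀ x, 0 ≤ x → x ≤ X n → ∀ j,
      g x j = C j + ∑ w ∈ Finset.range n, K w j * pp (x - X w))
    (hK : ∀ w, 0 < w → w < n → LexLe 0 (K w)) (hn : 0 < n) (t : Ty) (s1 : t.Shape n X)
    (s2 : t.Ord n)
    (s3 : t.p < t.z → t.z < t.q → ∃ i : Fin (P + 2),
      (∀ j, j < i → ∀ w, t.p < w → w < t.q → K w j = 0) ∧
      (∀ w, t.p < w → w < t.q → w ≠ t.z → K w i = 0) ∧ 0 < K t.z i) :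
    (t.mu : ℝ) ≤ X n ∧ ∃ h : Fin (P + 2) → ℝ, ∀ x, 0 ≤ x → x ≤ X n →
      0 ≤ prof X t x ∧ CovL (Cheap (X n) g h x) (t.mu - prof X t x) := by
  have _ := hK0
  have hle : ∀ a b, a ≤ b → b ≤ n → X a ≤ X b := fun a b h h' => by
    rcases h.lt_or_eq with h | h
    · exact (hX a b h h').le
    · rw [h]
  have hp : t.p ≤ n := by rcases s2 with h | h | h <;> omega
  have hq : t.q ≤ n := by rcases s2 with h | h | h <;> omega
  refine ⟨?_, ?_⟩
  · rcases s1 with ⟨-, -, b3, -, b5⟩ | ⟨-, -, -, b4, b5⟩ | ⟨-, -, -, -, b5⟩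
    · exact b3 ▸ hle _ _ b5 le_rfl
    · have := hle 0 t.e1 (Nat.zero_le _) (by omega)
      linarith
    · have a := hle 0 t.p (Nat.zero_le _) hp
      have b := hle t.q n hq le_rfl
      linarith
  rcases s2 with ⟨a1, a2, a3⟩ | ⟨a1, a2, a3⟩ | ⟨a1, a2, a3⟩
  · rcases s1 with ⟨-, b2, b3, -, -⟩ | b | b
    · have := covl_left (X n) t.mu g hwall h1
      simpa only [prof, a0, a1, a2, a3, b2, b3, X0, if_true, sub_zero] using this
    · exact absurd a1 b.1
    · exact absurd a1 b.1
  · rcases s1 with b | ⟨b1, -, b3, b4, -⟩ | b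
    · omega
    · have := covl_right (X n) t.mu g hwall h1
      have b0 : a0 X t = 0 := if_neg b1
      simpa only [prof, b0, a1, a2, a3, b3, b4] using this
    · omega
  · obtain ⟨i, z1, z2, z3⟩ := s3 a1 a2
    refine covl_tent n X X0 hX g C K hg hK _ _ _ a1 a2 a3 i z1 z2 z3 _ _ _ _ ?_
    rcases s1 with ⟨b1, b2, b3, b4, b5⟩ | ⟨b1, b2, b3, b4, b5⟩ | ⟨b1, -, b3, b4, b5⟩
    · exact Or.inl ⟨b1, if_pos b1, by rw [b2, X0], b3, b3 ▸ hle _ _ b4 b5⟩
    · exact Or.inr (Or.inl ⟨b2, if_neg b1, b4, hle _ _ b5 (by omega), by rw [b3]⟩)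
    · exact Or.inr (Or.inr ⟨if_neg b1, by rw [b3], by rw [b4], b5⟩)

end Pool.Agent.P.MP_8707bd_ag.Win
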