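import Mathlib
import Pool.Agent.P.MP_8707bd_ag.Win.ContM
import Pool.Agent.P.MP_8707bd_ag.Win.ShapeL
import Pool.Agent.P.MP_8707bd_ag.Win.GlueE
import Pool.Agent.P.MP_8707bd_ag.Win.Square

/-!
The criterion for a design on a monomial strip (helper file only).
-/

namespace Pool.Agent.P.MP_8707bd_ag.Win

open MvPolynomial Row Irr All

section
variable {ι : Type} [Fintype ι] {ty : ι → Ty} {n s P : ℕ} {par lev rl : ℕ → ℕ}

/-- The prices of a design. -/
theorem design_prices (T : Tree n s P par lev rl) (X : ℕ → ℝ)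
    (hX : ∀ a b, a < b → b ≤ n → X a < X b) (N : ι → ℕ)
    (hv : ∀ u, (ty u).v < s) (s1 : ∀ u, (ty u).Shape n X) (s2 : ∀ u, (ty u).Ord n)
    (s3 : ∀ u, (ty u).p < (ty u).z → (ty u).z < (ty u).q → Level ty par lev rl (ty u))
    (sup : ∀ k, 0 < k → k < s → ∀ w, 0 < w → w < n → lev k < rl w →
      (∀ u, Below par k (ty u).v → (ty u).z ≠ w) ∨
        0 < below ty par (fun u => N u * kap X (ty u) w) k) :
    ∃ g : ℕ → ℝ → Fin (P + 2) → ℝ,
      (∀ k, 0 < k → k < s → ∀ x, ∀ i : Fin (P + 2), g k x i = g (par k) x i +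
        if (i : ℕ) = lev k then below ty par (fun u => N u * prof X (ty u) x) k else 0) ∧
      ∀ u, ∃ (C : Fin (P + 2) → ℝ) (K : ℕ → Fin (P + 2) → ℝ),
        (∀ x, g (ty u).v x 0 = pp (x - X n)) ∧ (∀ x, g (ty u).v x 1 = 0) ∧ (∀ w, K w 0 = 0) ∧
        (∀ x, 0 ≤ x → x ≤ X n → ∀ j,
          g (ty u).v x j = C j + ∑ w ∈ Finset.range n, K w j * pp (x - X w)) ∧
        (∀ w, 0 < w → w < n → LexLe 0 (K w)) ∧
        ((ty u).p < (ty u).z → (ty u).z < (ty u).q → ∃ i : Fin (P + 2),
          (∀ j, j < i → ∀ w, (ty u).p < w → w < (ty u).q → K w j = 0) ∧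
          (∀ w, (ty u).p < w → w < (ty u).q → w ≠ (ty u).z → K w i = 0) ∧
          0 < K (ty u).z i) := by
  classical
  set E : ℕ → ℝ → ℝ := fun k x => below ty par (fun u => N u * prof X (ty u) x) k with hE
  set g : ℕ → ℝ → Fin (P + 2) → ℝ := fun k x i => (if (i : ℕ) = 0 then pp (x - X n) else 0) +
    (∑ w ∈ Finset.range n, (if (0 < w ∧ w < n) ∧ rl w = i then 1 else 0) * pp (x - X w)) +
    lvl par lev (fun k => E k x) k i with hg
  set KE : ℕ → ℕ → ℝ := fun w k => below ty par (fun u => N u * kap X (ty u) w) k with hKE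
  set K : ℕ → ℕ → Fin (P + 2) → ℝ := fun k w i =>
    (if (0 < w ∧ w < n) ∧ rl w = i then 1 else 0) + lvl par lev (KE w) k i with hK
  have low : ∀ k, k < s → ∀ x, ∀ i : Fin (P + 2), (i : ℕ) < 2 →
      g k x i = if (i : ℕ) = 0 then pp (x - X n) else 0 := by
    intro k hk x i hi
    simp only [hg]
    rw [lvl_two T _ hk hi, Finset.sum_eq_zero, add_zero, add_zero]
    intro w hw
    have := T.node w
    rw [if_neg, zero_mul]
    have := Finset.mem_range.1 hw
    omega
  have hwall : ∀ k, k < s → ∀ x, g k x 0 = pp (x - X n) := fun k hk x => by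
    rw [low k hk x 0 (by simp)]; simp
  have hfree : ∀ k, k < s → ∀ x, g k x 1 = 0 := fun k hk x => by
    rw [low k hk x 1 (by simp)]; simp
  have hEx : ∀ k x, x ≤ X n → E k x = below ty par (fun u => N u * a0 X (ty u)) k +
      ∑ w ∈ Finset.range n, KE w k * pp (x - X w) := by
    intro k x hx
    simp only [hE, hKE, below, Finset.sum_mul]
    rw [Finset.sum_comm, ← Finset.sum_add_distrib]
    refine Finset.sum_congr rfl fun u _ => ?_
    split_ifs
    · rw [prof_eq (s1 u) (s2 u) x hx, mul_add, Finset.mul_sum]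
      simp only [mul_assoc]
    · simp
  have hKE0 : ∀ k, 0 < k → k < s → ∀ w, 0 < w → w < n → lev k < rl w → 0 ≤ KE w k := by
    intro k k0 ks w w0 wn h
    rcases sup k k0 ks w w0 wn h with h1 | h1
    · refine Finset.sum_nonneg fun u _ => ?_
      split_ifs with h2
      · exact mul_nonneg (Nat.cast_nonneg _) (kap_nonneg hX (s2 u) w0 wn (h1 u h2))
      · exact le_rfl
    · exact h1.le
  refine ⟨g, ?_, fun u => ?_⟩
  · intro k k0 ks x i
    have h1 := T.vert k k0 ks
    simp only [hg, lvl, h1.2.1, ne_eq, not_true, false_and, if_false, k0.ne', not_false_iff,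
      true_and]
    ring
  have hk := hv u
  set k := (ty u).v with hkv
  refine ⟨fun i => lvl par lev (fun k => below ty par (fun u => N u * a0 X (ty u)) k) k i, K k,
    hwall k hk, hfree k hk, fun w => ?_, fun x _ hx i => ?_, fun w w0 wn i hi => ?_,
    fun a1 a2 => ?_⟩
  · have := T.node w
    simp only [hK]
    rw [lvl_two T _ hk (by simp), add_zero]
    exact if_neg (by simp only [Fin.val_zero]; omega)
  · simp only [hg, hK, hEx _ x hx, lvl_lin, pp_of_le hx, ite_self, add_mul,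
      Finset.sum_add_distrib]
    ring
  · have h1 := T.node w w0 wn
    by_cases h2 : rl w < i
    · have h3 := hi ⟨rl w, h1.2⟩ h2
      have h4 : 0 ≤ lvl par lev (KE w) k (rl w) := lvl_nonneg T _ hk fun k' a b c =>
        absurd c.symm ((T.vert k' a b).2.2.2.2.2 w w0 wn)
      simp only [hK, Pi.zero_apply, w0, wn, true_and, if_true] at h3
      linarith
    · refine add_nonneg (by split_ifs <;> norm_num) (lvl_nonneg T _ hk fun k' a b c => ?_)
      have := (T.vert k' a b).2.2.2.2.2 w w0 wn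
      exact hKE0 k' a b w w0 wn (by omega)
  · have hq : (ty u).q ≤ n := by rcases s2 u with h | h | h <;> omega
    have hz := T.node (ty u).z (by omega) (by omega)
    rcases s3 u a1 a2 with ⟨b1, b2⟩ | ⟨b1, b2, b3⟩
    · refine ⟨⟨rl (ty u).z, hz.2⟩, fun i hi w w1 w2 => ?_, fun w w1 w2 w3 => ?_, ?_⟩
      · have hi' : (i : ℕ) < rl (ty u).z := hi
        have : rl (ty u).z ≤ rl w := by
          by_cases h : w = (ty u).z
          · rw [h]
          · exact (b1 w w1 w2 h).le
        simp only [hK]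
        rw [if_neg (by omega), lvl_low T _ hk (b2.imp id fun h => lt_trans hi' h), add_zero]
      · have := b1 w w1 w2 w3
        simp only [hK]
        rw [if_neg (by omega), lvl_low T _ hk b2, add_zero]
      · simp only [hK]
        rw [if_pos ⟨by omega, trivial⟩, lvl_low T _ hk b2]
        norm_num
    · have h1 := T.vert k (Nat.pos_of_ne_zero b1) hk
      refine ⟨⟨lev k, h1.2.2.2.1⟩, fun i hi w w1 w2 => ?_, fun w w1 w2 w3 => ?_, ?_⟩
      · have hi' : (i : ℕ) < lev k := hi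
        have : lev k < rl w := b2 w w1 w2
        simp only [hK]
        rw [if_neg (by omega), lvl_low T _ hk (Or.inr hi'), add_zero]
      · have : lev k < rl w := b2 w w1 w2
        simp only [hK]
        rw [if_neg (by omega), lvl_self T _ b1 hk, zero_add]
        refine Finset.sum_eq_zero fun u' _ => ?_
        split_ifs with h2
        · simp only [kap_away (b3 w w1 w2 w3 u' h2), mul_zero]
        · rfl
      · have h2 : lev k < rl (ty u).z := b2 _ a1 a2
        simp only [hK]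
        rw [if_neg (by omega), lvl_self T _ b1 hk, zero_add]
        exact (sup k (by omega) hk _ (by omega) (by omega) h2).resolve_left
          fun h => h u (Or.inl rfl) rfl

theorem design_low (T : Tree n s P par lev rl) (X : ℕ → ℝ) (X0 : X 0 = 0)
    (hX : ∀ a b, a < b → b ≤ n → X a < X b) (N : ι → ℕ)
    (hv : ∀ u, (ty u).v < s) (s1 : ∀ u, (ty u).Shape n X) (s2 : ∀ u, (ty u).Ord n)
    (s3 : ∀ u, (ty u).p < (ty u).z → (ty u).z < (ty u).q → Level ty par lev rl (ty u))
    (sup : ∀ k, 0 < k → k < s → ∀ w, 0 < w → w < n → lev k < rl w →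
      (∀ u, Below par k (ty u).v → (ty u).z ≠ w) ∨
        0 < below ty par (fun u => N u * kap X (ty u) w) k)
    (r : ℕ) (hr : r = ∑ u, N u * (ty u).mu ^ 2)
    (m J : ℕ) (hm : 0 < m) (hJ : (J : ℝ) = X n * m) (Ω : ℕ → Finset ℕ)
    (hΩ : ∀ j ≤ J, ((Ω j).card : ℝ) ≤ m * ∑ u, N u * prof X (ty u) (j / m)) :
    KE (strip J Ω) (fun _ : Fin r => m) 0 := by
  obtain ⟨g, hg, hc⟩ := design_prices T X hX N hv s1 s2 s3 sup
  have cov : ∀ u, ∃ h : Fin (P + 2) → ℝ, ∀ x, 0 ≤ x → x ≤ X n →
      prof X (ty u) x ≤ 0 ∨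
        Irr.Cov (RankRel (g (ty u).v) h x) ((ty u).mu - prof X (ty u) x) := by
    intro u
    obtain ⟨C, K, c1, c2, c3, c4, c5, c6⟩ := hc u
    exact cov_ty n X X0 hX _ C K c1 c2 c3 c4 c5 T.n0 (ty u) (s1 u) (s2 u) c6
  choose h hh using cov
  have h1 := cont_low (X n) s T.s0 N (fun u => (ty u).mu) (fun u => (ty u).v) hv par
    (fun k a b => (T.vert k a b).1) lev (fun k a b => (T.vert k a b).2.2.2.1) g
    (fun k x => below ty par (fun u => N u * prof X (ty u) x) k) hg h
    (fun u x => prof X (ty u) x) hh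
    (fun k k0 _ x _ _ => (below_vert T hv (fun u => N u * prof X (ty u) x) k k0).ge)
    m J hm hJ.le Ω (fun j hj => by
      rw [below_root T hv (fun u => N u * prof X (ty u) (j / m))]
      exact hΩ j hj)
  have h2 := glueE _ (strip_finite J Ω) _ 0 h1 (fun a => (ty a.1).mu ^ 2) (fun _ => 0) m
    (fun a => sq_nag _ m) r (by
      rw [hr, Fintype.sum_sigma]
      simp)
  simpa using h2

theorem design_up (T : Tree n s P par lev rl) (X : ℕ → ℝ) (X0 : X 0 = 0)
    (hX : ∀ a b, a < b → b ≤ n → X a < X b) (N : ι → ℕ)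
    (hv : ∀ u, (ty u).v < s) (s1 : ∀ u, (ty u).Shape n X) (s2 : ∀ u, (ty u).Ord n)
    (s3 : ∀ u, (ty u).p < (ty u).z → (ty u).z < (ty u).q → Level ty par lev rl (ty u))
    (sup : ∀ k, 0 < k → k < s → ∀ w, 0 < w → w < n → lev k < rl w →
      (∀ u, Below par k (ty u).v → (ty u).z ≠ w) ∨
        0 < below ty par (fun u => N u * kap X (ty u) w) k)
    (r : ℕ) (hr : r = ∑ u, N u * (ty u).mu ^ 2)
    (m J : ℕ) (hJ : (J : ℝ) = X n * (m + 1)) (Ω : ℕ → Finset ℕ)
    (hΩ : ∀ j ≤ J, (m + 1) * ∑ u, N u * prof X (ty u) (j / (m + 1)) + 2 ^ s ≤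
      ((Ω j).card : ℝ)) :
    ∃ e, e + r * (m + 1).choose 2 = ∑ j ∈ Finset.range (J + 1), (Ω j).card ∧
      KE (strip J Ω) (fun _ : Fin r => m) e := by
  obtain ⟨g, hg, hc⟩ := design_prices T X hX N hv s1 s2 s3 sup
  have cov : ∀ u, ((ty u).mu : ℝ) ≤ X n ∧ ∃ h : Fin (P + 2) → ℝ, ∀ x, 0 ≤ x → x ≤ X n →
      0 ≤ prof X (ty u) x ∧
        CovL (Cheap (X n) (g (ty u).v) h x) ((ty u).mu - prof X (ty u) x) := by
    intro u
    obtain ⟨C, K, c1, c2, c3, c4, c5, c6⟩ := hc u
    exact covl_ty n X X0 hX _ C K c1 c2 c3 c4 c5 T.n0 (ty u) (s1 u) (s2 u) c6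
  choose hμ h hh using cov
  obtain ⟨e, he, h1⟩ := cont_up (X n) s T.s0 N (fun u => (ty u).mu) (fun u => (ty u).v) hv par
    (fun k a b => (T.vert k a b).1) lev (fun k a b => (T.vert k a b).2.2.2.1) g
    (fun k x => below ty par (fun u => N u * prof X (ty u) x) k) hg h
    (fun u x => prof X (ty u) x) hμ hh
    (fun k _ _ x x0 x1 => Finset.sum_nonneg fun u _ => by
      split_ifs
      · exact mul_nonneg (Nat.cast_nonneg _) (hh u x x0 x1).1
      · exact le_rfl)
    (fun k k0 _ x _ _ => (below_vert T hv (fun u => N u * prof X (ty u) x) k k0).le)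
    (m + 1) J m.succ_pos (by rw [hJ]; push_cast; rfl) Ω (fun j hj => by
      rw [below_root T hv (fun u => N u * prof X (ty u) (j / ((m + 1 : ℕ) : ℝ)))]
      push_cast
      exact hΩ j hj)
  have hsq : ∀ k : ℕ, ∃ f, f + k ^ 2 * (m + 1).choose 2 = (k * (m + 1)).choose 2 ∧
      KE (tri (k * (m + 1) - 1)) (fun _ : Fin (k ^ 2) => m) f := by
    intro k
    rcases Nat.eq_zero_or_pos k with rfl | hk
    · obtain ⟨f, f1, f2⟩ := sq_up 0 m 0 (by simp)
      exact ⟨f, by simpa using f1, by simpa using f2⟩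
    · have e1 : k * (m + 1) = k * m + k := by ring
      obtain ⟨f, f1, f2⟩ := sq_up k m (k * (m + 1) - 1) (by rw [mul_assoc]; omega)
      refine ⟨f, ?_, f2⟩
      rw [f1]
      congr 1
      omega
  choose f f1 f2 using hsq
  refine ⟨_, ?_, glueE _ (strip_finite J Ω) _ e h1 (fun a => (ty a.1).mu ^ 2)
    (fun a => f (ty a.1).mu) m (fun a => f2 _) r (by
      rw [hr, Fintype.sum_sigma]
      simp)⟩
  rw [← he, add_assoc, hr, Fintype.sum_sigma, Finset.sum_mul, ← Finset.sum_add_distrib]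
  congr 1
  refine Finset.sum_congr rfl fun u _ => ?_
  rw [← f1]
  simp only [Finset.sum_const, Finset.card_univ, Fintype.card_fin, smul_eq_mul]
  ring

end

end Pool.Agent.P.MP_8707bd_ag.Win
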