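import Mathlib
import Pool.Agent.P.MP_8707bd_ag.All.Frac

/-!
The change of the profiles under a shift of the nodes (helper file only).
-/

namespace Pool.Agent.P.MP_8707bd_ag.Win

open All Irr Filter Topology

/-- The group with another first coefficient. -/
def alt (p : Ty × ℚ) : Ty := { p.1 with A := p.2 }

/-- The leading term of the number of points of a group. -/
def ld {F : Type} [Field F] (L : F) (p : Ty × ℚ) : F := cnt (L + 1) (alt p) - cnt L p.1

/-- The divided difference of a slope. -/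
def dq {F : Type} [Field F] (X Y ξ : ℕ → F) (t : Ty) (a b : ℕ) : F :=
  ((X t.q - X t.p) * (ξ b - ξ a) - (ξ t.q - ξ t.p) * (X b - X a)) *
    ((X b - X a)⁻¹ * (Y b - Y a)⁻¹)

/-- The distance from node `a` to node `v`, if `a` is to the left. -/
def cut {F : Type} [Field F] (Y : ℕ → F) (a v : ℕ) : F := if a < v then Y v - Y a else 0

/-- The divided difference of a profile at node `v`. -/
def rsp {F : Type} [Field F] (X Y ξ : ℕ → F) (t : Ty) (v : ℕ) : F :=
  (if t.p = 0 then ξ t.q else 0) + dq X Y ξ t t.p t.z * (cut Y t.p v - cut Y t.z v) +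
    dq X Y ξ t t.z t.q * (cut Y t.q v - cut Y t.z v)

lemma interp (n : ℕ) (hn : 0 < n) (Y : ℕ → ℝ) (hY : ∀ a b, a < b → b ≤ n → Y a < Y b) (x : ℝ)
    (h0 : Y 0 ≤ x) (h1 : x ≤ Y n) : ∃ w < n, ∃ θ : ℝ, 0 ≤ θ ∧ θ ≤ 1 ∧
      ∀ a ≤ n, pp (x - Y a) = (1 - θ) * cut Y a w + θ * cut Y a (w + 1) := by
  have e : ∀ k, 0 < k → x ≤ Y k → ∃ w < k, Y w ≤ x ∧ x ≤ Y (w + 1) := by
    intro k
    induction k with
    | zero => omega
    | succ k ih =>
      intro _ h
      by_cases h2 : Y k ≤ x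
      · exact ⟨k, by omega, h2, h⟩
      · rcases Nat.eq_zero_or_pos k with rfl | h3
        · exact absurd h0 h2
        · obtain ⟨w, a, b⟩ := ih h3 (not_le.1 h2).le
          exact ⟨w, by omega, b⟩
  obtain ⟨w, w1, w2, w3⟩ := e n hn h1
  have h2 : 0 < Y (w + 1) - Y w := sub_pos.2 (hY _ _ (by omega) (by omega))
  refine ⟨w, w1, (x - Y w) / (Y (w + 1) - Y w), div_nonneg (by linarith) h2.le,
    (div_le_one h2).2 (by linarith), fun a ha => ?_⟩
  rcases lt_trichotomy a w with h | h | h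
  · rw [pp_of_ge ((hY a w h w1.le).le.trans w2), cut, cut, if_pos h, if_pos (by omega)]
    field_simp
    ring
  · subst h
    rw [pp_of_ge w2, cut, cut, if_neg (by omega), if_pos (by omega)]
    field_simp
    ring
  · have : Y (w + 1) ≤ Y a := by
      rcases (Nat.succ_le_of_lt h).lt_or_eq with h | h
      · exact (hY _ _ h ha).le
      · rw [← h]
    rw [pp_of_le (w3.trans this), cut, cut, if_neg (by omega), if_neg (by omega)]
    ring

lemma dq_eq (X Y ξ : ℕ → ℝ) (τ : ℝ) (hY : ∀ w, Y w = X w - τ * ξ w) (t : Ty) (a b : ℕ)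
    (h : a = b ∨ (X a < X b ∧ Y a < Y b)) :
    (Y t.q - Y t.p) * (Y b - Y a)⁻¹ = (X t.q - X t.p) * (X b - X a)⁻¹ + τ * dq X Y ξ t a b := by
  rcases h with h | h
  · simp [dq, h]
  · have h1 := (sub_pos.2 h.1).ne'
    have h2 := (sub_pos.2 h.2).ne'
    rw [dq]
    field_simp
    simp only [hY]
    ring

lemma prof_shift {n : ℕ} {X Y ξ : ℕ → ℝ} {τ : ℝ} (hY : ∀ w, Y w = X w - τ * ξ w)
    (mX : ∀ a b, a < b → b ≤ n → X a < X b) (mY : ∀ a b, a < b → b ≤ n → Y a < Y b) {t : Ty}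
    (h1 : t.Shape n Y) (h2 : t.Ord n) {x θ : ℝ} {w : ℕ} (hx : x ≤ Y n)
    (hθ : ∀ a ≤ n, pp (x - Y a) = (1 - θ) * cut Y a w + θ * cut Y a (w + 1)) :
    prof Y t x = a0 X t + ∑ v ∈ Finset.range n, kap X t v * pp (x - Y v) +
      τ * ((1 - θ) * rsp X Y ξ t w + θ * rsp X Y ξ t (w + 1)) := by
  have hp : t.p ≤ n := by rcases h2 with h | h | h <;> omega
  have hz : t.z ≤ n := by rcases h2 with h | h | h <;> omega
  have hq : t.q ≤ n := by rcases h2 with h | h | h <;> omega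
  have e1 := dq_eq X Y ξ τ hY t t.p t.z (by
    rcases h2 with h | h | h
    · omega
    · omega
    · exact Or.inr ⟨mX _ _ h.1 hz, mY _ _ h.1 hz⟩)
  have e2 := dq_eq X Y ξ τ hY t t.z t.q (by
    rcases h2 with h | h | h
    · omega
    · omega
    · exact Or.inr ⟨mX _ _ h.2.1 hq, mY _ _ h.2.1 hq⟩)
  have e3 : ∀ v, kap Y t v * pp (x - Y v) = kap X t v * pp (x - Y v) +
      (τ * dq X Y ξ t t.p t.z * (ind t.p v * pp (x - Y v) - ind t.z v * pp (x - Y v)) +
      τ * dq X Y ξ t t.z t.q * (ind t.q v * pp (x - Y v) - ind t.z v * pp (x - Y v))) := by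
    intro v
    rw [kap, kap, e1, e2]
    ring
  have e4 : a0 Y t = a0 X t + τ * if t.p = 0 then ξ t.q else 0 := by
    simp only [a0, hY]
    split_ifs <;> ring
  rw [prof_eq h1 h2 x hx, e4]
  simp only [e3, Finset.sum_add_distrib, ← Finset.mul_sum, Finset.sum_sub_distrib,
    sum_ind n _ hp Y x hx, sum_ind n _ hz Y x hx, sum_ind n _ hq Y x hx, rsp]
  rw [hθ _ hp, hθ _ hz, hθ _ hq]
  ring

section
variable {α : Type} [TopologicalSpace α] {X Y : α → ℕ → ℝ} {a : α} {n : ℕ}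

lemma inv_cont (hX : ∀ w, ContinuousAt (fun p => X p w) a)
    (mX : ∀ u v, u < v → v ≤ n → X a u < X a v) (u v : ℕ) (h : u = v ∨ (u < v ∧ v ≤ n)) :
    ContinuousAt (fun p => (X p v - X p u)⁻¹) a := by
  rcases h with h | h
  · simp only [h, sub_self]; exact continuousAt_const
  · exact ((hX v).sub (hX u)).inv₀ (sub_pos.2 (mX _ _ h.1 h.2)).ne'

lemma kap_cont' (hX : ∀ w, ContinuousAt (fun p => X p w) a)
    (mX : ∀ u v, u < v → v ≤ n → X a u < X a v) (t : Ty) (ho : t.Ord n) (w : ℕ) :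
    ContinuousAt (fun p => kap (X p) t w) a := by
  have e1 := inv_cont hX mX t.p t.z (by rcases ho with h | h | h <;> omega)
  have e2 := inv_cont hX mX t.z t.q (by rcases ho with h | h | h <;> omega)
  have e3 := (hX t.q).sub (hX t.p)
  exact (continuousAt_const.add (continuousAt_const.mul (e3.mul e1))).add
    (continuousAt_const.mul (e3.mul e2))

lemma rsp_cont (hX : ∀ w, ContinuousAt (fun p => X p w) a)
    (mX : ∀ u v, u < v → v ≤ n → X a u < X a v) (hY : ∀ w, ContinuousAt (fun p => Y p w) a)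
    (mY : ∀ u v, u < v → v ≤ n → Y a u < Y a v) (ξ : ℕ → ℝ) (t : Ty) (ho : t.Ord n) (w : ℕ) :
    ContinuousAt (fun p => rsp (X p) (Y p) ξ t w) a := by
  have e1 : ∀ u v, (u = v ∨ (u < v ∧ v ≤ n)) →
      ContinuousAt (fun p => dq (X p) (Y p) ξ t u v) a := fun u v h =>
    ((((hX _).sub (hX _)).mul continuousAt_const).sub
      (continuousAt_const.mul ((hX _).sub (hX _)))).mul
      ((inv_cont hX mX u v h).mul (inv_cont hY mY u v h))
  have e2 : ∀ u, ContinuousAt (fun p => cut (Y p) u w) a := fun u => by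
    unfold cut
    split_ifs
    · exact (hY _).sub (hY _)
    · exact continuousAt_const
  exact (continuousAt_const.add ((e1 _ _ (by rcases ho with h | h | h <;> omega)).mul
    ((e2 _).sub (e2 _)))).add
    ((e1 _ _ (by rcases ho with h | h | h <;> omega)).mul ((e2 _).sub (e2 _)))

end

lemma ld_cast (L : ℚ) (p : Ty × ℚ) : ((ld L p : ℚ) : ℝ) = ld (L : ℝ) p := by simp [ld, cnt]

lemma rsp_cast (al be ξ : ℕ → ℚ) (L : ℚ) (t : Ty) (v : ℕ) :
    ((rsp (pos al be L) (pos al be L) ξ t v : ℚ) : ℝ) =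
      rsp (pos al be (L : ℝ)) (pos al be (L : ℝ)) (fun w => ξ w) t v := by
  simp only [rsp, dq, cut]
  push_cast [pos_cast, apply_ite (Rat.cast : ℚ → ℝ)]
  rfl

end Pool.Agent.P.MP_8707bd_ag.Win
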