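import Mathlib
import Pool.Agent.P.MP_8707bd_ag.All.Check
import Pool.Agent.P.MP_8707bd_ag.Win.Shift
import Pool.Agent.P.MP_8707bd_ag.Win.DesignM
import Pool.Agent.P.MP_8707bd_ag.Win.Strip

/-!
From the finite rational check to the statement about the strip (helper file only).
-/

namespace Pool.Agent.P.MP_8707bd_ag.Win

open All Irr Filter Topology

set_option synthInstance.maxSize 4096

/-- The constant terms of the nodes after a shift of the width by one. -/
def sh (al be : ℕ → ℚ) (w : ℕ) : ℚ := al w - be w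

/-- The groups. -/
def ChkTy2 (n s M : ℕ) (par lev rl : ℕ → ℕ) (al be ξ : ℕ → ℚ) (L : ℚ) (E : List (Ty × ℚ)) :
    Prop :=
  ∀ p ∈ E, p.1.v < s ∧ ChkShape n al be p.1 ∧ ChkShape n al ξ p.1 ∧
    ChkLevel (E.map Prod.fst) par lev rl p.1 ∧ 0 < ld L p ∧ (p.1.A * M).den = 1 ∧
    (p.2 * M).den = 1

/-- The kinks used by the groups in the branches are positive. -/
def ChkSup2 (n s : ℕ) (par lev rl : ℕ → ℕ) (al be : ℕ → ℚ) (L : ℚ) (E : List (Ty × ℚ)) : Prop :=
  ∀ k < s, 0 < k → ∀ w < n, 0 < w → lev k < rl w →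
    (∀ p ∈ E, (p.1.v = k ∨ par p.1.v = k) → p.1.z ≠ w) ∨
      0 < (E.map fun p => if p.1.v = k ∨ par p.1.v = k then
        ld L p * kap (pos al be L) p.1 w else 0).sum

/-- The shift of the nodes raises the sum of the profiles. -/
def ChkRsp (n : ℕ) (al be ξ : ℕ → ℚ) (L γ : ℚ) (E : List (Ty × ℚ)) : Prop :=
  ξ 0 = 0 ∧ ξ n = 1 ∧ 0 < γ ∧ ∀ v < n + 1,
    2 * γ < (E.map fun p => ld L p * rsp (pos al be L) (pos al be L) ξ p.1 v).sum

instance (n s M : ℕ) (par lev rl : ℕ → ℕ) (al be ξ : ℕ → ℚ) (L : ℚ) (E : List (Ty × ℚ)) :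
    Decidable (ChkTy2 n s M par lev rl al be ξ L E) := by
  unfold ChkTy2; infer_instance
instance (n s : ℕ) (par lev rl : ℕ → ℕ) (al be : ℕ → ℚ) (L : ℚ) (E : List (Ty × ℚ)) :
    Decidable (ChkSup2 n s par lev rl al be L E) := by
  unfold ChkSup2; infer_instance
instance (n : ℕ) (al be ξ : ℕ → ℚ) (L γ : ℚ) (E : List (Ty × ℚ)) :
    Decidable (ChkRsp n al be ξ L γ E) := by
  unfold ChkRsp; infer_instance

lemma sum_map (E : List (Ty × ℚ)) (f : Ty × ℚ → Ty) (F : Ty → ℝ) :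
    ∑ u : Fin (E.map f).length, F (E.map f)[u.1] = ∑ u : Fin E.length, F (f E[u.1]) := by
  rw [Fin.sum_univ_fun_getElem, Fin.sum_univ_fun_getElem E fun p => F (f p), List.map_map]
  rfl

lemma sum_cast (E : List (Ty × ℚ)) (f : Ty × ℚ → ℚ) :
    (((E.map f).sum : ℚ) : ℝ) = ∑ u : Fin E.length, (f E[u.1] : ℝ) := by
  rw [← Fin.sum_univ_fun_getElem, Rat.cast_sum]

lemma shape_of {n : ℕ} {al be ξ : ℕ → ℚ} {t : Ty} (h1 : ChkShape n al be t)
    (h2 : ChkShape n al ξ t) (W τ : ℝ) : t.Shape n fun w => pos al be W w - τ * ξ w := by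
  rcases h1.1 with ⟨a, b, c, d⟩ | ⟨a, b, c, d, e⟩ | ⟨a, b, c, d, e⟩
  · have : ξ t.e2 = 0 := by
      rcases h2.1 with h | h | h
      · exact h.2.2.1.2
      · exact absurd a h.1
      · exact absurd a h.1
    exact Or.inl ⟨a, b, by simp [pos, c.1, c.2, this], d⟩
  · have : ξ t.e1 = ξ n := by
      rcases h2.1 with h | h | h
      · exact absurd h.1 a
      · exact h.2.2.2.1.2
      · rw [h.2.2.1, ← h.2.2.2.2.2, b]
    exact Or.inr (Or.inl ⟨a, b, c, by simp only [pos, d.1, d.2, this]; push_cast; ring, e⟩)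
  · have : ξ t.q = ξ t.p := by
      rcases h2.1 with h | h | h
      · exact absurd h.1 a
      · rw [h.2.1, ← h.2.2.2.1.2, c]
      · exact h.2.2.2.2.2
    exact Or.inr (Or.inr ⟨a, b, c, d, by simp only [pos, e.1, e.2, this]; push_cast; ring⟩)

/-- The two identities. -/
lemma two_ident {n : ℕ} {al be : ℕ → ℚ} {E : List (Ty × ℚ)} (hO : ∀ p ∈ E, p.1.Ord n)
    (c5 : ChkRes n al be (E.map Prod.fst)) (c6 : ChkPol n 0 al be (E.map Prod.fst))
    (c7 : ChkRes n (sh al be) be (E.map alt)) (c8 : ChkPol n 1 (sh al be) be (E.map alt))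
    (W : ℝ) (hX : ∀ a b, a < b → b ≤ n → pos al be W a < pos al be W b) (u : ℝ) :
    (∀ w < n, ∑ i : Fin E.length, (ld W E[i.1] + u * All.cnt W E[i.1].1) *
      kap (pos al be W) E[i.1].1 w = if w = 0 then -u else 0) ∧
    (∑ i : Fin E.length, (ld W E[i.1] + u * All.cnt W E[i.1].1) * a0 (pos al be W) E[i.1].1 =
      1 + u * W) ∧
    ∑ i : Fin E.length, (ld W E[i.1] + u * All.cnt W E[i.1].1) * (E[i.1].1.mu : ℝ) ^ 2 =
      2 * W + u * W ^ 2 := by
  have hp : pos (sh al be) be (W + 1) = pos al be W := by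
    funext w; simp only [pos, sh]; push_cast; ring
  have o1 : ∀ t ∈ E.map Prod.fst, t.Ord n := fun t ht => by
    obtain ⟨p, h, rfl⟩ := List.mem_map.1 ht
    exact hO p h
  have o2 : ∀ t ∈ E.map alt, t.Ord n := fun t ht => by
    obtain ⟨p, h, rfl⟩ := List.mem_map.1 ht
    exact hO p h
  obtain ⟨p1, p2, p3, p4, p5, p6, p7⟩ := c6
  obtain ⟨q1, q2, q3, q4, q5, q6, q7⟩ := c8
  refine ⟨fun w hw => ?_, ?_, ?_⟩
  · obtain ⟨a, b, c, d⟩ := p1 w hw
    have h1 := eqk_of al be n _ o1 W hX c5 w _ a b c d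
    obtain ⟨a, b, c, d⟩ := q1 w hw
    have h2 := eqk_of (sh al be) be n _ o2 (W + 1) (by rw [hp]; exact hX) c7 w _ a b c d
    rw [sum_map E _ fun t => All.cnt W t * kap (pos al be W) t w] at h1
    rw [hp, sum_map E _ fun t => All.cnt (W + 1) t * kap (pos al be W) t w] at h2
    have h3 : ∀ p : Ty × ℚ, (ld W p + u * All.cnt W p.1) * kap (pos al be W) p.1 w =
        All.cnt (W + 1) (alt p) * kap (pos al be W) (alt p) w +
          (u - 1) * (All.cnt W p.1 * kap (pos al be W) p.1 w) := fun p => by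
      rw [show kap (pos al be W) (alt p) w = kap (pos al be W) p.1 w from rfl, ld]; ring
    simp only [h3, Finset.sum_add_distrib, ← Finset.mul_sum]
    rw [h1, h2]
    split_ifs <;> push_cast <;> ring
  · have h1 := eq0_of al be _ W p2 p3 p4 p5
    have h2 := eq0_of (sh al be) be _ (W + 1) q2 q3 q4 q5
    rw [sum_map E _ fun t => All.cnt W t * a0 (pos al be W) t] at h1
    rw [hp, sum_map E _ fun t => All.cnt (W + 1) t * a0 (pos al be W) t] at h2
    have h3 : ∀ p : Ty × ℚ, (ld W p + u * All.cnt W p.1) * a0 (pos al be W) p.1 =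
        All.cnt (W + 1) (alt p) * a0 (pos al be W) (alt p) +
          (u - 1) * (All.cnt W p.1 * a0 (pos al be W) p.1) := fun p => by
      rw [show a0 (pos al be W) (alt p) = a0 (pos al be W) p.1 from rfl, ld]; ring
    simp only [h3, Finset.sum_add_distrib, ← Finset.mul_sum]
    rw [h1, h2]
    ring
  · have h1 := congrArg (Rat.cast : ℚ → ℝ) p6
    have h2 := congrArg (Rat.cast : ℚ → ℝ) p7
    have h3 := congrArg (Rat.cast : ℚ → ℝ) q6
    rw [tot_cast, sum_map E _ fun t => ((t.A * t.mu ^ 2 : ℚ) : ℝ)] at h1 h3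
    rw [tot_cast, sum_map E _ fun t => (((t.B : ℚ) * t.mu ^ 2 : ℚ) : ℝ)] at h2
    have h4 : ∀ p : Ty × ℚ, (ld W p + u * All.cnt W p.1) * (p.1.mu : ℝ) ^ 2 =
        (((alt p).A * (alt p).mu ^ 2 : ℚ) : ℝ) + (u - 1) * ((p.1.A * p.1.mu ^ 2 : ℚ) : ℝ) +
          (2 * W + 1 + u * W ^ 2) * (((p.1.B : ℚ) * p.1.mu ^ 2 : ℚ) : ℝ) := fun p => by
      simp only [ld, All.cnt, alt]; push_cast; ring
    simp only [h4, Finset.sum_add_distrib, ← Finset.mul_sum]
    rw [h1, h2, h3]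
    push_cast
    ring

theorem strip_of_check (n s P M : ℕ) (hM : 0 < M) (par lev rl : ℕ → ℕ) (al be ξ : ℕ → ℚ)
    (L0 γ : ℚ) (E : List (Ty × ℚ)) (c1 : ChkTree n s P par lev rl) (c2 : ChkNode n 0 al be L0)
    (c3 : ChkTy2 n s M par lev rl al be ξ L0 E) (c4 : ChkSup2 n s par lev rl al be L0 E)
    (c5 : ChkRes n al be (E.map Prod.fst)) (c6 : ChkPol n 0 al be (E.map Prod.fst))
    (c7 : ChkRes n (sh al be) be (E.map alt)) (c8 : ChkPol n 1 (sh al be) be (E.map alt))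
    (c9 : ChkRsp n al be ξ L0 γ E) : StripMain := by
  obtain ⟨t1, t2, t3, t4, t5⟩ := c1
  have T : Tree n s P par lev rl := ⟨t1, t2, t3, fun k a b => by
    obtain ⟨h1, h2, h3, h4, h5, h6⟩ := t4 k b a
    exact ⟨h1, h2, h3, h4, h5, fun w a b => h6 w b a⟩, fun w a b => t5 w b a⟩
  obtain ⟨n0, n1, n2, n3, n4, n5⟩ := c2
  obtain ⟨r1, r2, r3, r4⟩ := c9
  have hO : ∀ p ∈ E, p.1.Ord n := fun t ht => (c3 t ht).2.1.2
  have hX0 : ∀ a b, a < b → b ≤ n → pos al be (L0 : ℝ) a < pos al be (L0 : ℝ) b := by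
    intro a b h1 h2
    rw [← pos_cast, ← pos_cast, Rat.cast_lt]
    exact n5 b (by omega) a h1
  set ty : Fin E.length → Ty := fun u => E[u.1].1 with hty
  have hmem : ∀ u : Fin E.length, E[u.1] ∈ E := fun u => List.getElem_mem u.2
  set X : ℝ × ℝ × ℝ → ℕ → ℝ := fun p => pos al be p.1 with hXd
  set Y : ℝ × ℝ × ℝ → ℕ → ℝ := fun p w => pos al be p.1 w - p.2.1 * ξ w with hYd
  set ν : ℝ × ℝ × ℝ → Fin E.length → ℝ := fun p u => ld p.1 E[u.1] + p.2.2 * All.cnt p.1 (ty u)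
    with hν
  set o : ℝ × ℝ × ℝ := ((L0 : ℝ), 0, 0) with ho
  have oX : X o = pos al be (L0 : ℝ) := rfl
  have oY : Y o = pos al be (L0 : ℝ) := by funext w; simp [hYd, ho]
  have oν : ∀ u, ν o u = ld (L0 : ℝ) E[u.1] := fun u => by simp [hν, ho]
  have cX : ∀ w, ContinuousAt (fun p => X p w) o := fun w => by
    simp only [hXd, pos]; fun_prop
  have cY : ∀ w, ContinuousAt (fun p => Y p w) o := fun w => by
    simp only [hYd, pos]; fun_prop
  have cν : ∀ u, ContinuousAt (fun p => ν p u) o := fun u => by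
    simp only [hν, ld, All.cnt]; fun_prop
  have mX : ∀ a b, a < b → b ≤ n → X o a < X o b := hX0
  have mY : ∀ a b, a < b → b ≤ n → Y o a < Y o b := by rw [oY]; exact hX0
  have e1 : ∀ᶠ p in 𝓝 o, ∀ ab : Fin (n + 1) × Fin (n + 1), (ab.1 : ℕ) < ab.2 →
      X p ab.1 < X p ab.2 ∧ Y p ab.1 < Y p ab.2 := by
    refine eventually_all.2 fun ab => eventually_imp_distrib_left.2 fun h => ?_
    have : (ab.2 : ℕ) ≤ n := by have := ab.2.2; omega
    exact ((cX _).eventually_lt (cX _) (mX _ _ h this)).and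
      ((cY _).eventually_lt (cY _) (mY _ _ h this))
  have e2 : ∀ᶠ p in 𝓝 o, ∀ u, 0 < ν p u := by
    refine eventually_all.2 fun u => continuousAt_const.eventually_lt (cν u) ?_
    rw [oν, ← ld_cast]
    exact_mod_cast (c3 _ (hmem u)).2.2.2.2.1
  have e3 : ∀ᶠ p in 𝓝 o, ∀ kw : Fin s × Fin n,
      0 < below ty par (fun u => ν o u * kap (Y o) (ty u) kw.2) kw.1 →
      0 < below ty par (fun u => ν p u * kap (Y p) (ty u) kw.2) kw.1 := by
    refine eventually_all.2 fun kw => eventually_imp_distrib_left.2 fun h => ?_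
    refine continuousAt_const.eventually_lt ?_ h
    refine tendsto_finsetSum _ fun u _ => ?_
    split_ifs
    · exact (cν u).mul (kap_cont' cY mY _ (hO _ (hmem u)) _)
    · exact tendsto_const_nhds
  have e4 : ∀ᶠ p in 𝓝 o, ∀ v : Fin (n + 1), γ * (2 + p.2.2 * (2 * p.1 - p.2.1)) - p.2.2 <
      ∑ u, ν p u * rsp (X p) (Y p) (fun w => ξ w) (ty u) v := by
    refine eventually_all.2 fun v => ContinuousAt.eventually_lt (by fun_prop) ?_ ?_
    · exact tendsto_finsetSum _ fun u _ =>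
        (cν u).mul (rsp_cont cX mX cY mY _ _ (hO _ (hmem u)) _)
    · have h1 : ((2 * γ : ℚ) : ℝ) < _ := Rat.cast_lt.2 (r4 v v.2)
      rw [sum_cast] at h1
      simp only [Rat.cast_mul, ld_cast, rsp_cast] at h1
      simp only [oX, oY, oν]
      refine lt_of_eq_of_lt ?_ h1
      simp [ho, mul_comm]
  obtain ⟨ε, hε, hnb⟩ := Metric.eventually_nhds_iff.1 (e1.and (e2.and (e3.and e4)))
  have hL0 : (0 : ℝ) < L0 := by exact_mod_cast n0
  set η : ℝ := min (ε / 2) L0 with hη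
  have η0 : 0 < η := lt_min (by linarith) hL0
  have η1 : η ≤ ε / 2 := min_le_left _ _
  obtain ⟨y, hy⟩ := exists_nat_ge (2 / η)
  set δ : ℕ := M * y with hδ
  have hηδ : 2 ≤ η * δ := by
    have h1 : (1 : ℝ) ≤ M := by exact_mod_cast hM
    have h2 : 2 ≤ η * y := by rwa [div_le_iff₀ η0, mul_comm] at hy
    rw [hδ]; push_cast
    nlinarith [mul_nonneg (mul_nonneg η0.le (Nat.cast_nonneg (α := ℝ) y)) (sub_nonneg.2 h1)]
  have hδ' : (0 : ℝ) < δ := by
    by_contra h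
    nlinarith [mul_nonneg η0.le (neg_nonneg.2 (not_lt.1 h))]
  obtain ⟨c0, hc0⟩ := exists_nat_gt (δ / ε)
  refine ⟨δ, c0 + 2 ^ s, L0, η, γ, η0, min_le_right _ _, hηδ, by exact_mod_cast r3,
    fun k r W hk hW hr => ?_⟩
  have hk1 : (δ : ℝ) / ε < k := hc0.trans_le (by exact_mod_cast le_trans (Nat.le_add_right _ _) hk)
  have hk0 : (0 : ℝ) < k := lt_of_le_of_lt (by positivity) hk1
  have key : ∀ W' : ℝ, |W' - L0| < η → ∃ (Z : ℕ → ℝ) (N : Fin E.length → ℕ), Z 0 = 0 ∧ Z n = W' ∧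
      (∀ a b, a < b → b ≤ n → Z a < Z b) ∧ (∀ u, (ty u).Shape n Z) ∧
      (∀ k, 0 < k → k < s → ∀ w, 0 < w → w < n → lev k < rl w →
        (∀ u, Below par k (ty u).v → (ty u).z ≠ w) ∨
          0 < below ty par (fun u => N u * kap Z (ty u) w) k) ∧
      r = ∑ u, N u * (ty u).mu ^ 2 ∧ ∀ x, 0 ≤ x → x ≤ W' → ∃ g : ℝ, 0 ≤ g ∧
        ∑ u, N u * prof Z (ty u) x = δ * k + δ ^ 2 * (W' - x) +
          γ * (r - 2 * δ * k * W' - δ ^ 2 * W' ^ 2) + (W - W') * g := by
    intro W' hW'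
    set p : ℝ × ℝ × ℝ := (W, W - W', δ / k) with hp
    have hd : dist p o < ε := by
      simp only [hp, ho, Prod.dist_eq, Real.dist_eq, sub_zero, max_lt_iff]
      have a1 := abs_lt.1 hW
      have a2 := abs_lt.1 hW'
      refine ⟨by linarith, abs_lt.2 ⟨by linarith, by linarith⟩, ?_⟩
      rw [abs_of_pos (by positivity), div_lt_iff₀ hk0]
      rw [div_lt_iff₀ hε] at hk1
      linarith
    obtain ⟨f1, f2, f3, f4⟩ := hnb hd
    have gX : ∀ a b, a < b → b ≤ n → X p a < X p b := fun a b h1 h2 =>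
      (f1 (⟨a, by omega⟩, ⟨b, by omega⟩) h1).1
    have gY : ∀ a b, a < b → b ≤ n → Y p a < Y p b := fun a b h1 h2 =>
      (f1 (⟨a, by omega⟩, ⟨b, by omega⟩) h1).2
    have hN : ∀ u, ∃ N : ℕ, (N : ℝ) = δ * k * ν p u := by
      intro u
      obtain ⟨-, -, -, -, -, d1, d2⟩ := c3 _ (hmem u)
      have h1 : ((((ty u).A * M).num : ℝ)) = (ty u).A * M := by
        exact_mod_cast (Rat.den_eq_one_iff _).1 d1
      have h2 : (((E[u.1].2 * M).num : ℝ)) = E[u.1].2 * M := by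
        exact_mod_cast (Rat.den_eq_one_iff _).1 d2
      have h3 : ((((ty u).A * M).num * (M * y ^ 2 - y * k) + (E[u.1].2 * M).num * (y * k) +
          (ty u).B * (r + δ * k) : ℤ) : ℝ) = δ * k * ν p u := by
        rw [Int.cast_add, Int.cast_add, Int.cast_mul, Int.cast_mul, Int.cast_mul, h1, h2]
        simp only [hν, hp, ld, All.cnt, alt, hty]
        push_cast
        rw [hr]
        field_simp
        rw [hδ]
        push_cast
        ring
      have h4 : (0 : ℝ) ≤ δ * k * ν p u := mul_nonneg (by positivity) (f2 u).le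
      rw [← h3] at h4
      obtain ⟨N, hN⟩ := Int.eq_ofNat_of_zero_le (Int.cast_nonneg_iff.1 h4)
      exact ⟨N, by rw [← h3, hN]; simp⟩
    choose N hN using hN
    obtain ⟨i1, i2, i3⟩ := two_ident hO c5 c6 c7 c8 W gX (δ / k)
    have Y0 : Y p 0 = 0 := by simp [hYd, pos, n1, n2, r1]
    have Yn : Y p n = W' := by simp [hYd, hp, pos, n3, n4, r2]
    have hS : ∀ u, (ty u).Shape n (Y p) := fun u =>
      shape_of (c3 _ (hmem u)).2.1 (c3 _ (hmem u)).2.2.1 _ _
    refine ⟨Y p, N, Y0, Yn, gY, hS, fun k k0 ks w w0 wn h => ?_, ?_, fun x x0 x1 => ?_⟩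
    · rcases c4 k ks k0 w wn w0 h with h1 | h1
      · exact Or.inl fun u hu => h1 _ (hmem u) hu
      · right
        have h2 := f3 (⟨k, ks⟩, ⟨w, wn⟩) (by
          have h3 : ((0 : ℚ) : ℝ) < _ := Rat.cast_lt.2 h1
          rw [sum_cast, Rat.cast_zero] at h3
          refine h3.trans_eq (Finset.sum_congr rfl fun u _ => ?_)
          split_ifs
          · simp only [Rat.cast_mul, ld_cast, kap_cast, oν, oY, hty]
          · simp)
        refine (mul_pos (mul_pos hδ' hk0) h2).trans_eq ?_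
        simp only [below, Finset.mul_sum, hN, mul_ite, mul_zero, mul_assoc]
    · have h3 : (r : ℝ) = ∑ u, (N u : ℝ) * (ty u).mu ^ 2 := by
        simp only [hN, mul_assoc, ← Finset.mul_sum]
        rw [show ∑ u, ν p u * ((ty u).mu : ℝ) ^ 2 = _ from i3, hr]
        field_simp
      exact_mod_cast h3
    · obtain ⟨w, w1, θ, θ0, θ1, hθ⟩ := interp n T.n0 (Y p) gY x (Y0 ▸ x0) (Yn ▸ x1)
      have a1 := f4 ⟨w, by omega⟩
      have a2 := f4 ⟨w + 1, by omega⟩
      set R : ℕ → ℝ := fun v => ∑ u, ν p u * rsp (X p) (Y p) (fun w => ξ w) (ty u) v with hR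
      set b : ℝ := γ * (2 + p.2.2 * (2 * p.1 - p.2.1)) - p.2.2 with hb
      refine ⟨δ * k * ((1 - θ) * (R w - b) + θ * (R (w + 1) - b)), mul_nonneg (by positivity)
        (add_nonneg (mul_nonneg (by linarith) (sub_nonneg.2 a1.le))
          (mul_nonneg θ0 (sub_nonneg.2 a2.le))), ?_⟩
      have h1 : ∀ u, ν p u * prof (Y p) (ty u) x = ν p u * a0 (X p) (ty u) +
          ∑ v ∈ Finset.range n, ν p u * kap (X p) (ty u) v * pp (x - Y p v) +
          ((W - W') * (1 - θ) * (ν p u * rsp (X p) (Y p) (fun w => ξ w) (ty u) w) +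
          (W - W') * θ * (ν p u * rsp (X p) (Y p) (fun w => ξ w) (ty u) (w + 1))) := by
        intro u
        rw [prof_shift (X := X p) (ξ := fun w => ξ w) (τ := W - W') (fun _ => rfl) gX gY (hS u)
          (hO _ (hmem u)) (x1.trans_eq Yn.symm) hθ]
        simp only [mul_assoc, ← Finset.mul_sum]
        ring
      have h2 : ∑ u, ∑ v ∈ Finset.range n, ν p u * kap (X p) (ty u) v * pp (x - Y p v) =
          -(δ / k) * x := by
        rw [Finset.sum_comm, Finset.sum_eq_single 0]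
        · rw [← Finset.sum_mul, show ∑ u, ν p u * kap (X p) (ty u) 0 = _ from i1 0 T.n0,
            if_pos rfl, Y0, pp_of_ge x0, sub_zero]
        · intro v hv v0
          rw [← Finset.sum_mul, show ∑ u, ν p u * kap (X p) (ty u) v = _ from
            i1 v (Finset.mem_range.1 hv), if_neg v0, zero_mul]
        · intro h; exact absurd (Finset.mem_range.2 T.n0) h
      simp only [hN, mul_assoc (δ * k : ℝ), ← Finset.mul_sum]
      simp only [h1, Finset.sum_add_distrib, ← Finset.mul_sum]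
      rw [h2, show ∑ u, ν p u * a0 (X p) (ty u) = _ from i2, hr]
      change _ * (_ + _ + (_ * R w + _ * R (w + 1))) = _
      simp only [hb, hp]
      field_simp
      ring
  have s3 : ∀ u, (ty u).p < (ty u).z → (ty u).z < (ty u).q → Level ty par lev rl (ty u) := by
    intro u a1 _
    rcases (c3 _ (hmem u)).2.2.2.1 a1 with ⟨a, b⟩ | ⟨a, b, c⟩
    · exact Or.inl ⟨fun w h1 h2 => a w h2 h1, b⟩
    · exact Or.inr ⟨a, fun w h1 h2 => b w h2 h1, fun w h1 h2 h3 u' h4 =>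
        c _ (List.mem_map_of_mem (hmem u')) h4 w h2 h1 h3⟩
  intro m J Ω hm
  refine ⟨fun h1 h2 h3 => ?_, fun h1 h2 h3 => ?_⟩
  · obtain ⟨Z, N, z1, z2, z3, z4, z5, z6, z7⟩ := key _ h1
    have hm' : (0 : ℝ) < m := by exact_mod_cast hm
    refine design_low T Z z1 z3 N (fun u => (c3 _ (hmem u)).1) z4 (fun u => hO _ (hmem u)) s3 z5
      r z6 m J hm (by rw [z2]; field_simp) Ω fun j hj => (h3 j hj).trans ?_
    have hj' : (j : ℝ) ≤ J := by exact_mod_cast hj
    obtain ⟨g, g0, hg⟩ := z7 (j / m) (by positivity) (by gcongr)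
    have a1 : (m : ℝ) * (δ ^ 2 * (J / m - j / m)) = δ ^ 2 * (J - j) := by field_simp
    have a2 := mul_nonneg hm'.le (mul_nonneg (sub_nonneg.2 h2) g0)
    rw [hg]
    linarith
  · obtain ⟨Z, N, z1, z2, z3, z4, z5, z6, z7⟩ := key _ h1
    have hm' : (0 : ℝ) < m + 1 := by positivity
    refine design_up T Z z1 z3 N (fun u => (c3 _ (hmem u)).1) z4 (fun u => hO _ (hmem u)) s3 z5
      r z6 m J (by rw [z2]; field_simp) Ω fun j hj => le_trans ?_ (h3 j hj)
    have hj' : (j : ℝ) ≤ J := by exact_mod_cast hj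
    obtain ⟨g, g0, hg⟩ := z7 (j / (m + 1)) (by positivity) (by gcongr)
    have a1 : ((m : ℝ) + 1) * (δ ^ 2 * (J / (m + 1) - j / (m + 1))) = δ ^ 2 * (J - j) := by
      field_simp
    have a2 := mul_nonneg hm'.le (mul_nonneg (sub_nonneg.2 h2) g0)
    have a3 : (0 : ℝ) ≤ c0 := by positivity
    rw [hg]
    push_cast
    linarith

end Pool.Agent.P.MP_8707bd_ag.Win
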