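import Mathlib
import Pool.Agent.P.MP_8707bd_ag.Win.Strip
import Pool.Agent.P.MP_8707bd_ag.Win.DesignM

/-!
The real data of a design of the strip (helper file only).
-/

namespace Pool.Agent.P.MP_8707bd_ag.Win

open All

/-- A design which works for all parameters in a small window. -/
def StripData : Prop :=
  ∃ (ι : Type) (_ : Fintype ι) (ty : ι → Ty) (n S P : ℕ) (par lev rl : ℕ → ℕ) (δ c : ℕ)
    (W0 η γ : ℝ), Tree n S P par lev rl ∧ (∀ u, (ty u).v < S) ∧ (∀ u, (ty u).Ord n) ∧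
    (∀ u, (ty u).p < (ty u).z → (ty u).z < (ty u).q → Level ty par lev rl (ty u)) ∧
    0 < η ∧ η ≤ W0 ∧ 2 ≤ η * δ ∧ 0 < γ ∧
    ∀ (k s : ℕ) (W : ℝ), c ≤ k → |W - W0| < η → (s : ℝ) = 2 * δ * k * W + δ ^ 2 * W ^ 2 →
    ∃ N : ι → ℕ, s = ∑ u, N u * (ty u).mu ^ 2 ∧ ∀ W' : ℝ, |W' - W0| < η →
      ∃ X : ℕ → ℝ, X 0 = 0 ∧ (∀ a b, a < b → b ≤ n → X a < X b) ∧ X n = W' ∧
        (∀ u, (ty u).Shape n X) ∧
        (∀ k, 0 < k → k < S → ∀ w, 0 < w → w < n → lev k < rl w →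
          (∀ u, Below par k (ty u).v → (ty u).z ≠ w) ∨
            0 < below ty par (fun u => N u * kap X (ty u) w) k) ∧
        (W' ≤ W → ∀ x, 0 ≤ x → x ≤ W' →
          δ * k + δ ^ 2 * (W' - x) + γ * (s - 2 * δ * k * W' - δ ^ 2 * W' ^ 2) ≤
            ∑ u, N u * prof X (ty u) x) ∧
        (W ≤ W' → ∀ x, 0 ≤ x → x ≤ W' → ∑ u, N u * prof X (ty u) x ≤
          δ * k + δ ^ 2 * (W' - x) + γ * (s - 2 * δ * k * W' - δ ^ 2 * W' ^ 2))

theorem strip_of_data (H : StripData) : StripMain := by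
  obtain ⟨ι, _, ty, n, S, P, par, lev, rl, δ, c, W0, η, γ, T, hv, s2, s3, h1, h2, h3, h4, H⟩ := H
  refine ⟨δ, max c (2 ^ S), W0, η, γ, h1, h2, h3, h4, fun k s W hk hW hs m J Ω hm => ?_⟩
  obtain ⟨N, hN, H⟩ := H k s W (le_trans (le_max_left _ _) hk) hW hs
  have hm' : (0 : ℝ) < m := by exact_mod_cast hm
  have hm1 : (0 : ℝ) < m + 1 := by positivity
  refine ⟨fun a1 a2 a3 => ?_, fun a1 a2 a3 => ?_⟩
  · obtain ⟨X, X0, hX, Xn, s1, sup, lo, -⟩ := H _ a1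
    refine design_low T X X0 hX N hv s1 s2 s3 sup s hN m J hm (by rw [Xn]; field_simp) Ω
      fun j hj => le_trans (a3 j hj) ?_
    have hj' : (j : ℝ) ≤ J := by exact_mod_cast hj
    have := lo a2 (j / m) (by positivity) (by gcongr)
    refine le_trans (le_of_eq ?_) (mul_le_mul_of_nonneg_left this hm'.le)
    field_simp
  · obtain ⟨X, X0, hX, Xn, s1, sup, -, up⟩ := H _ a1
    refine design_up T X X0 hX N hv s1 s2 s3 sup s hN m J (by rw [Xn]; field_simp) Ω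
      fun j hj => le_trans ?_ (a3 j hj)
    have hj' : (j : ℝ) ≤ J := by exact_mod_cast hj
    have := up a2 (j / (m + 1)) (by positivity) (by gcongr)
    have h5 : (2 : ℝ) ^ S ≤ ((max c (2 ^ S) : ℕ) : ℝ) := by exact_mod_cast le_max_right _ _
    refine add_le_add (le_trans (mul_le_mul_of_nonneg_left this hm1.le) (le_of_eq ?_)) h5
    field_simp

end Pool.Agent.P.MP_8707bd_ag.Win
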